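import Pool.Agent.H.MP_96e181_an.sps.Basics

/-! # Module AtomCount: atoms of small mass

PROOF. Classify `ω` by the function `v : D → Fin L`, `v s = X s ω`.  There are `L ^ #D` functions
(`Fintype.card_fun` or `Finset.card_piFinset`).  For a fixed `v`, the `ω` with that `v` are all in
the same atom, whose mass `m` is the sum of their `p ω` (if there is any such `ω`); so
`∑_{ω with v} (if mass ω < t / L^#D then p ω else 0)` is `0` or equals `m < t / L^#D`.
Sum over `v`: `≤ L^#D * (t / L^#D) = t` (if `L = 0` and `D ≠ ∅` there is no `ω` at all: then the sum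
is empty and `0 ≤ t`).

Alternatively by induction on `D`. -/

set_option autoImplicit false

namespace Furst96.Sps

variable {Ω ι : Type*} [Fintype Ω] [DecidableEq ι]

theorem mass_small (p : Ω → ℝ) (hp : ∀ ω, 0 ≤ p ω) (hs : ∑ ω, p ω = 1) (X : ι → Ω → ℕ)
    (D : Finset ι) (L : ℕ) (hL : ∀ s ∈ D, ∀ ω, X s ω < L) (t : ℝ) (ht : 0 ≤ t) :
    ∑ ω, (if mass p X D ω < t / (L : ℝ) ^ D.card then p ω else 0) ≤ t := by
  classical
  set c : ℝ := t / (L : ℝ) ^ D.card with hc
  have hc0 : 0 ≤ c := div_nonneg ht (pow_nonneg (Nat.cast_nonneg L) _)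
  let v : Ω → (D → Fin L) := fun ω s => ⟨X s.1 ω, hL s.1 s.2 ω⟩
  have hv : ∀ ω ω', v ω = v ω' → Same X D ω ω' := by
    intro ω ω' h s hs
    have h1 := congrFun h ⟨s, hs⟩
    exact congrArg Fin.val h1
  have hin : ∀ w : D → Fin L,
      ∑ ω ∈ Finset.univ.filter (fun ω => v ω = w), (if mass p X D ω < c then p ω else 0) ≤ c := by
    intro w
    by_cases h : ∃ ω₀, v ω₀ = w ∧ mass p X D ω₀ < c
    · obtain ⟨ω₀, h1, h2⟩ := h
      refine le_trans ?_ h2.le
      unfold mass
      rw [Finset.sum_filter]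
      refine Finset.sum_le_sum fun ω _ => ?_
      by_cases h3 : v ω = w
      · rw [if_pos h3, if_pos (hv ω₀ ω (h1.trans h3.symm))]
        split_ifs
        · exact le_rfl
        · exact hp ω
      · rw [if_neg h3]
        split_ifs
        · exact hp ω
        · exact le_rfl
    · refine le_trans (le_of_eq (Finset.sum_eq_zero fun ω hω => ?_)) hc0
      rw [if_neg]
      intro h1
      exact h ⟨ω, (Finset.mem_filter.1 hω).2, h1⟩
  calc ∑ ω, (if mass p X D ω < c then p ω else 0)
      = ∑ w : D → Fin L, ∑ ω ∈ Finset.univ.filter (fun ω => v ω = w),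
          (if mass p X D ω < c then p ω else 0) :=
        (Finset.sum_fiberwise Finset.univ v _).symm
    _ ≤ ∑ _w : D → Fin L, c := Finset.sum_le_sum fun w _ => hin w
    _ = (L : ℝ) ^ D.card * c := by
        rw [Finset.sum_const, Finset.card_univ, Fintype.card_fun, Fintype.card_fin,
          Fintype.card_coe, nsmul_eq_mul, Nat.cast_pow]
    _ ≤ t := by
        rw [hc]
        rcases eq_or_ne ((L : ℝ) ^ D.card) 0 with h0 | h0
        · rw [h0, zero_mul]
          exact ht
        · rw [mul_div_cancel₀ _ h0]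

end Furst96.Sps
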