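import Pool.Agent.H.MP_96e181_an.sps.CircleLib

/-! # Module BaseDvd: all good denominators are multiples of the smallest one

PROOF. Write `x = (t : UnitAddCircle)` with `t : ℝ` (`QuotientAddGroup.mk_surjective` /
`induction x using QuotientAddGroup.induction_on`), so that `‖b • x‖ = |b t - round (b t)|`
(`norm_nsmul_coe` in CircleLib).  Put `a₀ = round (b₀ t)`, `a = round (b t)`.
`b₀ ≤ b` (otherwise `hmin b` contradicts `hbρ`), so `b₀ ≤ Q`.  Then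
`|b a₀ - b₀ a| = |b (a₀ - b₀ t) + b₀ (b t - a)| ≤ b ρ + b₀ ρ ≤ 2 Q ρ < 1`, and the integer
`b a₀ - b₀ a` is `0`.  `gcd(a₀, b₀) = 1`: if `g = gcd(a₀, b₀) > 1`, then `c = b₀ / g < b₀`,
`c ≥ 1`, and `|c t - a₀/g| = |b₀ t - a₀| / g ≤ ρ`, hence `‖c • x‖ ≤ ρ` (`round_le`: `|c t - round|
≤ |c t - m|` for every integer `m`), contradicting `hmin`.  So `b₀ ∣ b a₀` gives `b₀ ∣ b`
(`IsCoprime.dvd_of_dvd_mul_right` or `Nat.Coprime`/`Int` version), `b = c b₀`, `a = c a₀`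
and `|b t - a| = c |b₀ t - a₀|`. -/

set_option autoImplicit false

open MeasureTheory

namespace Furst96.Sps

theorem base_dvd (x : UnitAddCircle) (ρ : ℝ) (Q b₀ : ℕ) (hQ : 2 * (Q : ℝ) * ρ < 1)
    (h0 : 1 ≤ b₀) (hb₀ : ‖b₀ • x‖ ≤ ρ) (hmin : ∀ c : ℕ, 1 ≤ c → c < b₀ → ρ < ‖c • x‖)
    (b : ℕ) (hb : 1 ≤ b) (hbQ : b ≤ Q) (hbρ : ‖b • x‖ ≤ ρ) :
    b₀ ∣ b ∧ ‖b • x‖ = ((b / b₀ : ℕ) : ℝ) * ‖b₀ • x‖ := by
  induction x using QuotientAddGroup.induction_on with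
  | H t =>
  rw [norm_nsmul_coe] at hb₀ hbρ
  rw [norm_nsmul_coe, norm_nsmul_coe]
  have hρ : 0 ≤ ρ := (abs_nonneg _).trans hb₀
  have hle : b₀ ≤ b := by
    by_contra hlt
    push Not at hlt
    have h := hmin b hb hlt
    rw [norm_nsmul_coe] at h
    exact absurd hbρ (not_le.mpr h)
  obtain ⟨a₀, ha₀⟩ : ∃ a₀ : ℤ, a₀ = round ((b₀ : ℝ) * t) := ⟨_, rfl⟩
  obtain ⟨a, ha⟩ : ∃ a : ℤ, a = round ((b : ℝ) * t) := ⟨_, rfl⟩
  rw [← ha₀] at hb₀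
  rw [← ha] at hbρ
  rw [← ha₀, ← ha]
  have hbQr : (b : ℝ) ≤ Q := by exact_mod_cast hbQ
  have hb0Qr : (b₀ : ℝ) ≤ Q := by exact_mod_cast hle.trans hbQ
  have hb0r : (0 : ℝ) < b₀ := by exact_mod_cast h0
  have hbr : (0 : ℝ) < b := by exact_mod_cast hb
  have hcross : (b : ℤ) * a₀ - (b₀ : ℤ) * a = 0 := by
    have h1 : |(((b : ℤ) * a₀ - (b₀ : ℤ) * a : ℤ) : ℝ)| < 1 := by
      have e : (((b : ℤ) * a₀ - (b₀ : ℤ) * a : ℤ) : ℝ)
          = (b₀ : ℝ) * ((b : ℝ) * t - a) - (b : ℝ) * ((b₀ : ℝ) * t - a₀) := by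
        push_cast
        ring
      rw [e]
      calc |(b₀ : ℝ) * ((b : ℝ) * t - a) - (b : ℝ) * ((b₀ : ℝ) * t - a₀)|
          ≤ |(b₀ : ℝ) * ((b : ℝ) * t - a)| + |(b : ℝ) * ((b₀ : ℝ) * t - a₀)| := abs_sub _ _
        _ = (b₀ : ℝ) * |(b : ℝ) * t - a| + (b : ℝ) * |(b₀ : ℝ) * t - a₀| := by
            rw [abs_mul, abs_mul, abs_of_pos hb0r, abs_of_pos hbr]
        _ ≤ (Q : ℝ) * ρ + (Q : ℝ) * ρ := by
            refine add_le_add (mul_le_mul hb0Qr hbρ (abs_nonneg _) (by positivity))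
              (mul_le_mul hbQr hb₀ (abs_nonneg _) (by positivity))
        _ < 1 := by linarith
    have h2 : |(b : ℤ) * a₀ - (b₀ : ℤ) * a| < 1 := by exact_mod_cast h1
    exact Int.abs_lt_one_iff.mp h2
  -- coprimality
  have hcop : Int.gcd a₀ b₀ = 1 := by
    by_contra hg
    have hgpos : 0 < Int.gcd a₀ (b₀ : ℤ) :=
      Int.gcd_pos_of_ne_zero_right _ (by exact_mod_cast (Nat.one_le_iff_ne_zero.mp h0))
    have hg2 : 2 ≤ Int.gcd a₀ (b₀ : ℤ) := by omega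
    obtain ⟨m, hm⟩ : ((Int.gcd a₀ (b₀ : ℤ) : ℕ) : ℤ) ∣ a₀ := Int.gcd_dvd_left ..
    obtain ⟨c, hc⟩ : Int.gcd a₀ (b₀ : ℤ) ∣ b₀ := by
      have h := Int.gcd_dvd_right (a := a₀) (b := (b₀ : ℤ))
      exact_mod_cast h
    obtain ⟨g, hgdef⟩ : ∃ g : ℕ, g = Int.gcd a₀ (b₀ : ℤ) := ⟨_, rfl⟩
    rw [← hgdef] at hg hgpos hg2 hm hc
    have hc1 : 1 ≤ c := by
      rcases Nat.eq_zero_or_pos c with h | h
      · rw [h, Nat.mul_zero] at hc
        omega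
      · exact h
    have hclt : c < b₀ := by
      rw [hc]
      nlinarith
    have h := hmin c hc1 hclt
    rw [norm_nsmul_coe] at h
    have h3 : |(c : ℝ) * t - round ((c : ℝ) * t)| ≤ |(c : ℝ) * t - m| := round_le _ _
    have hgr : (2 : ℝ) ≤ g := by exact_mod_cast hg2
    have h4 : (g : ℝ) * |(c : ℝ) * t - m| ≤ ρ := by
      have e : (g : ℝ) * |(c : ℝ) * t - m| = |(b₀ : ℝ) * t - a₀| := by
        have e2 : (b₀ : ℝ) * t - a₀ = (g : ℝ) * ((c : ℝ) * t - m) := by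
          rw [hc, hm]
          push_cast
          ring
        rw [e2, abs_mul, Nat.abs_cast]
      rw [e]
      exact hb₀
    have h5 : |(c : ℝ) * t - m| ≤ ρ := by nlinarith [abs_nonneg ((c : ℝ) * t - m)]
    linarith
  have hdvd : b₀ ∣ b := by
    have h1 : (b₀ : ℤ) ∣ (b : ℤ) * a₀ := ⟨a, by linarith⟩
    have h2 : IsCoprime (b₀ : ℤ) a₀ := by
      rw [Int.isCoprime_iff_gcd_eq_one, Int.gcd_comm]
      exact hcop
    have h3 : (b₀ : ℤ) ∣ (b : ℤ) := h2.dvd_of_dvd_mul_right h1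
    exact_mod_cast h3
  refine ⟨hdvd, ?_⟩
  obtain ⟨c, hc⟩ := hdvd
  have hdiv : b / b₀ = c := by
    rw [hc]
    exact Nat.mul_div_cancel_left c h0
  rw [hdiv]
  have hac : a = c * a₀ := by
    have hb0z : (b₀ : ℤ) ≠ 0 := by exact_mod_cast (Nat.one_le_iff_ne_zero.mp h0)
    have h1 : (b₀ : ℤ) * a = (b₀ : ℤ) * (c * a₀) := by
      have h2 : (b : ℤ) * a₀ = (b₀ : ℤ) * a := by linarith
      rw [← h2, hc]
      push_cast
      ring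
    exact mul_left_cancel₀ hb0z h1
  have e3 : (b : ℝ) * t - a = (c : ℝ) * ((b₀ : ℝ) * t - a₀) := by
    rw [hac, hc]
    push_cast
    ring
  rw [e3, abs_mul, Nat.abs_cast]

end Furst96.Sps
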