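import Pool.Agent.H.MP_96e181_an.sps.Defs

/-! # Basic facts on the finite probability definitions -/

set_option autoImplicit false

namespace Furst96.Sps

variable {Ω ι : Type*} [Fintype Ω] [DecidableEq ι]
variable {p : Ω → ℝ} {X : ι → Ω → ℕ} {D E : Finset ι} {ω ω' ω'' : Ω}

theorem Same.refl (X : ι → Ω → ℕ) (D : Finset ι) (ω : Ω) : Same X D ω ω := fun _ _ => rfl

theorem Same.symm (h : Same X D ω ω') : Same X D ω' ω := fun s hs => (h s hs).symm

theorem Same.trans (h : Same X D ω ω') (h' : Same X D ω' ω'') : Same X D ω ω'' :=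
  fun s hs => (h s hs).trans (h' s hs)

theorem Same.mono (hDE : D ⊆ E) (h : Same X E ω ω') : Same X D ω ω' := fun s hs => h s (hDE hs)

theorem same_iff (h : Same X D ω ω') : Same X D ω ω'' ↔ Same X D ω' ω'' :=
  ⟨fun h' => h.symm.trans h', fun h' => h.trans h'⟩

theorem same_insert {s : ι} : Same X (insert s D) ω ω' ↔ X s ω = X s ω' ∧ Same X D ω ω' := by
  unfold Same
  constructor
  · intro h
    exact ⟨h s (Finset.mem_insert_self s D), fun t ht => h t (Finset.mem_insert_of_mem ht)⟩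
  · rintro ⟨h1, h2⟩ t ht
    rcases Finset.mem_insert.1 ht with rfl | ht
    · exact h1
    · exact h2 t ht

theorem mass_congr (h : Same X D ω ω') : mass p X D ω = mass p X D ω' := by
  classical
  unfold mass
  refine Finset.sum_congr rfl fun ω'' _ => ?_
  simp only [same_iff h]

theorem cexp_congr {F : Ω → ℂ} (h : Same X D ω ω') : cexp p X D F ω = cexp p X D F ω' := by
  classical
  unfold cexp
  rw [mass_congr h]
  congr 1
  refine Finset.sum_congr rfl fun ω'' _ => ?_
  simp only [same_iff h]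

theorem gini_congr {s : ι} (h : Same X D ω ω') : gini p X D s ω = gini p X D s ω' := by
  classical
  unfold gini
  rw [mass_congr h]
  congr 1
  refine Finset.sum_congr rfl fun ω₁ _ => Finset.sum_congr rfl fun ω₂ _ => ?_
  simp only [same_iff h]

theorem mass_nonneg (hp : ∀ ω, 0 ≤ p ω) (X : ι → Ω → ℕ) (D : Finset ι) (ω : Ω) :
    0 ≤ mass p X D ω := by
  classical
  unfold mass
  refine Finset.sum_nonneg fun ω' _ => ?_
  split_ifs
  · exact hp ω'
  · exact le_rfl

theorem le_mass (hp : ∀ ω, 0 ≤ p ω) (X : ι → Ω → ℕ) (D : Finset ι) (ω : Ω) :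
    p ω ≤ mass p X D ω := by
  classical
  unfold mass
  have h1 : (if Same X D ω ω then p ω else 0) = p ω := if_pos (Same.refl X D ω)
  rw [← h1]
  exact Finset.single_le_sum (f := fun ω' => if Same X D ω ω' then p ω' else 0)
    (fun ω' _ => by
      show 0 ≤ if Same X D ω ω' then p ω' else 0
      split_ifs
      · exact hp ω'
      · exact le_rfl) (Finset.mem_univ ω)

theorem mass_pos (hp : ∀ ω, 0 ≤ p ω) (X : ι → Ω → ℕ) (D : Finset ι) {ω : Ω} (h : 0 < p ω) :
    0 < mass p X D ω := h.trans_le (le_mass hp X D ω)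

theorem mass_mono (hp : ∀ ω, 0 ≤ p ω) (X : ι → Ω → ℕ) (hDE : D ⊆ E) (ω : Ω) :
    mass p X E ω ≤ mass p X D ω := by
  classical
  unfold mass
  refine Finset.sum_le_sum fun ω' _ => ?_
  by_cases h : Same X E ω ω'
  · rw [if_pos h, if_pos (h.mono hDE)]
  · rw [if_neg h]
    split_ifs
    · exact hp ω'
    · exact le_rfl

theorem mass_empty (hs : ∑ ω, p ω = 1) (X : ι → Ω → ℕ) (ω : Ω) : mass p X ∅ ω = 1 := by
  classical
  unfold mass
  rw [← hs]
  refine Finset.sum_congr rfl fun ω' _ => ?_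
  rw [if_pos]
  intro s hs
  exact absurd hs (Finset.notMem_empty s)

theorem mass_le_one (hp : ∀ ω, 0 ≤ p ω) (hs : ∑ ω, p ω = 1) (X : ι → Ω → ℕ) (D : Finset ι)
    (ω : Ω) : mass p X D ω ≤ 1 := by
  rw [← mass_empty hs X ω]
  exact mass_mono hp X (Finset.empty_subset D) ω

/-- Double counting (real form): for `ψ` measurable with respect to `(X_s)_{s ∈ D}`. -/
theorem tower_real (hp : ∀ ω, 0 ≤ p ω) (X : ι → Ω → ℕ) (D : Finset ι) (F ψ : Ω → ℝ)
    (hψ : ∀ ω ω', Same X D ω ω' → ψ ω = ψ ω') [∀ ω ω', Decidable (Same X D ω ω')] :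
    ∑ ω, p ω * ((∑ ω', if Same X D ω ω' then p ω' * F ω' else 0) / mass p X D ω * ψ ω) =
      ∑ ω, p ω * (F ω * ψ ω) := by
  classical
  have h1 : ∀ ω, p ω * ((∑ ω', if Same X D ω ω' then p ω' * F ω' else 0) / mass p X D ω * ψ ω) =
      ∑ ω', if Same X D ω ω' then p ω / mass p X D ω' * (p ω' * F ω' * ψ ω') else 0 := by
    intro ω
    rw [Finset.sum_div, Finset.sum_mul, Finset.mul_sum]
    refine Finset.sum_congr rfl fun ω' _ => ?_
    by_cases h : Same X D ω ω'
    · rw [if_pos h, if_pos h, mass_congr h, hψ ω ω' h]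
      ring
    · rw [if_neg h, if_neg h]
      simp
  rw [Finset.sum_congr rfl fun ω _ => h1 ω, Finset.sum_comm]
  refine Finset.sum_congr rfl fun ω' _ => ?_
  have h2 : ∀ ω, (if Same X D ω ω' then p ω / mass p X D ω' * (p ω' * F ω' * ψ ω') else 0) =
      (if Same X D ω' ω then p ω else 0) * ((p ω' * F ω' * ψ ω') / mass p X D ω') := by
    intro ω
    by_cases h : Same X D ω ω'
    · rw [if_pos h, if_pos h.symm]
      ring
    · rw [if_neg h, if_neg (fun h' => h (Same.symm h')), zero_mul]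
  rw [Finset.sum_congr rfl fun ω _ => h2 ω, ← Finset.sum_mul]
  have h3 : ∑ ω, (if Same X D ω' ω then p ω else 0) = mass p X D ω' := by
    unfold mass
    refine Finset.sum_congr rfl fun ω _ => ?_
    congr
  rw [h3]
  rcases eq_or_ne (mass p X D ω') 0 with h0 | h0
  · have hp0 : p ω' = 0 := le_antisymm (h0 ▸ le_mass hp X D ω') (hp ω')
    rw [hp0, h0]
    simp
  · field_simp

/-- The tower property of the conditional expectation. -/
theorem tower (hp : ∀ ω, 0 ≤ p ω) (X : ι → Ω → ℕ) (D : Finset ι) (F ψ : Ω → ℂ)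
    (hψ : ∀ ω ω', Same X D ω ω' → ψ ω = ψ ω') :
    ∑ ω, (p ω : ℂ) * (cexp p X D F ω * ψ ω) = ∑ ω, (p ω : ℂ) * (F ω * ψ ω) := by
  classical
  have h1 : ∀ ω, (p ω : ℂ) * (cexp p X D F ω * ψ ω) =
      ∑ ω', if Same X D ω ω' then (p ω : ℂ) / mass p X D ω' * (p ω' * F ω' * ψ ω') else 0 := by
    intro ω
    unfold cexp
    rw [Finset.sum_div, Finset.sum_mul, Finset.mul_sum]
    refine Finset.sum_congr rfl fun ω' _ => ?_
    by_cases h : Same X D ω ω'
    · rw [if_pos h, if_pos h, mass_congr h, hψ ω ω' h]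
      ring
    · rw [if_neg h, if_neg h]
      simp
  rw [Finset.sum_congr rfl fun ω _ => h1 ω, Finset.sum_comm]
  refine Finset.sum_congr rfl fun ω' _ => ?_
  have h2 : ∀ ω, (if Same X D ω ω' then (p ω : ℂ) / mass p X D ω' * (p ω' * F ω' * ψ ω') else 0) =
      ((if Same X D ω' ω then p ω else 0 : ℝ) : ℂ) * ((p ω' * F ω' * ψ ω') / mass p X D ω') := by
    intro ω
    by_cases h : Same X D ω ω'
    · rw [if_pos h, if_pos h.symm]
      ring
    · rw [if_neg h, if_neg (fun h' => h (Same.symm h'))]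
      simp
  rw [Finset.sum_congr rfl fun ω _ => h2 ω, ← Finset.sum_mul, ← Complex.ofReal_sum]
  have h3 : ∑ ω, (if Same X D ω' ω then p ω else 0) = mass p X D ω' := by
    unfold mass
    refine Finset.sum_congr rfl fun ω _ => ?_
    congr
  rw [h3]
  rcases eq_or_ne (mass p X D ω') 0 with h0 | h0
  · have hp0 : p ω' = 0 := le_antisymm (h0 ▸ le_mass hp X D ω') (hp ω')
    rw [hp0, h0]
    simp
  · have : (mass p X D ω' : ℂ) ≠ 0 := by exact_mod_cast h0
    field_simp

theorem gini_nonneg (hp : ∀ ω, 0 ≤ p ω) (X : ι → Ω → ℕ) (D : Finset ι) (s : ι) (ω : Ω) :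
    0 ≤ gini p X D s ω := by
  classical
  unfold gini
  refine div_nonneg (Finset.sum_nonneg fun ω' _ => Finset.sum_nonneg fun ω'' _ => ?_) (sq_nonneg _)
  split_ifs
  · exact mul_nonneg (hp ω') (hp ω'')
  · exact le_rfl

theorem gini_le_one (hp : ∀ ω, 0 ≤ p ω) (X : ι → Ω → ℕ) (D : Finset ι) (s : ι) (ω : Ω) :
    gini p X D s ω ≤ 1 := by
  classical
  unfold gini
  refine div_le_one_of_le₀ ?_ (sq_nonneg _)
  have h : mass p X D ω ^ 2 = ∑ ω' : Ω, ∑ ω'' : Ω,
      (if Same X D ω ω' then p ω' else 0) * (if Same X D ω ω'' then p ω'' else 0) := by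
    rw [sq]
    unfold mass
    rw [Finset.sum_mul_sum]
  rw [h]
  refine Finset.sum_le_sum fun ω' _ => Finset.sum_le_sum fun ω'' _ => ?_
  by_cases h1 : Same X D ω ω'
  · by_cases h2 : Same X D ω ω''
    · rw [if_pos h1, if_pos h2]
      split_ifs
      · exact le_rfl
      · exact mul_nonneg (hp ω') (hp ω'')
    · rw [if_neg (fun h => h2 h.2.1), if_neg h2]
      simp
  · rw [if_neg (fun h => h1 h.1), if_neg h1]
    simp

/-- The link between the pair form of `gini` and the masses: multiplied by the mass of the atom,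
`gini` is the integral over the atom of `1 - mass (insert s D) / mass D`. -/
theorem gini_mul_mass (X : ι → Ω → ℕ) (D : Finset ι) (s : ι) (ω : Ω)
    (hω : 0 < mass p X D ω) [∀ ω ω', Decidable (Same X D ω ω')] :
    gini p X D s ω * mass p X D ω =
      ∑ ω', if Same X D ω ω' then p ω' * (1 - mass p X (insert s D) ω' / mass p X D ω') else 0 := by
  classical
  have h1 : ∀ ω', (if Same X D ω ω' then
      p ω' * (1 - mass p X (insert s D) ω' / mass p X D ω') else 0) =
      (∑ ω'' : Ω, if Same X D ω ω' ∧ Same X D ω ω'' ∧ X s ω' ≠ X s ω'' then p ω' * p ω'' else 0) /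
        mass p X D ω := by
    intro ω'
    by_cases h : Same X D ω ω'
    · rw [if_pos h, ← mass_congr h, eq_div_iff hω.ne', mul_assoc, sub_mul, one_mul,
        div_mul_cancel₀ _ hω.ne']
      have h2 : mass p X D ω - mass p X (insert s D) ω' =
          ∑ ω'', if Same X D ω ω'' ∧ X s ω' ≠ X s ω'' then p ω'' else 0 := by
        unfold mass
        rw [← Finset.sum_sub_distrib]
        refine Finset.sum_congr rfl fun ω'' _ => ?_
        by_cases h3 : Same X D ω ω''
        · by_cases h4 : X s ω' = X s ω''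
          · rw [if_pos h3, if_pos (same_insert.2 ⟨h4, (same_iff h).1 h3⟩),
              if_neg (fun h5 => h5.2 h4), sub_self]
          · rw [if_pos h3, if_neg (fun h5 => h4 (same_insert.1 h5).1), if_pos ⟨h3, h4⟩, sub_zero]
        · rw [if_neg h3, if_neg (fun h5 => h3 ((same_iff h).2 (same_insert.1 h5).2)),
            if_neg (fun h5 => h3 h5.1), sub_zero]
      rw [h2, Finset.mul_sum]
      refine Finset.sum_congr rfl fun ω'' _ => ?_
      by_cases h3 : Same X D ω ω'' ∧ X s ω' ≠ X s ω''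
      · rw [if_pos h3, if_pos ⟨h, h3⟩]
      · rw [if_neg h3, if_neg (fun h4 => h3 h4.2), mul_zero]
    · rw [if_neg h]
      symm
      rw [div_eq_zero_iff]
      left
      refine Finset.sum_eq_zero fun ω'' _ => ?_
      rw [if_neg (fun h2 => h h2.1)]
  rw [Finset.sum_congr rfl fun ω' _ => h1 ω', ← Finset.sum_div]
  unfold gini
  field_simp

/-- For `b` measurable with respect to `(X_s)_{s ∈ D}`, the integral of `b · gini` is the integral
of `b · (1 - mass (insert s D) / mass D)`. -/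
theorem gini_integral (hp : ∀ ω, 0 ≤ p ω) (X : ι → Ω → ℕ) (D : Finset ι) (s : ι) (b : Ω → ℝ)
    (hb : ∀ ω ω', Same X D ω ω' → b ω = b ω') :
    ∑ ω, p ω * (b ω * gini p X D s ω) =
      ∑ ω, p ω * (b ω * (1 - mass p X (insert s D) ω / mass p X D ω)) := by
  classical
  have key := tower_real hp X D (fun ω => 1 - mass p X (insert s D) ω / mass p X D ω) b hb
  have h1 : ∀ ω, p ω * (b ω * (1 - mass p X (insert s D) ω / mass p X D ω)) =
      p ω * ((1 - mass p X (insert s D) ω / mass p X D ω) * b ω) := fun ω => by ring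
  rw [Finset.sum_congr rfl fun ω _ => h1 ω, ← key]
  refine Finset.sum_congr rfl fun ω _ => ?_
  rcases eq_or_ne (p ω) 0 with h0 | h0
  · rw [h0, zero_mul, zero_mul]
  · have hpos : 0 < p ω := lt_of_le_of_ne (hp ω) (Ne.symm h0)
    have hm := mass_pos hp X D hpos
    rw [← gini_mul_mass X D s ω hm, mul_div_assoc, div_self hm.ne', mul_one, mul_comm (b ω)]

theorem ent_empty (hs : ∑ ω, p ω = 1) (X : ι → Ω → ℕ) : ent p X ∅ = 0 := by
  unfold ent
  rw [neg_eq_zero]
  refine Finset.sum_eq_zero fun ω _ => ?_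
  rw [mass_empty hs, Real.log_one, mul_zero]

theorem tc_empty (p : Ω → ℝ) (X : ι → Ω → ℕ) (D : Finset ι) : tc p X D ∅ = 0 := by
  unfold tc
  rw [Finset.sum_empty, Finset.union_empty, sub_self, sub_zero]

theorem tc_insert (p : Ω → ℝ) (X : ι → Ω → ℕ) (D R : Finset ι) (s : ι) (hs : s ∉ R) :
    tc p X D (insert s R) - tc p X D R = inc p X s D - inc p X s (D ∪ R) := by
  unfold tc inc
  rw [Finset.sum_insert hs, Finset.union_insert]
  ring

end Furst96.Sps
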