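import Pool.Agent.H.MP_96e181_an.sps.CircleLib

/-! # Module CellLib: the cells `[i/N, (i+1)/N)` of the circle

PROOFS. `AddCircle.equivIco 1 0 x : Ico 0 (0+1)`.  `coe_rep`: `AddCircle.coe_equivIco`
(or `(AddCircle.equivIco 1 0).symm_apply_apply x`).  Measurability of `rep`:
`AddCircle.measurableEquivIco` or `(AddCircle.measurable_mk'...)`; e.g.
`(AddCircle.measurableEquivIco 1 0).measurable`.  `idx_lt`: `N * rep x < N`.
`idx_dist`: if `⌊N a⌋₊ = ⌊N b⌋₊` with `0 ≤ a, b` then `|a - b| < 1/N`; and
`‖x - y‖ = ‖((rep x - rep y : ℝ) : UnitAddCircle)‖ ≤ |rep x - rep y|`.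
`sum_cm`: the cells `0 ≤ i < N` are disjoint, measurable and cover the circle. -/

set_option autoImplicit false

open MeasureTheory

namespace Furst96.Sps

theorem coe_rep (x : UnitAddCircle) : ((rep x : ℝ) : UnitAddCircle) = x :=
  (AddCircle.equivIco (1 : ℝ) 0).symm_apply_apply x

theorem rep_nonneg (x : UnitAddCircle) : 0 ≤ rep x :=
  (AddCircle.equivIco (1 : ℝ) 0 x).2.1

theorem rep_lt_one (x : UnitAddCircle) : rep x < 1 := by
  have h : rep x < 0 + 1 := (AddCircle.equivIco (1 : ℝ) 0 x).2.2
  linarith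

theorem measurable_rep : Measurable rep :=
  measurable_subtype_coe.comp (AddCircle.measurableEquivIco (1 : ℝ) 0).measurable

theorem measurable_idx (N : ℕ) : Measurable (idx N) :=
  Nat.measurable_floor.comp (measurable_const.mul measurable_rep)

theorem measurableSet_cell (N i : ℕ) : MeasurableSet (cell N i) :=
  measurable_idx N (measurableSet_singleton i)

theorem idx_lt {N : ℕ} (hN : 0 < N) (x : UnitAddCircle) : idx N x < N := by
  unfold idx
  have hN' : (0 : ℝ) < N := by exact_mod_cast hN
  rw [Nat.floor_lt (mul_nonneg hN'.le (rep_nonneg x))]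
  have h := mul_lt_mul_of_pos_left (rep_lt_one x) hN'
  linarith

theorem norm_sub_lt_of_idx_eq {N : ℕ} (hN : 0 < N) {x y : UnitAddCircle}
    (h : idx N x = idx N y) : ‖x - y‖ < 1 / (N : ℝ) := by
  have hN' : (0 : ℝ) < N := by exact_mod_cast hN
  unfold idx at h
  have hx1 := Nat.floor_le (mul_nonneg hN'.le (rep_nonneg x))
  have hy1 := Nat.floor_le (mul_nonneg hN'.le (rep_nonneg y))
  have hx2 := Nat.lt_floor_add_one ((N : ℝ) * rep x)
  have hy2 := Nat.lt_floor_add_one ((N : ℝ) * rep y)
  rw [h] at hx1 hx2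
  have habs : |rep x - rep y| < 1 / (N : ℝ) := by
    rw [lt_div_iff₀ hN']
    have : |(rep x - rep y) * N| < 1 := by
      rw [abs_lt]
      constructor <;> nlinarith
    rwa [abs_mul, abs_of_pos hN'] at this
  have hle : ‖x - y‖ ≤ |rep x - rep y| := by
    have h1 : x - y = ((rep x - rep y : ℝ) : UnitAddCircle) := by
      rw [AddCircle.coe_sub, coe_rep, coe_rep]
    rw [h1, UnitAddCircle.norm_eq]
    have := round_le (rep x - rep y) 0
    simpa using this
  exact hle.trans_lt habs

theorem cm_nonneg (μ : Measure UnitAddCircle) (N : ℕ) (i : Fin N) : 0 ≤ cm μ N i :=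
  measureReal_nonneg

/-- the integral of a function of the cell index. -/
theorem cellLib_integral (μ : Measure UnitAddCircle) [IsProbabilityMeasure μ] {N : ℕ}
    (hN : 0 < N) (f : ℕ → ℂ) :
    ∫ x, f (idx N x) ∂μ = ∑ i : Fin N, (cm μ N i : ℂ) * f i := by
  have h1 : (fun x => f (idx N x)) =
      fun x => ∑ i : Fin N, (cell N i).indicator (fun _ => f i) x := by
    funext x
    rw [Finset.sum_eq_single (⟨idx N x, idx_lt hN x⟩ : Fin N)]
    · rw [Set.indicator_of_mem]
      exact rfl
    · intro i _ hi
      apply Set.indicator_of_notMem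
      intro hmem
      apply hi
      apply Fin.ext
      exact (show idx N x = (i : ℕ) from hmem).symm
    · intro h
      exact absurd (Finset.mem_univ _) h
  rw [h1, integral_finsetSum]
  · apply Finset.sum_congr rfl
    intro i _
    rw [integral_indicator (measurableSet_cell N i), setIntegral_const]
    unfold cm
    rw [Complex.real_smul]
  · intro i _
    exact (integrable_const (f i)).indicator (measurableSet_cell N i)

theorem sum_cm (μ : Measure UnitAddCircle) [IsProbabilityMeasure μ] {N : ℕ} (hN : 0 < N) :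
    ∑ i : Fin N, cm μ N i = 1 := by
  have h := cellLib_integral μ hN (fun _ => (1 : ℂ))
  simp only [integral_const, probReal_univ, mul_one, one_smul] at h
  exact_mod_cast h.symm

/-- the integral of a function of the cell index. -/
theorem integral_idx (μ : Measure UnitAddCircle) [IsProbabilityMeasure μ] {N : ℕ} (hN : 0 < N)
    (f : ℕ → ℂ) : ∫ x, f (idx N x) ∂μ = ∑ i : Fin N, (cm μ N i : ℂ) * f i :=
  cellLib_integral μ hN f

end Furst96.Sps
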