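import Pool.Agent.H.MP_96e181_an.sps.Defs

/-! # Basic facts on `Near`, `Inv`, `ee`, `coef` -/

set_option autoImplicit false

open MeasureTheory

namespace Furst96.Sps

theorem near_mono {n n' : ℕ} {ρ ρ' : ℝ} (hn : n ≤ n') (hρ : ρ ≤ ρ') : Near n ρ ⊆ Near n' ρ' := by
  rintro x ⟨b, h1, h2, h3⟩
  exact ⟨b, h1, h2.trans hn, h3.trans hρ⟩

theorem continuous_nsmul_circle (s : ℕ) : Continuous fun x : UnitAddCircle => s • x :=
  continuous_const_smul s

theorem isClosed_near (n : ℕ) (ρ : ℝ) : IsClosed (Near n ρ) := by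
  have h : Near n ρ = ⋃ b ∈ Finset.Icc 1 n, {x : UnitAddCircle | ‖b • x‖ ≤ ρ} := by
    ext x
    simp only [Near, Set.mem_ofPred_eq, Set.mem_iUnion, Finset.mem_Icc, exists_prop, and_assoc]
  rw [h]
  refine isClosed_biUnion_finset fun b _ => ?_
  exact isClosed_le (continuous_nsmul_circle b).norm continuous_const

theorem measurableSet_near (n : ℕ) (ρ : ℝ) : MeasurableSet (Near n ρ) :=
  (isClosed_near n ρ).measurableSet

theorem inv_one (μ : Measure UnitAddCircle) : Inv μ 1 := by
  unfold Inv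
  simp only [one_smul]
  exact MeasurePreserving.id μ

theorem Inv.mul {μ : Measure UnitAddCircle} {a b : ℕ} (ha : Inv μ a) (hb : Inv μ b) :
    Inv μ (a * b) := by
  unfold Inv at *
  have h := ha.comp hb
  have h2 : (fun x : UnitAddCircle => a • x) ∘ (fun x : UnitAddCircle => b • x) =
      fun x => (a * b) • x := by
    funext x
    simp only [Function.comp, mul_smul]
  rwa [h2] at h

theorem Inv.prod {μ : Measure UnitAddCircle} {S : Finset ℕ} (hS : ∀ s ∈ S, Inv μ s) :
    Inv μ (∏ s ∈ S, s) := by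
  classical
  induction S using Finset.induction_on with
  | empty => simpa using inv_one μ
  | insert a S ha ih =>
    rw [Finset.prod_insert ha]
    exact (hS a (Finset.mem_insert_self a S)).mul
      (ih fun s hs => hS s (Finset.mem_insert_of_mem hs))

theorem inv_closure {μ : Measure UnitAddCircle} {P : Set ℕ} (hP : ∀ s ∈ P, Inv μ s) {a : ℕ}
    (ha : a ∈ Submonoid.closure P) : Inv μ a := by
  induction ha using Submonoid.closure_induction with
  | mem x hx => exact hP x hx
  | one => exact inv_one μ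
  | mul x y _ _ hx hy => exact hx.mul hy

/-- invariance of the measure of a set. -/
theorem Inv.real_preimage {μ : Measure UnitAddCircle} {s : ℕ} (h : Inv μ s)
    {A : Set UnitAddCircle} (hA : MeasurableSet A) :
    μ.real ((fun x : UnitAddCircle => s • x) ⁻¹' A) = μ.real A := by
  unfold Measure.real
  rw [MeasurePreserving.measure_preimage h hA.nullMeasurableSet]

theorem Inv.integral {μ : Measure UnitAddCircle} {s : ℕ} (h : Inv μ s) {f : UnitAddCircle → ℂ}
    (hf : AEStronglyMeasurable f μ) : ∫ x, f (s • x) ∂μ = ∫ x, f x ∂μ := by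
  unfold Inv at h
  have h2 : ∫ x, f x ∂(μ.map fun x : UnitAddCircle => s • x) = ∫ x, f (s • x) ∂μ :=
    integral_map h.measurable.aemeasurable (by rw [h.map_eq]; exact hf)
  rw [← h2, h.map_eq]

theorem norm_ee (t : ℝ) : ‖ee t‖ = 1 := by
  unfold ee
  rw [show (2 * Real.pi * Complex.I * t : ℂ) = ((2 * Real.pi * t : ℝ) : ℂ) * Complex.I by
    push_cast; ring]
  exact Complex.norm_exp_ofReal_mul_I _

theorem ee_add (s t : ℝ) : ee (s + t) = ee s * ee t := by
  unfold ee
  rw [← Complex.exp_add]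
  congr 1
  push_cast
  ring

theorem ee_int (n : ℤ) : ee n = 1 := by
  unfold ee
  rw [Complex.exp_eq_one_iff]
  exact ⟨n, by push_cast; ring⟩

theorem ee_zero : ee 0 = 1 := by
  have := ee_int 0
  simpa using this

theorem fourier_eq_ee (k : ℤ) (t : ℝ) : (fourier k (t : UnitAddCircle) : ℂ) = ee (k * t) := by
  rw [fourier_coe_apply]
  unfold ee
  congr 1
  push_cast
  ring

theorem norm_nsmul_coe (b : ℕ) (t : ℝ) :
    ‖b • (t : UnitAddCircle)‖ = |(b : ℝ) * t - round ((b : ℝ) * t)| := by
  have h : b • (t : UnitAddCircle) = ((b * t : ℝ) : UnitAddCircle) := by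
    rw [← nsmul_eq_mul]
    exact (AddCircle.coe_nsmul (p := (1 : ℝ))).symm
  rw [h, UnitAddCircle.norm_eq]

end Furst96.Sps
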