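import Mathlib

/-! # Module Pinsker (independent of all other modules)

PROOF. `log x ≤ x - 1`, so for `P a > 0`:
`P log(P/Q) = -2 P log √(Q/P) ≥ 2 P (1 - √(Q/P)) = 2 P - 2 √(P Q)`; for `P a = 0` the term is `0`
and `2 P - 2 √(P Q) = 0`.  So `KL ≥ 2 - 2 ∑ √(P Q) ≥ ∑ P + ∑ Q - 2 ∑ √(PQ) = ∑ (√P - √Q)²`.
By Cauchy-Schwarz `(∑ |P - Q|)² = (∑ |√P - √Q| (√P + √Q))² ≤ ∑ (√P - √Q)² ∑ (√P + √Q)²`, and
`∑ (√P + √Q)² ≤ 2 ∑ (P + Q) ≤ 4`.  So `(∑ |P - Q|)² ≤ 4 KL`, `∑ |P - Q| ≤ 2 √KL`. -/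

set_option autoImplicit false

namespace Furst96.Sps

theorem pinsker {α : Type*} [Fintype α] (P Q : α → ℝ) (hP : ∀ a, 0 ≤ P a) (hQ : ∀ a, 0 ≤ Q a)
    (hP1 : ∑ a, P a = 1) (hQ1 : ∑ a, Q a ≤ 1) (hPQ : ∀ a, 0 < P a → 0 < Q a) :
    ∑ a, |P a - Q a| ≤ 2 * Real.sqrt (∑ a, P a * Real.log (P a / Q a)) := by
  have h1 : ∀ a, (Real.sqrt (P a) - Real.sqrt (Q a)) ^ 2 ≤
      P a * Real.log (P a / Q a) - P a + Q a := by
    intro a
    have hu := Real.sq_sqrt (hP a)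
    have hv := Real.sq_sqrt (hQ a)
    rcases (hP a).eq_or_lt with h0 | h0
    · rw [← h0]
      simp [hv]
    · have hQa := hPQ a h0
      have hup : 0 < Real.sqrt (P a) := Real.sqrt_pos.2 h0
      have hvp : 0 < Real.sqrt (Q a) := Real.sqrt_pos.2 hQa
      have hlog : Real.log (P a / Q a) =
          -(2 * Real.log (Real.sqrt (Q a) / Real.sqrt (P a))) := by
        rw [Real.log_div h0.ne' hQa.ne', Real.log_div hvp.ne' hup.ne', Real.log_sqrt (hQ a),
          Real.log_sqrt (hP a)]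
        ring
      have h2 := Real.log_le_sub_one_of_pos (div_pos hvp hup)
      have h3 : P a * (2 * Real.log (Real.sqrt (Q a) / Real.sqrt (P a))) ≤
          P a * (2 * (Real.sqrt (Q a) / Real.sqrt (P a) - 1)) :=
        mul_le_mul_of_nonneg_left (by linarith) (hP a)
      have h4 : P a * (2 * (Real.sqrt (Q a) / Real.sqrt (P a) - 1)) =
          2 * (Real.sqrt (P a) * Real.sqrt (Q a)) - 2 * P a := by
        have : P a * (Real.sqrt (Q a) / Real.sqrt (P a)) = Real.sqrt (P a) * Real.sqrt (Q a) := by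
          rw [← mul_div_assoc, div_eq_iff hup.ne']
          calc P a * Real.sqrt (Q a) = Real.sqrt (P a) ^ 2 * Real.sqrt (Q a) := by rw [hu]
            _ = Real.sqrt (P a) * Real.sqrt (Q a) * Real.sqrt (P a) := by ring
        linear_combination 2 * this
      rw [hlog]
      have h5 : (Real.sqrt (P a) - Real.sqrt (Q a)) ^ 2 =
          P a + Q a - 2 * (Real.sqrt (P a) * Real.sqrt (Q a)) := by
        linear_combination hu + hv
      rw [h5]
      linarith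
  have h2 : ∑ a, (Real.sqrt (P a) - Real.sqrt (Q a)) ^ 2 ≤ ∑ a, P a * Real.log (P a / Q a) := by
    calc ∑ a, (Real.sqrt (P a) - Real.sqrt (Q a)) ^ 2
        ≤ ∑ a, (P a * Real.log (P a / Q a) - P a + Q a) := Finset.sum_le_sum fun a _ => h1 a
      _ = ∑ a, P a * Real.log (P a / Q a) - ∑ a, P a + ∑ a, Q a := by
          rw [Finset.sum_add_distrib, Finset.sum_sub_distrib]
      _ ≤ ∑ a, P a * Real.log (P a / Q a) := by linarith
  have h3 : ∑ a, (Real.sqrt (P a) + Real.sqrt (Q a)) ^ 2 ≤ 4 := by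
    calc ∑ a, (Real.sqrt (P a) + Real.sqrt (Q a)) ^ 2
        ≤ ∑ a, (2 * P a + 2 * Q a) := by
          refine Finset.sum_le_sum fun a _ => ?_
          have hu := Real.sq_sqrt (hP a)
          have hv := Real.sq_sqrt (hQ a)
          nlinarith [sq_nonneg (Real.sqrt (P a) - Real.sqrt (Q a))]
      _ = 2 * ∑ a, P a + 2 * ∑ a, Q a := by
          rw [Finset.sum_add_distrib, ← Finset.mul_sum, ← Finset.mul_sum]
      _ ≤ 4 := by linarith
  have h4 : ∀ a, |P a - Q a| =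
      |Real.sqrt (P a) - Real.sqrt (Q a)| * (Real.sqrt (P a) + Real.sqrt (Q a)) := by
    intro a
    have hu := Real.sq_sqrt (hP a)
    have hv := Real.sq_sqrt (hQ a)
    have hn : 0 ≤ Real.sqrt (P a) + Real.sqrt (Q a) :=
      add_nonneg (Real.sqrt_nonneg _) (Real.sqrt_nonneg _)
    rw [← abs_of_nonneg hn, ← abs_mul]
    congr 1
    linear_combination -hu + hv
  have hKL : 0 ≤ ∑ a, P a * Real.log (P a / Q a) :=
    (Finset.sum_nonneg fun a _ => sq_nonneg _).trans h2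
  have h5 : (∑ a, |P a - Q a|) ^ 2 ≤ (2 * Real.sqrt (∑ a, P a * Real.log (P a / Q a))) ^ 2 := by
    rw [mul_pow, Real.sq_sqrt hKL]
    calc (∑ a, |P a - Q a|) ^ 2
        = (∑ a, |Real.sqrt (P a) - Real.sqrt (Q a)| * (Real.sqrt (P a) + Real.sqrt (Q a))) ^ 2 := by
          rw [Finset.sum_congr rfl fun a _ => h4 a]
      _ ≤ (∑ a, |Real.sqrt (P a) - Real.sqrt (Q a)| ^ 2) *
          ∑ a, (Real.sqrt (P a) + Real.sqrt (Q a)) ^ 2 := Finset.sum_mul_sq_le_sq_mul_sq _ _ _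
      _ = (∑ a, (Real.sqrt (P a) - Real.sqrt (Q a)) ^ 2) *
          ∑ a, (Real.sqrt (P a) + Real.sqrt (Q a)) ^ 2 := by
          simp only [sq_abs]
      _ ≤ (∑ a, P a * Real.log (P a / Q a)) * 4 :=
          mul_le_mul h2 h3 (Finset.sum_nonneg fun a _ => sq_nonneg _) hKL
      _ = 2 ^ 2 * ∑ a, P a * Real.log (P a / Q a) := by ring
  exact le_of_sq_le_sq h5 (mul_nonneg (by norm_num) (Real.sqrt_nonneg _))

end Furst96.Sps
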