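import Pool.Agent.H.MP_96e181_an.sps.Basics
import Pool.Agent.H.MP_96e181_an.sps.Pinsker

/-! # Module Decouple: conditional independence up to the total correlation

PROOF. We may assume every `X r ω < L` for some `L` (finite `Ω`; take `L` = 1 + the max).  Let
`α = Ω × (R → Fin L)` (`R` the subtype `{r // r ∈ R}`; `L` as above) and, for `a : R → Fin L`,
`u ω a = (∑_{ω' ~_D ω, ∀ r ∈ R, X r ω' = a r} p ω') / mass D ω`,
`v_r ω c = (∑_{ω' ~_D ω, X r ω' = c} p ω') / mass D ω`,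
`P (ω, a) = p ω u ω a`, `Q (ω, a) = p ω ∏_r v_r ω (a r)`.
`∑_a u ω a = 1`, `∑_c v_r ω c = 1` when `p ω > 0`, so `∑ P = 1`,
`∑ Q = ∑_ω p ω ∏_r ∑_c v_r ω c = 1` (`Finset.prod_univ_sum`).  `P > 0` implies `Q > 0`
(`v_r ω (a r) ≥ u ω a`).

(1) KL.  `∑_{(ω,a)} P log(P/Q) = ∑_ω p ω ∑_a u ω a log(u ω a / ∏ v_r ω (a r))`.  By the tower
property (`tower_real` with `F = 1_{X_R = a}`, `ψ = log(u · a / ∏ v_r · (a r))`, summed over `a`)
this is `∑_ω p ω log(u ω X_R(ω) / ∏_r v_r ω (X_r ω))`, and `u ω X_R(ω) = mass (D ∪ R) ω/mass D ω`,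
`v_r ω (X_r ω) = mass (insert r D) ω / mass D ω`.  So it is
`∑_ω p ω [log mass (D ∪ R) - log mass D - ∑_r (log mass (insert r D) - log mass D)]
 = -(ent (D ∪ R) - ent D) + ∑_r inc r D = tc D R`.

(2) Expectations.  For `r ∈ R` let `Φ_r : ℕ → ℂ` be such that `φ r ω = Φ_r (X r ω)` (exists by
`hφX`; put `Φ_r c = 0` if `c` is not a value), so `‖Φ_r c‖ ≤ 1`.  By the tower property
`∑ p ψ ∏ φ r = ∑_{(ω,a)} P (ω,a) ψ ω ∏_r Φ_r (a r)`, and
`∑_{(ω,a)} Q (ω,a) ψ ω ∏_r Φ_r (a r) = ∑_ω p ω ψ ω ∏_r (∑_c v_r ω c Φ_r c)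
 = ∑_ω p ω ψ ω ∏_r cexp D (φ r) ω` (`Finset.prod_univ_sum` and the definition of `cexp`).
So the left side is `≤ ∑ |P - Q| + ∑ p ∏ ‖cexp D (φ r) ω‖ ≤ 2 √(tc) + ...` by `pinsker`. -/

set_option autoImplicit false

namespace Furst96.Sps

variable {Ω ι : Type*} [Fintype Ω] [DecidableEq ι]

open Classical in
/-- real conditional expectation. -/
private noncomputable def dcr (p : Ω → ℝ) (X : ι → Ω → ℕ) (D : Finset ι) (F : Ω → ℝ) (ω : Ω) : ℝ :=
  (∑ ω' : Ω, if Same X D ω ω' then p ω' * F ω' else 0) / mass p X D ω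

private theorem dcr_tower {p : Ω → ℝ} (hp : ∀ ω, 0 ≤ p ω) (X : ι → Ω → ℕ) (D : Finset ι)
    (F ψ : Ω → ℝ) (hψ : ∀ ω ω', Same X D ω ω' → ψ ω = ψ ω') :
    ∑ ω, p ω * (dcr p X D F ω * ψ ω) = ∑ ω, p ω * (F ω * ψ ω) := by
  unfold dcr
  exact @tower_real Ω ι _ _ p hp X D F ψ hψ (fun _ _ => Classical.propDecidable _)

private theorem dcr_nonneg {p : Ω → ℝ} (hp : ∀ ω, 0 ≤ p ω) (X : ι → Ω → ℕ) (D : Finset ι)
    {F : Ω → ℝ} (hF : ∀ ω, 0 ≤ F ω) (ω : Ω) : 0 ≤ dcr p X D F ω := by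
  classical
  unfold dcr
  refine div_nonneg (Finset.sum_nonneg fun ω' _ => ?_) (mass_nonneg hp X D ω)
  split_ifs
  · exact mul_nonneg (hp ω') (hF ω')
  · exact le_rfl

private theorem dcr_mono {p : Ω → ℝ} (hp : ∀ ω, 0 ≤ p ω) (X : ι → Ω → ℕ) (D : Finset ι)
    {F G : Ω → ℝ} (hFG : ∀ ω, F ω ≤ G ω) (ω : Ω) : dcr p X D F ω ≤ dcr p X D G ω := by
  classical
  unfold dcr
  refine div_le_div_of_nonneg_right (Finset.sum_le_sum fun ω' _ => ?_) (mass_nonneg hp X D ω)
  split_ifs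
  · exact mul_le_mul_of_nonneg_left (hFG ω') (hp ω')
  · exact le_rfl

private theorem dcr_congr {p : Ω → ℝ} {X : ι → Ω → ℕ} {D : Finset ι} {F : Ω → ℝ} {ω ω' : Ω}
    (h : Same X D ω ω') : dcr p X D F ω = dcr p X D F ω' := by
  classical
  unfold dcr
  rw [mass_congr h]
  congr 1
  refine Finset.sum_congr rfl fun ω'' _ => ?_
  simp only [same_iff h]

private theorem dcr_sum {β : Type*} [Fintype β] (p : Ω → ℝ) (X : ι → Ω → ℕ) (D : Finset ι)
    (F : β → Ω → ℝ) (ω : Ω) :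
    ∑ b, dcr p X D (F b) ω = dcr p X D (fun ω' => ∑ b, F b ω') ω := by
  classical
  unfold dcr
  rw [← Finset.sum_div, Finset.sum_comm]
  congr 1
  refine Finset.sum_congr rfl fun ω' _ => ?_
  by_cases h : Same X D ω ω'
  · simp only [if_pos h]
    rw [Finset.mul_sum]
  · simp only [if_neg h]
    exact Finset.sum_const_zero

private theorem dcr_one (p : Ω → ℝ) (X : ι → Ω → ℕ) (D : Finset ι) {ω : Ω}
    (hω : 0 < mass p X D ω) : dcr p X D (fun _ => 1) ω = 1 := by
  classical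
  unfold dcr
  rw [div_eq_one_iff_eq hω.ne']
  unfold mass
  refine Finset.sum_congr rfl fun ω' _ => ?_
  simp only [mul_one]

private theorem dcr_cexp (p : Ω → ℝ) (X : ι → Ω → ℕ) (D : Finset ι) (F : Ω → ℝ) (ω : Ω) :
    cexp p X D (fun ω' => (F ω' : ℂ)) ω = (dcr p X D F ω : ℂ) := by
  classical
  unfold cexp dcr
  rw [Complex.ofReal_div, Complex.ofReal_sum]
  congr 1
  refine Finset.sum_congr rfl fun ω' _ => ?_
  split_ifs
  · push_cast
    rfl
  · simp

private theorem cexp_sum' {β : Type*} [Fintype β] (p : Ω → ℝ) (X : ι → Ω → ℕ) (D : Finset ι)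
    (F : β → Ω → ℂ) (ω : Ω) :
    ∑ b, cexp p X D (F b) ω = cexp p X D (fun ω' => ∑ b, F b ω') ω := by
  classical
  unfold cexp
  rw [← Finset.sum_div, Finset.sum_comm]
  congr 1
  refine Finset.sum_congr rfl fun ω' _ => ?_
  by_cases h : Same X D ω ω'
  · simp only [if_pos h]
    rw [Finset.mul_sum]
  · simp only [if_neg h]
    exact Finset.sum_const_zero

private theorem cexp_mul_const' (p : Ω → ℝ) (X : ι → Ω → ℕ) (D : Finset ι)
    (F : Ω → ℂ) (c : ℂ) (ω : Ω) :
    cexp p X D (fun ω' => F ω' * c) ω = cexp p X D F ω * c := by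
  classical
  unfold cexp
  rw [div_mul_eq_mul_div, Finset.sum_mul]
  congr 1
  refine Finset.sum_congr rfl fun ω' _ => ?_
  split_ifs
  · ring
  · ring

theorem decouple (p : Ω → ℝ) (hp : ∀ ω, 0 ≤ p ω) (hs : ∑ ω, p ω = 1) (X : ι → Ω → ℕ)
    (D R : Finset ι) (φ : ι → Ω → ℂ) (hφ : ∀ r ∈ R, ∀ ω, ‖φ r ω‖ ≤ 1)
    (hφX : ∀ r ∈ R, ∀ ω ω', X r ω = X r ω' → φ r ω = φ r ω')
    (ψ : Ω → ℂ) (hψ : ∀ ω, ‖ψ ω‖ ≤ 1) (hψD : ∀ ω ω', Same X D ω ω' → ψ ω = ψ ω') :
    ‖∑ ω, (p ω : ℂ) * (ψ ω * ∏ r ∈ R, φ r ω)‖ ≤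
      ∑ ω, p ω * ∏ r ∈ R, ‖cexp p X D (φ r) ω‖ + 2 * Real.sqrt (tc p X D R) := by
  classical
  obtain ⟨L, hL⟩ : ∃ L : ℕ, ∀ r ∈ R, ∀ ω, X r ω < L := by
    refine ⟨∑ r ∈ R, ∑ ω, X r ω + 1, fun r hr ω => ?_⟩
    have h1 : X r ω ≤ ∑ ω, X r ω :=
      Finset.single_le_sum (f := fun ω => X r ω) (fun _ _ => Nat.zero_le _) (Finset.mem_univ ω)
    have h2 : ∑ ω, X r ω ≤ ∑ r ∈ R, ∑ ω, X r ω :=
      Finset.single_le_sum (f := fun r => ∑ ω, X r ω) (fun _ _ => Nat.zero_le _) hr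
    omega
  let Y : {r // r ∈ R} → Ω → Fin L := fun r ω => ⟨X r ω, hL r r.2 ω⟩
  let I : ({r // r ∈ R} → Fin L) → Ω → ℝ := fun a ω => if a = (fun r => Y r ω) then 1 else 0
  let J : {r // r ∈ R} → Fin L → Ω → ℝ := fun r c ω => if c = Y r ω then 1 else 0
  have hI0 : ∀ a ω, 0 ≤ I a ω := by
    intro a ω
    simp only [I]
    split_ifs <;> norm_num
  have hJ0 : ∀ r c ω, 0 ≤ J r c ω := by
    intro r c ω
    simp only [J]
    split_ifs <;> norm_num
  have hIJ : ∀ a r ω, I a ω ≤ J r (a r) ω := by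
    intro a r ω
    simp only [I, J]
    by_cases h : a = (fun r => Y r ω)
    · rw [if_pos h, if_pos (congrFun h r)]
    · rw [if_neg h]
      split_ifs <;> norm_num
  have hIsum : ∀ ω, ∑ a, I a ω = 1 := by
    intro ω
    simp only [I]
    rw [Finset.sum_ite_eq' Finset.univ, if_pos (Finset.mem_univ _)]
  have hJsum : ∀ r ω, ∑ c, J r c ω = 1 := by
    intro r ω
    simp only [J]
    rw [Finset.sum_ite_eq' Finset.univ, if_pos (Finset.mem_univ _)]
  let u : Ω → ({r // r ∈ R} → Fin L) → ℝ := fun ω a => dcr p X D (I a) ω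
  let v : {r // r ∈ R} → Ω → Fin L → ℝ := fun r ω c => dcr p X D (J r c) ω
  have hu0 : ∀ ω a, 0 ≤ u ω a := fun ω a => dcr_nonneg hp X D (hI0 a) ω
  have hv0 : ∀ r ω c, 0 ≤ v r ω c := fun r ω c => dcr_nonneg hp X D (hJ0 r c) ω
  have huv : ∀ ω a r, u ω a ≤ v r ω (a r) := fun ω a r => dcr_mono hp X D (hIJ a r) ω
  have husum : ∀ ω, 0 < mass p X D ω → ∑ a, u ω a = 1 := by
    intro ω hω
    simp only [u]
    rw [dcr_sum]
    simp only [hIsum]
    exact dcr_one p X D hω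
  have hvsum : ∀ r ω, 0 < mass p X D ω → ∑ c, v r ω c = 1 := by
    intro r ω hω
    simp only [v]
    rw [dcr_sum]
    simp only [hJsum]
    exact dcr_one p X D hω
  have hucongr : ∀ ω ω', Same X D ω ω' → ∀ a, u ω a = u ω' a := fun ω ω' h a => dcr_congr h
  have hvcongr : ∀ ω ω', Same X D ω ω' → ∀ r c, v r ω c = v r ω' c :=
    fun ω ω' h r c => dcr_congr h
  -- values at the actual point
  have huval : ∀ ω, u ω (fun r => Y r ω) = mass p X (D ∪ R) ω / mass p X D ω := by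
    intro ω
    simp only [u]
    unfold dcr
    congr 1
    unfold mass
    refine Finset.sum_congr rfl fun ω' _ => ?_
    simp only [I]
    by_cases h : Same X D ω ω'
    · rw [if_pos h]
      by_cases h2 : (fun r => Y r ω) = (fun r => Y r ω')
      · rw [if_pos h2, mul_one, if_pos]
        intro s hs
        rcases Finset.mem_union.1 hs with hs | hs
        · exact h s hs
        · have h3 := congrFun h2 ⟨s, hs⟩
          simpa [Y] using h3
      · rw [if_neg h2, mul_zero, if_neg]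
        intro h3
        apply h2
        funext r
        have h4 := h3 r (Finset.mem_union_right D r.2)
        simpa [Y] using h4
    · rw [if_neg h, if_neg]
      intro h3
      exact h (h3.mono Finset.subset_union_left)
  have hvval : ∀ (r : {r // r ∈ R}) ω, v r ω (Y r ω) =
      mass p X (insert (r : ι) D) ω / mass p X D ω := by
    intro r ω
    simp only [v]
    unfold dcr
    congr 1
    unfold mass
    refine Finset.sum_congr rfl fun ω' _ => ?_
    simp only [J]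
    by_cases h : Same X D ω ω'
    · rw [if_pos h]
      by_cases h2 : Y r ω = Y r ω'
      · rw [if_pos h2, mul_one, if_pos]
        refine same_insert.2 ⟨?_, h⟩
        simpa [Y] using h2
      · rw [if_neg h2, mul_zero, if_neg]
        intro h3
        apply h2
        have h4 := (same_insert.1 h3).1
        simpa [Y] using h4
    · rw [if_neg h, if_neg]
      intro h3
      exact h (same_insert.1 h3).2
  let P : Ω × ({r // r ∈ R} → Fin L) → ℝ := fun x => p x.1 * u x.1 x.2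
  let Q : Ω × ({r // r ∈ R} → Fin L) → ℝ := fun x => p x.1 * ∏ r, v r x.1 (x.2 r)
  have hP0 : ∀ x, 0 ≤ P x := fun x => mul_nonneg (hp _) (hu0 _ _)
  have hQ0 : ∀ x, 0 ≤ Q x := fun x =>
    mul_nonneg (hp _) (Finset.prod_nonneg fun r _ => hv0 _ _ _)
  have hP1 : ∑ x, P x = 1 := by
    rw [Fintype.sum_prod_type, ← hs]
    refine Finset.sum_congr rfl fun ω _ => ?_
    simp only [P]
    rw [← Finset.mul_sum]
    rcases eq_or_ne (p ω) 0 with h0 | h0
    · rw [h0, zero_mul]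
    · rw [husum ω (mass_pos hp X D (lt_of_le_of_ne (hp ω) (Ne.symm h0))), mul_one]
  have hprodsum : ∀ (ω : Ω) (f : {r // r ∈ R} → Fin L → ℂ),
      ∑ a : {r // r ∈ R} → Fin L, ∏ r, f r (a r) = ∏ r, ∑ c, f r c := by
    intro ω f
    rw [Finset.prod_univ_sum, Fintype.piFinset_univ]
  have hQ1 : ∑ x, Q x ≤ 1 := by
    rw [Fintype.sum_prod_type, ← hs]
    refine Finset.sum_le_sum fun ω _ => ?_
    simp only [Q]
    rw [← Finset.mul_sum]
    rcases eq_or_ne (p ω) 0 with h0 | h0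
    · rw [h0, zero_mul]
    · have hm := mass_pos hp X D (lt_of_le_of_ne (hp ω) (Ne.symm h0))
      have h1 : ∑ a : {r // r ∈ R} → Fin L, ∏ r, v r ω (a r) = 1 := by
        have h2 : ∑ a : {r // r ∈ R} → Fin L, ∏ r, v r ω (a r) = ∏ r, ∑ c, v r ω c := by
          rw [Finset.prod_univ_sum, Fintype.piFinset_univ]
        rw [h2]
        exact Finset.prod_eq_one fun r _ => hvsum r ω hm
      rw [h1, mul_one]
  have hPQ : ∀ x, 0 < P x → 0 < Q x := by
    intro x hx
    have hpx : 0 < p x.1 := by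
      rcases (hp x.1).lt_or_eq with h | h
      · exact h
      · simp only [P] at hx
        rw [← h, zero_mul] at hx
        exact absurd hx (lt_irrefl _)
    have hux : 0 < u x.1 x.2 := by
      rcases (hu0 x.1 x.2).lt_or_eq with h | h
      · exact h
      · simp only [P] at hx
        rw [← h, mul_zero] at hx
        exact absurd hx (lt_irrefl _)
    exact mul_pos hpx (Finset.prod_pos fun r _ => hux.trans_le (huv _ _ r))
  have hpin := pinsker P Q hP0 hQ0 hP1 hQ1 hPQ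
  -- the divergence
  have hKL : ∑ x, P x * Real.log (P x / Q x) = tc p X D R := by
    let g : ({r // r ∈ R} → Fin L) → Ω → ℝ := fun a ω =>
      Real.log (u ω a / ∏ r, v r ω (a r))
    have hg : ∀ a ω ω', Same X D ω ω' → g a ω = g a ω' := by
      intro a ω ω' h
      simp only [g]
      rw [hucongr ω ω' h a]
      congr 2
      exact Finset.prod_congr rfl fun r _ => hvcongr ω ω' h r (a r)
    have h1 : ∑ x, P x * Real.log (P x / Q x) =
        ∑ a, ∑ ω, p ω * (dcr p X D (I a) ω * g a ω) := by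
      rw [Fintype.sum_prod_type, Finset.sum_comm]
      refine Finset.sum_congr rfl fun a _ => Finset.sum_congr rfl fun ω _ => ?_
      simp only [P, Q, g]
      rcases eq_or_ne (p ω) 0 with h0 | h0
      · rw [h0]
        simp
      · rw [mul_div_mul_left _ _ h0, mul_assoc]
    have h2 : ∀ a, ∑ ω, p ω * (dcr p X D (I a) ω * g a ω) = ∑ ω, p ω * (I a ω * g a ω) :=
      fun a => dcr_tower hp X D (I a) (g a) (hg a)
    have h3 : ∑ a, ∑ ω, p ω * (I a ω * g a ω) = ∑ ω, p ω * g (fun r => Y r ω) ω := by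
      rw [Finset.sum_comm]
      refine Finset.sum_congr rfl fun ω _ => ?_
      rw [← Finset.mul_sum]
      congr 1
      have h4 : ∀ a, I a ω * g a ω = if a = (fun r => Y r ω) then g a ω else 0 := by
        intro a
        simp only [I]
        split_ifs
        · rw [one_mul]
        · rw [zero_mul]
      rw [Finset.sum_congr rfl fun a _ => h4 a, Finset.sum_ite_eq' Finset.univ,
        if_pos (Finset.mem_univ _)]
    have h5 : ∀ ω, p ω * g (fun r => Y r ω) ω =
        p ω * Real.log (mass p X (D ∪ R) ω) - p ω * Real.log (mass p X D ω) -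
          ∑ r ∈ R, (p ω * Real.log (mass p X (insert r D) ω) -
            p ω * Real.log (mass p X D ω)) := by
      intro ω
      rcases eq_or_ne (p ω) 0 with h0 | h0
      · rw [h0]
        simp
      · have hpos : 0 < p ω := lt_of_le_of_ne (hp ω) (Ne.symm h0)
        have hm := mass_pos hp X D hpos
        have hm2 := mass_pos hp X (D ∪ R) hpos
        have hm3 : ∀ r, 0 < mass p X (insert r D) ω := fun r => mass_pos hp X (insert r D) hpos
        simp only [g]
        rw [huval ω]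
        have h6 : ∏ r : {r // r ∈ R}, v r ω (Y r ω) =
            ∏ r ∈ R, (mass p X (insert r D) ω / mass p X D ω) := by
          rw [← Finset.prod_coe_sort R (fun r => mass p X (insert r D) ω / mass p X D ω)]
          exact Finset.prod_congr rfl fun r _ => hvval r ω
        rw [h6, Real.log_div (div_pos hm2 hm).ne'
          (Finset.prod_pos fun r _ => div_pos (hm3 r) hm).ne',
          Real.log_div hm2.ne' hm.ne', Real.log_prod (fun r _ => (div_pos (hm3 r) hm).ne')]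
        rw [mul_sub, mul_sub, Finset.mul_sum]
        congr 1
        refine Finset.sum_congr rfl fun r _ => ?_
        rw [Real.log_div (hm3 r).ne' hm.ne', mul_sub]
    rw [h1, Finset.sum_congr rfl fun a _ => h2 a, h3, Finset.sum_congr rfl fun ω _ => h5 ω,
      Finset.sum_sub_distrib, Finset.sum_sub_distrib, Finset.sum_comm]
    unfold tc inc ent
    have h7 : ∑ r ∈ R, ∑ ω, (p ω * Real.log (mass p X (insert r D) ω) -
        p ω * Real.log (mass p X D ω)) = - ∑ r ∈ R,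
        (-∑ ω, p ω * Real.log (mass p X (insert r D) ω) -
          -∑ ω, p ω * Real.log (mass p X D ω)) := by
      rw [← Finset.sum_neg_distrib]
      refine Finset.sum_congr rfl fun r _ => ?_
      rw [Finset.sum_sub_distrib]
      ring
    rw [h7]
    ring
  rw [hKL] at hpin
  -- the functions of the values
  let Φ : {r // r ∈ R} → Fin L → ℂ := fun r c =>
    if h : ∃ ω, Y r ω = c then φ r (Classical.choose h) else 0
  have hΦ : ∀ (r : {r // r ∈ R}) ω, φ r ω = Φ r (Y r ω) := by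
    intro r ω
    have h : ∃ ω', Y r ω' = Y r ω := ⟨ω, rfl⟩
    simp only [Φ]
    rw [dif_pos h]
    refine hφX r r.2 _ _ ?_
    have h2 := Classical.choose_spec h
    have h3 : (Y r (Classical.choose h) : ℕ) = (Y r ω : ℕ) := by rw [h2]
    exact h3.symm
  have hΦ1 : ∀ r c, ‖Φ r c‖ ≤ 1 := by
    intro r c
    simp only [Φ]
    by_cases h : ∃ ω, Y r ω = c
    · rw [dif_pos h]
      exact hφ r r.2 _
    · rw [dif_neg h, norm_zero]
      exact zero_le_one
  let T : Ω × ({r // r ∈ R} → Fin L) → ℂ := fun x => ψ x.1 * ∏ r, Φ r (x.2 r)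
  have hT : ∀ x, ‖T x‖ ≤ 1 := by
    intro x
    simp only [T]
    rw [norm_mul, norm_prod]
    have h1 : ∏ r, ‖Φ r (x.2 r)‖ ≤ 1 :=
      Finset.prod_le_one (fun r _ => norm_nonneg _) (fun r _ => hΦ1 _ _)
    calc ‖ψ x.1‖ * ∏ r, ‖Φ r (x.2 r)‖ ≤ 1 * 1 :=
          mul_le_mul (hψ _) h1 (Finset.prod_nonneg fun r _ => norm_nonneg _) zero_le_one
      _ = 1 := one_mul 1
  have hE1 : ∑ ω, (p ω : ℂ) * (ψ ω * ∏ r ∈ R, φ r ω) = ∑ x, (P x : ℂ) * T x := by
    rw [Fintype.sum_prod_type, Finset.sum_comm]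
    have h1 : ∀ a, ∑ ω, (P (ω, a) : ℂ) * T (ω, a) =
        ∑ ω, (p ω : ℂ) * ((I a ω : ℂ) * (ψ ω * ∏ r, Φ r (a r))) := by
      intro a
      rw [← tower hp X D (fun ω => (I a ω : ℂ)) (fun ω => ψ ω * ∏ r, Φ r (a r))
        (fun ω ω' h => by rw [hψD ω ω' h])]
      refine Finset.sum_congr rfl fun ω _ => ?_
      rw [dcr_cexp]
      simp only [P, T, u]
      push_cast
      ring
    rw [Finset.sum_congr rfl fun a _ => h1 a, Finset.sum_comm]
    refine Finset.sum_congr rfl fun ω _ => ?_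
    rw [← Finset.mul_sum]
    congr 1
    have h4 : ∀ a, (I a ω : ℂ) * (ψ ω * ∏ r, Φ r (a r)) =
        if a = (fun r => Y r ω) then ψ ω * ∏ r, Φ r (a r) else 0 := by
      intro a
      simp only [I]
      split_ifs
      · rw [Complex.ofReal_one, one_mul]
      · rw [Complex.ofReal_zero, zero_mul]
    rw [Finset.sum_congr rfl fun a _ => h4 a, Finset.sum_ite_eq' Finset.univ,
      if_pos (Finset.mem_univ _), ← Finset.prod_coe_sort R (fun r => φ r ω)]
    congr 1
    exact Finset.prod_congr rfl fun r _ => hΦ r ω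
  have hE2 : ∑ x, (Q x : ℂ) * T x = ∑ ω, (p ω : ℂ) * (ψ ω * ∏ r ∈ R, cexp p X D (φ r) ω) := by
    rw [Fintype.sum_prod_type]
    refine Finset.sum_congr rfl fun ω _ => ?_
    have h1 : ∀ a : {r // r ∈ R} → Fin L, (Q (ω, a) : ℂ) * T (ω, a) =
        (p ω : ℂ) * (ψ ω * ∏ r, ((v r ω (a r) : ℂ) * Φ r (a r))) := by
      intro a
      simp only [Q, T]
      push_cast
      rw [Finset.prod_mul_distrib]
      ring
    rw [Finset.sum_congr rfl fun a _ => h1 a, ← Finset.mul_sum, ← Finset.mul_sum,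
      hprodsum ω (fun r c => (v r ω c : ℂ) * Φ r c),
      ← Finset.prod_coe_sort R (fun r => cexp p X D (φ r) ω)]
    congr 2
    refine Finset.prod_congr rfl fun r _ => ?_
    have h2 : ∀ c, (v r ω c : ℂ) * Φ r c =
        cexp p X D (fun ω' => (J r c ω' : ℂ) * Φ r c) ω := by
      intro c
      rw [cexp_mul_const', dcr_cexp]
    rw [Finset.sum_congr rfl fun c _ => h2 c, cexp_sum']
    congr 1
    funext ω'
    have h4 : ∀ c, (J r c ω' : ℂ) * Φ r c = if c = Y r ω' then Φ r c else 0 := by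
      intro c
      simp only [J]
      split_ifs
      · rw [Complex.ofReal_one, one_mul]
      · rw [Complex.ofReal_zero, zero_mul]
    rw [Finset.sum_congr rfl fun c _ => h4 c, Finset.sum_ite_eq' Finset.univ,
      if_pos (Finset.mem_univ _)]
    exact (hΦ r ω').symm
  have hdiff : ‖∑ x, (P x : ℂ) * T x - ∑ x, (Q x : ℂ) * T x‖ ≤ ∑ x, |P x - Q x| := by
    rw [← Finset.sum_sub_distrib]
    refine (norm_sum_le _ _).trans (Finset.sum_le_sum fun x _ => ?_)
    rw [← sub_mul, ← Complex.ofReal_sub, norm_mul, Complex.norm_real, Real.norm_eq_abs]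
    calc |P x - Q x| * ‖T x‖ ≤ |P x - Q x| * 1 :=
          mul_le_mul_of_nonneg_left (hT x) (abs_nonneg _)
      _ = |P x - Q x| := mul_one _
  have hE2n : ‖∑ x, (Q x : ℂ) * T x‖ ≤ ∑ ω, p ω * ∏ r ∈ R, ‖cexp p X D (φ r) ω‖ := by
    rw [hE2]
    refine (norm_sum_le _ _).trans (Finset.sum_le_sum fun ω _ => ?_)
    rw [norm_mul, norm_mul, norm_prod, Complex.norm_real, Real.norm_of_nonneg (hp ω)]
    refine mul_le_mul_of_nonneg_left ?_ (hp ω)
    calc ‖ψ ω‖ * ∏ r ∈ R, ‖cexp p X D (φ r) ω‖ ≤ 1 * ∏ r ∈ R, ‖cexp p X D (φ r) ω‖ :=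
          mul_le_mul_of_nonneg_right (hψ ω) (Finset.prod_nonneg fun r _ => norm_nonneg _)
      _ = _ := one_mul _
  rw [hE1]
  calc ‖∑ x, (P x : ℂ) * T x‖
      = ‖∑ x, (Q x : ℂ) * T x + (∑ x, (P x : ℂ) * T x - ∑ x, (Q x : ℂ) * T x)‖ := by
        congr 1
        ring
    _ ≤ ‖∑ x, (Q x : ℂ) * T x‖ + ‖∑ x, (P x : ℂ) * T x - ∑ x, (Q x : ℂ) * T x‖ :=
        norm_add_le _ _
    _ ≤ _ := add_le_add hE2n (hdiff.trans hpin)

end Furst96.Sps
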