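import Mathlib

/-!
# MP_96e181 — measures invariant under a sparse set of primes: definitions

`Near`, `win`, `Inv`, `cell`, `ee`: the circle part.
`Same`, `mass`, `cexp`, `gini`, `ent`, `inc`, `tc`: finite probability
(`p : Ω → ℝ` a probability vector, `X s : Ω → ℕ` a family of random variables).
-/

set_option autoImplicit false

open MeasureTheory

namespace Furst96.Sps

/-! ## circle -/

/-- Points of the circle having a multiple `b x`, `1 ≤ b ≤ n`, within `ρ` of zero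
(`‖·‖` on `UnitAddCircle` is the distance to the nearest integer). -/
def Near (n : ℕ) (ρ : ℝ) : Set UnitAddCircle :=
  {x | ∃ b : ℕ, 1 ≤ b ∧ b ≤ n ∧ ‖b • x‖ ≤ ρ}

open Classical in
/-- the elements of `P` in the window `(y, y²]`. -/
noncomputable def win (P : Set ℕ) (y : ℕ) : Finset ℕ := (Finset.Ioc y (y ^ 2)).filter (· ∈ P)

/-- `μ` is invariant under `x ↦ s x`. -/
def Inv (μ : Measure UnitAddCircle) (s : ℕ) : Prop :=
  MeasurePreserving (fun x : UnitAddCircle => s • x) μ μ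

/-- the representative of `x` in `[0,1)`. -/
noncomputable def rep (x : UnitAddCircle) : ℝ := ((AddCircle.equivIco (1 : ℝ) 0 x : _) : ℝ)

/-- the index of the cell `[i/N, (i+1)/N)` which contains `x`. -/
noncomputable def idx (N : ℕ) (x : UnitAddCircle) : ℕ := ⌊(N : ℝ) * rep x⌋₊

/-- the cell `[i/N, (i+1)/N)`. -/
def cell (N i : ℕ) : Set UnitAddCircle := {x | idx N x = i}

/-- the mass of the cell `[i/N, (i+1)/N)`. -/
noncomputable def cm (μ : Measure UnitAddCircle) (N : ℕ) (i : Fin N) : ℝ := μ.real (cell N i)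

/-- the residue of `i` modulo `s`. -/
def res {N : ℕ} (s : ℕ) (i : Fin N) : ℕ := (i : ℕ) % s

/-- `ee t = e^{2π i t}`. -/
noncomputable def ee (t : ℝ) : ℂ := Complex.exp (2 * Real.pi * Complex.I * t)

/-- Fourier coefficient. -/
noncomputable def coef (μ : Measure UnitAddCircle) (k : ℤ) : ℂ := ∫ x, (fourier k x : ℂ) ∂μ

/-! ## finite probability -/

variable {Ω ι : Type*} [Fintype Ω] [DecidableEq ι]

/-- `ω` and `ω'` lie in the same atom of `(X_s)_{s ∈ D}`. -/
def Same (X : ι → Ω → ℕ) (D : Finset ι) (ω ω' : Ω) : Prop := ∀ s ∈ D, X s ω = X s ω'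

open Classical in
/-- the mass of the `D`-atom of `ω`. -/
noncomputable def mass (p : Ω → ℝ) (X : ι → Ω → ℕ) (D : Finset ι) (ω : Ω) : ℝ :=
  ∑ ω' : Ω, if Same X D ω ω' then p ω' else 0

open Classical in
/-- the conditional expectation of `F` given `(X_s)_{s ∈ D}`. -/
noncomputable def cexp (p : Ω → ℝ) (X : ι → Ω → ℕ) (D : Finset ι) (F : Ω → ℂ) (ω : Ω) : ℂ :=
  (∑ ω' : Ω, if Same X D ω ω' then (p ω' : ℂ) * F ω' else 0) / (mass p X D ω : ℂ)

open Classical in
/-- the conditional probability, given `(X_s)_{s ∈ D}`, that two independent copies of `X_s`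
are different. -/
noncomputable def gini (p : Ω → ℝ) (X : ι → Ω → ℕ) (D : Finset ι) (s : ι) (ω : Ω) : ℝ :=
  (∑ ω' : Ω, ∑ ω'' : Ω,
    if Same X D ω ω' ∧ Same X D ω ω'' ∧ X s ω' ≠ X s ω'' then p ω' * p ω'' else 0) /
    mass p X D ω ^ 2

/-- the entropy of `(X_s)_{s ∈ D}`. -/
noncomputable def ent (p : Ω → ℝ) (X : ι → Ω → ℕ) (D : Finset ι) : ℝ :=
  -∑ ω : Ω, p ω * Real.log (mass p X D ω)

/-- the conditional entropy of `X_s` given `(X_t)_{t ∈ D}`. -/
noncomputable def inc (p : Ω → ℝ) (X : ι → Ω → ℕ) (s : ι) (D : Finset ι) : ℝ :=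
  ent p X (insert s D) - ent p X D

/-- the conditional total correlation of `(X_r)_{r ∈ R}` given `(X_s)_{s ∈ D}`. -/
noncomputable def tc (p : Ω → ℝ) (X : ι → Ω → ℕ) (D R : Finset ι) : ℝ :=
  ∑ r ∈ R, inc p X r D - (ent p X (D ∪ R) - ent p X D)

open Classical in
/-- the conditional probability, given `(X_s)_{s ∈ D}`, that two independent copies `ω', ω''`
have `X_r ω' ≠ X_r ω''` but `σ (t ω' - t ω'')` is within `δ₀` of an integer. -/
noncomputable def badp (p : Ω → ℝ) (X : ι → Ω → ℕ) (D : Finset ι) (r : ι) (t : Ω → ℝ) (σ : ℕ)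
    (δ₀ : ℝ) (ω : Ω) : ℝ :=
  (∑ ω' : Ω, ∑ ω'' : Ω,
    if (Same X D ω ω' ∧ Same X D ω ω'' ∧ X r ω' ≠ X r ω'') ∧
      ‖σ • ((t ω' - t ω'' : ℝ) : UnitAddCircle)‖ < δ₀ then p ω' * p ω'' else 0) /
    mass p X D ω ^ 2

end Furst96.Sps
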