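import Pool.Agent.H.MP_96e181_an.sps.Basics

/-! # Module Entropy: monotonicity and the trivial upper bound

PROOFS. `inc_nonneg`: `ent (insert s D) - ent D = ∑ p (log mass D - log mass (insert s D)) ≥ 0`
termwise (`mass_mono`, `Real.log_le_log`; terms with `p ω = 0` vanish, and `mass > 0` otherwise).

`inc_empty_le`: `ent ∅ = 0` (`ent_empty`) and `inc s ∅ = ∑ p (-log m)`, `m ω = mass {s} ω`.
With `log x ≤ x - 1` (`Real.log_le_sub_one_of_pos`): `-log m = log L + log (1/(L m)) ≤
log L + 1/(L m) - 1`.  And `∑_ω p ω / m ω ≤ L`: the sum over the `ω` with `X s ω = v` is `≤ 1` for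
each of the `L` values `v` (the mass `m` is constant `= m_v` there and `∑_{X s ω = v} p ω = m_v`).
So `∑ p (-log m) ≤ log L + (1/L) L - 1 = log L`. -/

set_option autoImplicit false

namespace Furst96.Sps

variable {Ω ι : Type*} [Fintype Ω] [DecidableEq ι]

theorem inc_nonneg (p : Ω → ℝ) (hp : ∀ ω, 0 ≤ p ω) (X : ι → Ω → ℕ) (s : ι) (D : Finset ι) :
    0 ≤ inc p X s D := by
  unfold inc ent
  have h : ∑ ω, p ω * Real.log (mass p X (insert s D) ω) ≤ ∑ ω, p ω * Real.log (mass p X D ω) := by
    refine Finset.sum_le_sum fun ω _ => ?_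
    rcases (hp ω).eq_or_lt with h0 | h0
    · rw [← h0, zero_mul, zero_mul]
    · exact mul_le_mul_of_nonneg_left
        (Real.log_le_log (mass_pos hp X _ h0) (mass_mono hp X (Finset.subset_insert s D) ω)) h0.le
  linarith

theorem inc_empty_le (p : Ω → ℝ) (hp : ∀ ω, 0 ≤ p ω) (hs : ∑ ω, p ω = 1) (X : ι → Ω → ℕ)
    (s : ι) (L : ℕ) (hL : ∀ ω, X s ω < L) : inc p X s ∅ ≤ Real.log L := by
  classical
  have hne : ∃ ω : Ω, 0 < p ω := by
    by_contra hcon
    push Not at hcon
    have h0 : ∑ ω, p ω ≤ 0 := Finset.sum_nonpos fun ω _ => hcon ω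
    linarith
  obtain ⟨ω₁, _⟩ := hne
  have hLN : 0 < L := lt_of_le_of_lt (Nat.zero_le _) (hL ω₁)
  have hL0 : (0 : ℝ) < L := by exact_mod_cast hLN
  have hsum : ∑ ω, p ω / mass p X (insert s ∅) ω ≤ L := by
    have hfib := Finset.sum_fiberwise_of_maps_to (s := (Finset.univ : Finset Ω))
      (t := Finset.range L) (g := fun ω => X s ω) (fun ω _ => Finset.mem_range.2 (hL ω))
      (fun ω => p ω / mass p X (insert s ∅) ω)
    rw [← hfib]
    calc ∑ v ∈ Finset.range L, ∑ ω ∈ Finset.univ.filter (fun ω => X s ω = v),
          p ω / mass p X (insert s ∅) ω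
        ≤ ∑ v ∈ Finset.range L, (1 : ℝ) := by
          refine Finset.sum_le_sum fun v _ => ?_
          by_cases hv : ∃ ω₀ : Ω, X s ω₀ = v
          · obtain ⟨ω₀, rfl⟩ := hv
            have h1 : ∀ ω ∈ Finset.univ.filter (fun ω => X s ω = X s ω₀),
                p ω / mass p X (insert s ∅) ω = p ω / mass p X (insert s ∅) ω₀ := by
              intro ω hω
              rw [Finset.mem_filter] at hω
              rw [mass_congr (ω := ω) (ω' := ω₀)
                (same_insert.2 ⟨hω.2, fun t ht => absurd ht (Finset.notMem_empty t)⟩)]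
            rw [Finset.sum_congr rfl h1, ← Finset.sum_div]
            have h2 : ∑ ω ∈ Finset.univ.filter (fun ω => X s ω = X s ω₀), p ω =
                mass p X (insert s ∅) ω₀ := by
              unfold mass
              rw [Finset.sum_filter]
              refine Finset.sum_congr rfl fun ω _ => ?_
              by_cases h : X s ω = X s ω₀
              · rw [if_pos h, if_pos]
                exact same_insert.2 ⟨h.symm, fun t ht => absurd ht (Finset.notMem_empty t)⟩
              · rw [if_neg h, if_neg]
                intro h'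
                exact h (same_insert.1 h').1.symm
            rw [h2]
            exact div_self_le_one _
          · have h1 : Finset.univ.filter (fun ω => X s ω = v) = ∅ := by
              rw [Finset.filter_eq_empty_iff]
              intro ω _ h
              exact hv ⟨ω, h⟩
            rw [h1, Finset.sum_empty]
            exact zero_le_one
      _ = L := by simp
  have hterm : ∀ ω, -(p ω * Real.log (mass p X (insert s ∅) ω)) ≤
      p ω * Real.log L + (p ω / mass p X (insert s ∅) ω) / L - p ω := by
    intro ω
    rcases (hp ω).eq_or_lt with h0 | h0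
    · rw [← h0]
      simp
    · have hm := mass_pos hp X (insert s ∅) h0
      have h1 := Real.log_le_sub_one_of_pos
        (div_pos one_pos (mul_pos hL0 hm))
      rw [Real.log_div one_ne_zero (mul_pos hL0 hm).ne', Real.log_one,
        Real.log_mul hL0.ne' hm.ne'] at h1
      have h2 : p ω * (-Real.log (mass p X (insert s ∅) ω)) ≤
          p ω * (Real.log L + 1 / (L * mass p X (insert s ∅) ω) - 1) :=
        mul_le_mul_of_nonneg_left (by linarith) h0.le
      have h3 : p ω * (1 / (L * mass p X (insert s ∅) ω)) =
          (p ω / mass p X (insert s ∅) ω) / L := by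
        field_simp
      calc -(p ω * Real.log (mass p X (insert s ∅) ω))
          = p ω * (-Real.log (mass p X (insert s ∅) ω)) := by ring
        _ ≤ p ω * (Real.log L + 1 / (L * mass p X (insert s ∅) ω) - 1) := h2
        _ = p ω * Real.log L + p ω * (1 / (L * mass p X (insert s ∅) ω)) - p ω := by ring
        _ = _ := by rw [h3]
  unfold inc
  rw [ent_empty hs, sub_zero]
  unfold ent
  rw [← Finset.sum_neg_distrib]
  calc ∑ ω, -(p ω * Real.log (mass p X (insert s ∅) ω))
      ≤ ∑ ω, (p ω * Real.log L + (p ω / mass p X (insert s ∅) ω) / L - p ω) :=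
        Finset.sum_le_sum fun ω _ => hterm ω
    _ = (∑ ω, p ω) * Real.log L + (∑ ω, p ω / mass p X (insert s ∅) ω) / L - ∑ ω, p ω := by
        rw [Finset.sum_sub_distrib, Finset.sum_add_distrib, ← Finset.sum_mul, ← Finset.sum_div]
    _ ≤ 1 * Real.log L + (L : ℝ) / L - 1 := by
        rw [hs]
        have := div_le_div_of_nonneg_right hsum hL0.le
        linarith
    _ = Real.log L := by
        rw [div_self hL0.ne']
        ring

end Furst96.Sps
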