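import Pool.Agent.H.MP_96e181_an.sps.CircleLib

/-! # Fourier uniqueness (copied from blk/Leb.lean) -/

set_option autoImplicit false

open MeasureTheory

namespace Furst96.Sps

instance : IsProbabilityMeasure (volume : Measure UnitAddCircle) :=
  ⟨by simp⟩

theorem integral_fourier_ne {k : ℤ} (hk : k ≠ 0) :
    ∫ x : UnitAddCircle, (fourier k x : ℂ) = 0 :=
  integral_eq_zero_of_add_right_eq_neg (fourier_add_half_inv_index hk one_pos)

theorem coef_zero {μ : Measure UnitAddCircle} [IsProbabilityMeasure μ] : coef μ 0 = 1 := by
  unfold coef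
  simp

/-- A measure all of whose nonzero Fourier coefficients vanish is Lebesgue. -/
theorem eq_volume_of_coef {μ : Measure UnitAddCircle} [IsProbabilityMeasure μ]
    (h : ∀ k : ℤ, k ≠ 0 → coef μ k = 0) : μ = (volume : Measure UnitAddCircle) := by
  -- integrals of continuous complex functions agree
  have hI : ∀ (ν : Measure UnitAddCircle) [IsProbabilityMeasure ν] (g : C(UnitAddCircle, ℂ)),
      Integrable (fun x => g x) ν := by
    intro ν _ g
    refine Integrable.of_bound (C := ‖g‖) g.continuous.aestronglyMeasurable ?_
    exact Filter.Eventually.of_forall fun x => g.norm_coe_le_norm x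
  have key : ∀ g : C(UnitAddCircle, ℂ), ∫ x, g x ∂μ = ∫ x, g x := by
    intro g
    have hg : g ∈ (Submodule.span ℂ (Set.range (@fourier (1 : ℝ)))).topologicalClosure := by
      rw [span_fourier_closure_eq_top]
      trivial
    have hcl : IsClosed {g : C(UnitAddCircle, ℂ) | ∫ x, g x ∂μ = ∫ x, g x} := by
      refine isClosed_eq ?_ ?_
      · exact (continuous_iff_continuousAt.2 fun g₀ => by
          rw [Metric.continuousAt_iff]
          intro ε hε
          refine ⟨ε, hε, fun {g} hg => ?_⟩
          rw [dist_eq_norm, ← integral_sub (hI μ g) (hI μ g₀)]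
          refine lt_of_le_of_lt (norm_integral_le_of_norm_le_const (C := ‖g - g₀‖)
            (Filter.Eventually.of_forall fun x => (g - g₀).norm_coe_le_norm x)) ?_
          simpa [dist_eq_norm] using hg)
      · exact (continuous_iff_continuousAt.2 fun g₀ => by
          rw [Metric.continuousAt_iff]
          intro ε hε
          refine ⟨ε, hε, fun {g} hg => ?_⟩
          rw [dist_eq_norm, ← integral_sub (hI volume g) (hI volume g₀)]
          refine lt_of_le_of_lt (norm_integral_le_of_norm_le_const (C := ‖g - g₀‖)
            (Filter.Eventually.of_forall fun x => (g - g₀).norm_coe_le_norm x)) ?_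
          simpa [dist_eq_norm] using hg)
    have hsub : (Submodule.span ℂ (Set.range (@fourier (1 : ℝ))) : Set C(UnitAddCircle, ℂ)) ⊆
        {g : C(UnitAddCircle, ℂ) | ∫ x, g x ∂μ = ∫ x, g x} := by
      intro g hg
      refine Submodule.span_induction ?_ ?_ ?_ ?_ hg
      · rintro _ ⟨k, rfl⟩
        by_cases hk : k = 0
        · subst hk
          show coef μ 0 = coef volume 0
          rw [coef_zero, coef_zero]
        · show coef μ k = _
          rw [h k hk, integral_fourier_ne hk]
      · simp
      · intro a b _ _ ha hb
        simp only [Set.mem_ofPred_eq, ContinuousMap.add_apply] at ha hb ⊢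
        rw [integral_add (hI μ a) (hI μ b), integral_add (hI volume a) (hI volume b), ha, hb]
      · intro c a _ ha
        simp only [Set.mem_ofPred_eq, ContinuousMap.smul_apply] at ha ⊢
        rw [integral_smul, integral_smul, ha]
    exact closure_minimal hsub hcl hg
  apply ext_of_forall_integral_eq_of_IsFiniteMeasure
  intro f
  let g : C(UnitAddCircle, ℂ) := ⟨fun x => (f x : ℂ), by fun_prop⟩
  have hg := key g
  have h1 : ∫ x, g x ∂μ = ((∫ x, f x ∂μ : ℝ) : ℂ) := integral_complex_ofReal
  have h2 : ∫ x, g x = ((∫ x, f x : ℝ) : ℂ) := integral_complex_ofReal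
  rw [h1, h2] at hg
  exact_mod_cast hg

end Furst96.Sps
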