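import Mathlib

/-! # Module Growth: elementary limits -/

set_option autoImplicit false

open Filter Topology

namespace Furst96.Sps

theorem growth1 (A : ℕ) (hA : 1 ≤ A) (ε : ℝ) (hε : 0 < ε) :
    ∀ᶠ w : ℕ in atTop, Real.exp (-((A * w ^ 4 : ℕ) / 8 : ℝ)) ≤ ε := by
  have h1 : Tendsto (fun w : ℕ => Real.exp (-((w : ℝ) / 8))) atTop (𝓝 0) := by
    refine Real.tendsto_exp_neg_atTop_nhds_zero.comp ?_
    exact tendsto_natCast_atTop_atTop.atTop_div_const (by norm_num)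
  filter_upwards [h1.eventually (eventually_le_nhds hε), eventually_ge_atTop 1] with w h2 hw
  refine le_trans (Real.exp_le_exp.2 ?_) h2
  have h3 : w ≤ A * w ^ 4 := by
    calc w = 1 * w ^ 1 := by ring
      _ ≤ A * w ^ 4 := Nat.mul_le_mul hA (Nat.pow_le_pow_right hw (by norm_num))
  have h4 : (w : ℝ) ≤ ((A * w ^ 4 : ℕ) : ℝ) := by exact_mod_cast h3
  linarith

theorem growth2 (A : ℕ) (ε : ℝ) (hε : 0 < ε) :
    ∀ᶠ w : ℕ in atTop, (48 * (A * w ^ 4 : ℕ) : ℝ) / (2 : ℝ) ^ (3 * w) ≤ ε := by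
  have h1 : Tendsto (fun w : ℕ => (w : ℝ) ^ 4 / (2 : ℝ) ^ w) atTop (𝓝 0) :=
    tendsto_pow_const_div_const_pow_of_one_lt 4 (by norm_num)
  have h2 : Tendsto (fun w : ℕ => 48 * A * ((w : ℝ) ^ 4 / (2 : ℝ) ^ w)) atTop (𝓝 0) := by
    simpa using h1.const_mul (48 * (A : ℝ))
  filter_upwards [h2.eventually (eventually_le_nhds hε)] with w h3
  refine le_trans ?_ h3
  push_cast
  rw [mul_div_assoc', ← mul_assoc]
  refine div_le_div_of_nonneg_left (by positivity) (by positivity) ?_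
  exact pow_le_pow_right₀ (by norm_num) (by omega)

theorem growth3 (A : ℕ) (hA : 1 ≤ A) (C : ℝ) :
    ∀ᶠ w : ℕ in atTop, C < (2 : ℝ) ^ (A * w ^ 4) := by
  have h1 : Tendsto (fun w : ℕ => (2 : ℝ) ^ w) atTop atTop :=
    tendsto_pow_atTop_atTop_of_one_lt (by norm_num)
  filter_upwards [h1.eventually (eventually_gt_atTop C), eventually_ge_atTop 1] with w h2 hw
  refine h2.trans_le (pow_le_pow_right₀ (by norm_num) ?_)
  calc w = 1 * w ^ 1 := by ring
    _ ≤ A * w ^ 4 := Nat.mul_le_mul hA (Nat.pow_le_pow_right hw (by norm_num))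

theorem growth4 (k : ℤ) : ∀ᶠ w : ℕ in atTop, |k| < 2 ^ w := by
  have h1 : Tendsto (fun w : ℕ => (2 : ℤ) ^ w) atTop atTop :=
    tendsto_pow_atTop_atTop_of_one_lt (by norm_num)
  exact h1.eventually (eventually_gt_atTop |k|)

theorem growth5 (B : ℕ) (hB : 1 ≤ B) (C : ℝ) (hC : 0 ≤ C) (ε : ℝ) (hε : 0 < ε) :
    ∀ᶠ w : ℕ in atTop, C * (2 : ℝ) ^ (16 * w) / (2 : ℝ) ^ (w * (B * w)) ≤ ε := by
  have h1 : Tendsto (fun w : ℕ => (2 : ℝ) ^ w) atTop atTop :=
    tendsto_pow_atTop_atTop_of_one_lt (by norm_num)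
  filter_upwards [h1.eventually (eventually_ge_atTop (C / ε)), eventually_ge_atTop 17] with w h2 hw
  rw [div_le_iff₀ (by positivity)]
  have h3 : C ≤ ε * 2 ^ w := by
    rw [div_le_iff₀ hε] at h2
    linarith
  calc C * (2 : ℝ) ^ (16 * w) ≤ ε * 2 ^ w * (2 : ℝ) ^ (16 * w) :=
        mul_le_mul_of_nonneg_right h3 (by positivity)
    _ = ε * (2 : ℝ) ^ (w + 16 * w) := by rw [pow_add]; ring
    _ ≤ ε * (2 : ℝ) ^ (w * (B * w)) := by
        refine mul_le_mul_of_nonneg_left (pow_le_pow_right₀ (by norm_num) ?_) hε.le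
        calc w + 16 * w = w * (1 * 17) := by ring
          _ ≤ w * (B * w) := Nat.mul_le_mul le_rfl (Nat.mul_le_mul hB hw)

/-- a power of two in a dyadic interval. -/
theorem exists_pow_two (m : ℕ) (hm : 1 ≤ m) : ∃ j : ℕ, m ≤ 2 ^ j ∧ 2 ^ j ≤ 2 * m := by
  refine ⟨Nat.clog 2 m, Nat.le_pow_clog (by norm_num) m, ?_⟩
  rcases Nat.lt_or_ge 1 m with h | h
  · have h1 := Nat.pow_pred_clog_lt_self (b := 2) (by norm_num) h
    have h2 : 1 ≤ Nat.clog 2 m := Nat.clog_pos (by norm_num) h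
    have h3 : 2 ^ Nat.clog 2 m = 2 * 2 ^ (Nat.clog 2 m).pred := by
      rw [← pow_succ', Nat.pred_eq_sub_one, Nat.sub_add_cancel h2]
    omega
  · have : m = 1 := le_antisymm h hm
    subst this
    simp

end Furst96.Sps
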