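import Pool.Agent.H.MP_96e181_an.sps.Heavy

/-! # Module LowMass: most points lie in cells of mass `< 2^{-G}`

PROOF. Choose `T' ⊆ T` with `T'.card = 2 * G` (`Finset.exists_subset_card_eq`, `2G ≤ 48G`).
Let `Sg` = image of `T'.powerset` under `A ↦ ∏ s ∈ A, s`.  This map is injective on
`T'.powerset` because the elements are primes (`Nat.primeFactors_prod`), so `Sg.card = 2^(2G)`
(`Finset.card_image_of_injOn`, `Finset.card_powerset`).  Each element of `Sg` is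
`≤ (2^(3w))^(2G) = 2^(6wG) ≤ 2^2^j =: U` (`Finset.prod_le_pow_card`, `hj1`), and `Inv μ σ`
(`Inv.prod`).  `N = ∏ s ∈ T, s ≥ (2^w)^(48G) = 2^(48wG) ≥ 2^(4*2^j)` (`Finset.pow_card_le_prod`,
`hj2`), so `1/N ≤ 1/2^(4*2^j)` and `Near U (1/N) ⊆ Near (2^2^j) (1/2^(4*2^j))` (`near_mono`).
Apply `heavy` with `t = 1/2^G`: `1/t = 2^G < δ 2^(2G)/2` is `hG`. -/

set_option autoImplicit false

open MeasureTheory

namespace Furst96.Sps

theorem low_mass (μ : Measure UnitAddCircle) [IsProbabilityMeasure μ] (P : Set ℕ)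
    (hP : ∀ p ∈ P, p.Prime) (hinv : ∀ p ∈ P, Inv μ p) (w G j : ℕ) (δ : ℝ) (hδ : 0 < δ)
    (T : Finset ℕ) (hTP : ∀ s ∈ T, s ∈ P) (hT : ∀ s ∈ T, 2 ^ w < s ∧ s ≤ 2 ^ (3 * w))
    (hcard : T.card = 48 * G) (hj1 : 6 * w * G ≤ 2 ^ j) (hj2 : 2 ^ j ≤ 12 * w * G)
    (hX : μ.real (Near (2 ^ 2 ^ j) (1 / (2 : ℝ) ^ (4 * 2 ^ j))) < δ / 2)
    (hG : 2 / δ < (2 : ℝ) ^ G) :
    ∑ i : Fin (∏ s ∈ T, s), (if 1 / (2 : ℝ) ^ G ≤ cm μ (∏ s ∈ T, s) i
      then cm μ (∏ s ∈ T, s) i else 0) ≤ δ := by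
  classical
  obtain ⟨T', hT'T, hT'card⟩ : ∃ T' ⊆ T, T'.card = 2 * G :=
    Finset.exists_subset_card_eq (by omega)
  have hprime : ∀ s ∈ T, s.Prime := fun s hs => hP s (hTP s hs)
  have hNpos : 0 < ∏ s ∈ T, s := Finset.prod_pos fun s hs => (hprime s hs).pos
  obtain ⟨Sg, hSg⟩ : ∃ Sg : Finset ℕ,
      Sg = T'.powerset.image (fun A : Finset ℕ => ∏ s ∈ A, s) := ⟨_, rfl⟩
  have hmem : ∀ σ ∈ Sg, ∃ A : Finset ℕ, A ⊆ T' ∧ ∏ s ∈ A, s = σ := by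
    intro σ hσ
    rw [hSg, Finset.mem_image] at hσ
    obtain ⟨A, hA, hAσ⟩ := hσ
    exact ⟨A, Finset.mem_powerset.1 hA, hAσ⟩
  have hSgcard : Sg.card = 2 ^ (2 * G) := by
    rw [hSg, Finset.card_image_of_injOn, Finset.card_powerset, hT'card]
    intro A hA B hB hAB
    have hA' : A ⊆ T' := Finset.mem_powerset.1 (Finset.mem_coe.1 hA)
    have hB' : B ⊆ T' := Finset.mem_powerset.1 (Finset.mem_coe.1 hB)
    have h1 := Nat.primeFactors_prod (s := A) fun p hp => hprime p (hT'T (hA' hp))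
    have h2 := Nat.primeFactors_prod (s := B) fun p hp => hprime p (hT'T (hB' hp))
    have h3 : (∏ p ∈ A, p) = ∏ p ∈ B, p := hAB
    rw [← h1, h3, h2]
  have hU : ∀ σ ∈ Sg, σ ≤ 2 ^ 2 ^ j := by
    intro σ hσ
    obtain ⟨A, hA, rfl⟩ := hmem σ hσ
    have h1 : ∏ s ∈ A, s ≤ (2 ^ (3 * w)) ^ A.card :=
      Finset.prod_le_pow_card A (fun s => s) _ fun s hs => (hT s (hT'T (hA hs))).2
    have h2 : A.card ≤ 2 * G := by
      rw [← hT'card]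
      exact Finset.card_le_card hA
    have h3 : 3 * w * A.card ≤ 2 ^ j := by
      have h4 : 3 * w * A.card ≤ 3 * w * (2 * G) := Nat.mul_le_mul_left _ h2
      have h5 : 3 * w * (2 * G) = 6 * w * G := by ring
      omega
    calc ∏ s ∈ A, s ≤ (2 ^ (3 * w)) ^ A.card := h1
      _ = 2 ^ (3 * w * A.card) := by rw [← pow_mul]
      _ ≤ 2 ^ 2 ^ j := Nat.pow_le_pow_right (by norm_num) h3
  have hinvS : ∀ σ ∈ Sg, Inv μ σ := by
    intro σ hσ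
    obtain ⟨A, hA, rfl⟩ := hmem σ hσ
    exact Inv.prod fun s hs => hinv s (hTP s (hT'T (hA hs)))
  have hNge : 2 ^ (4 * 2 ^ j) ≤ ∏ s ∈ T, s := by
    have h1 : (2 ^ w) ^ T.card ≤ ∏ s ∈ T, s :=
      Finset.pow_card_le_prod T (fun s => s) _ fun s hs => (hT s hs).1.le
    have h2 : 4 * 2 ^ j ≤ w * (48 * G) := by
      have h3 : w * (48 * G) = 4 * (12 * w * G) := by ring
      omega
    calc 2 ^ (4 * 2 ^ j) ≤ 2 ^ (w * (48 * G)) := Nat.pow_le_pow_right (by norm_num) h2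
      _ = (2 ^ w) ^ T.card := by rw [← pow_mul, hcard]
      _ ≤ _ := h1
  have hNr : 1 / (((∏ s ∈ T, s : ℕ)) : ℝ) ≤ 1 / (2 : ℝ) ^ (4 * 2 ^ j) := by
    refine one_div_le_one_div_of_le (by positivity) ?_
    exact_mod_cast hNge
  have hXs : μ.real (Near (2 ^ 2 ^ j) (1 / (((∏ s ∈ T, s : ℕ)) : ℝ))) < δ / 2 :=
    lt_of_le_of_lt (measureReal_mono (near_mono le_rfl hNr)) hX
  have h2G : (0 : ℝ) < (2 : ℝ) ^ G := by positivity
  refine heavy μ (∏ s ∈ T, s) (2 ^ 2 ^ j) hNpos Sg hU hinvS (1 / (2 : ℝ) ^ G) δ (by positivity)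
    hδ hXs ?_
  rw [one_div_one_div, hSgcard]
  push_cast
  have h6 : 2 < (2 : ℝ) ^ G * δ := by
    rwa [div_lt_iff₀ hδ] at hG
  have h7 : (2 : ℝ) ^ (2 * G) = (2 : ℝ) ^ G * (2 : ℝ) ^ G := by
    rw [two_mul, pow_add]
  rw [h7]
  nlinarith

end Furst96.Sps
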