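import Pool.Agent.H.MP_96e181_an.sps.Select

/-! # Module Numeric: the parameters of `select` -/

set_option autoImplicit false

namespace Furst96.Sps

theorem select_numeric (ε κ : ℝ) (hε0 : 0 < ε) (hε1 : ε ≤ 1) (hκ0 : 0 < κ) (hκ1 : κ ≤ 1) :
    ∃ A B : ℕ, 1 ≤ A ∧ 1 ≤ B ∧ ∀ w : ℕ, 1 ≤ w →
      Real.exp (-((A * w ^ 4 : ℕ) / 8 : ℝ)) ≤ ε →
      (48 * (A * w ^ 4 : ℕ) : ℝ) / (2 : ℝ) ^ (3 * w) ≤ ε →
      ∀ {Ω ι : Type} [Fintype Ω] [DecidableEq ι] (p : Ω → ℝ), (∀ ω, 0 ≤ p ω) → ∑ ω, p ω = 1 →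
        ∀ (X : ι → Ω → ℕ) (T : Finset ι), T.card = 48 * (A * w ^ 4) →
        (∀ s ∈ T, ∀ ω, X s ω < 2 ^ (3 * w)) →
        ∑ ω, (if Real.exp (-((A * w ^ 4 : ℕ) * Real.log 2)) ≤ mass p X T ω then p ω else 0) ≤ ε →
        ∃ D ⊆ T, ∃ R ⊆ T \ D, R.card = B * w ∧
          ∑ ω, p ω * Real.exp (-κ * ∑ r ∈ R, gini p X D r ω) ≤ 6 * ε ∧
          tc p X D R ≤ 2 * ε := by
  obtain ⟨B, hB⟩ := exists_nat_ge (max 1 (4608 * Real.log (1 / ε) / (κ * ε)))
  have hB1 : (1 : ℝ) ≤ B := (le_max_left _ _).trans hB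
  have hB2 : 4608 * Real.log (1 / ε) / (κ * ε) ≤ B := (le_max_right _ _).trans hB
  set c : ℝ := κ * ε * B / 4608 with hc
  have hc0 : 0 < c := by positivity
  have hc1 : Real.log (1 / ε) ≤ c := by
    rw [hc, le_div_iff₀ (by norm_num)]
    rw [div_le_iff₀ (by positivity)] at hB2
    linarith
  set D0 : ℝ := 20000 * B * (1 + c) / (ε ^ 3 * κ) with hD0
  have hε3 : 0 < ε ^ 3 := by positivity
  have hε31 : ε ^ 3 ≤ 1 := pow_le_one₀ hε0.le hε1
  have hD0B : 20000 * (B : ℝ) ≤ D0 := by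
    rw [hD0, le_div_iff₀ (by positivity)]
    have h1 : ε ^ 3 * κ ≤ 1 := mul_le_one₀ hε31 hκ0.le hκ1
    have h2 : 0 ≤ 20000 * (B : ℝ) := by linarith
    exact mul_le_mul_of_nonneg_left (h1.trans (by linarith)) h2
  obtain ⟨A, hA⟩ := exists_nat_ge (max 1 (6 * D0))
  have hA1 : (1 : ℝ) ≤ A := (le_max_left _ _).trans hA
  have hA2 : 6 * D0 ≤ A := (le_max_right _ _).trans hA
  refine ⟨A, B, by exact_mod_cast hA1, by exact_mod_cast hB1, ?_⟩
  intro w hw hw1 hw2 Ω ι _ _ p hp hs X T hT hL hG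
  have hwR : (1 : ℝ) ≤ w := by exact_mod_cast hw
  have hlog : Real.log ((2 ^ (3 * w) : ℕ) : ℝ) = 3 * w * Real.log 2 := by
    push_cast
    rw [Real.log_pow]
    push_cast
    ring
  have hl1 : Real.log 2 < 0.6931471808 := Real.log_two_lt_d9
  have hl2 : 0.6931471803 < Real.log 2 := Real.log_two_gt_d9
  have hlogle : Real.log ((2 ^ (3 * w) : ℕ) : ℝ) ≤ 2.08 * w := by
    rw [hlog]
    have h1 : 3 * (w : ℝ) * Real.log 2 ≤ 3 * (w : ℝ) * 0.6931471808 :=
      mul_le_mul_of_nonneg_left hl1.le (by linarith)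
    linarith
  have hlog0 : 0 ≤ Real.log ((2 ^ (3 * w) : ℕ) : ℝ) := by
    rw [hlog]
    positivity
  have hTc : (T.card : ℝ) = 48 * (A * (w : ℝ) ^ 4) := by
    rw [hT]
    push_cast
    ring
  have hw0 : (0 : ℝ) < w := by linarith
  have hA0 : (0 : ℝ) < A := by linarith
  have hB0 : (0 : ℝ) < B := by linarith
  have hw3 : (1 : ℝ) ≤ (w : ℝ) ^ 3 := one_le_pow₀ hwR
  have hw4 : (w : ℝ) ^ 3 ≤ (w : ℝ) ^ 4 := by
    rw [pow_succ (w : ℝ) 3]
    exact le_mul_of_one_le_right (by positivity) hwR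
  have hw43 : (w : ℝ) ^ 4 = (w : ℝ) ^ 3 * w := pow_succ (w : ℝ) 3
  have hww3 : (w : ℝ) ≤ (w : ℝ) ^ 3 := le_self_pow₀ hwR (by norm_num)
  -- the parameters
  set a : ℝ := A * (w : ℝ) ^ 3 / 24 with ha
  set lam : ℝ := ε ^ 3 * κ * A * (w : ℝ) ^ 2 / (192 * B * (1 + c)) with hlam
  have hcard0 : (0 : ℝ) < 48 * (A * (w : ℝ) ^ 4) := by positivity
  have hβ : κ * (ε * a) / (4 * T.card) = κ * ε / (4608 * w) := by
    rw [hTc, ha]
    field_simp
    ring
  have hρ : 2 * (1 / ε) * lam * (B * w : ℕ) / T.card = ε * (κ * ε / (4608 * w)) / (1 + c) := by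
    rw [hTc, hlam]
    push_cast
    field_simp
    ring
  have hβK : κ * ε / (4608 * w) * (B * w : ℕ) = c := by
    rw [hc]
    push_cast
    field_simp
  obtain ⟨D, hD, R, hR, hRc, h1, h2⟩ := select p hp hs X T (2 ^ (3 * w))
    (by
      calc 2 = 2 ^ 1 := rfl
        _ ≤ 2 ^ (3 * w) := Nat.pow_le_pow_right (by norm_num) (by omega)) hL
    ((A * w ^ 4 : ℕ) * Real.log 2) ((A * w ^ 4 : ℕ) / 8) ε a lam (D0 * (w : ℝ) ^ 3) κ (1 / ε)
    (B * w) hε0 (by rw [ha]; positivity) hG (by rw [hlam]; positivity)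
    (by
      -- hd
      have h3 : (T.card : ℝ) * Real.log ((2 ^ (3 * w) : ℕ) : ℝ) ≤ 48 * (A * (w : ℝ) ^ 4) * (2.08 * w) := by
        rw [hTc]
        exact mul_le_mul_of_nonneg_left hlogle hcard0.le
      refine h3.trans ?_
      have h4 : lam * (D0 * (w : ℝ) ^ 3) = 20000 / 192 * A * (w : ℝ) ^ 5 := by
        rw [hlam, hD0]
        field_simp
      rw [h4]
      have h5 : 48 * (A * (w : ℝ) ^ 4) * (2.08 * w) = 99.84 * (A * (w : ℝ) ^ 5) := by ring
      rw [h5, mul_assoc (20000 / 192 : ℝ)]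
      have h6 : 0 ≤ A * (w : ℝ) ^ 5 := by positivity
      exact mul_le_mul_of_nonneg_right (by norm_num) h6)
    (by
      -- hbud
      push_cast
      have e1 : a * (1 + 2 * Real.log ((2 ^ (3 * w) : ℕ) : ℝ)) ≤ A * (w : ℝ) ^ 3 / 24 * (5.16 * w) := by
        rw [ha]
        refine mul_le_mul_of_nonneg_left ?_ (by positivity)
        linarith
      have e2 : D0 * (w : ℝ) ^ 3 * Real.log ((2 ^ (3 * w) : ℕ) : ℝ) ≤ D0 * (w : ℝ) ^ 3 * (2.08 * w) :=
        mul_le_mul_of_nonneg_left hlogle (by positivity)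
      have e3 : D0 * (w : ℝ) ^ 3 * (2.08 * w) ≤ 2.08 / 6 * (A * (w : ℝ) ^ 4) := by
        have : D0 * (w : ℝ) ^ 3 * (2.08 * w) = 2.08 * (D0 * (w : ℝ) ^ 4) := by ring
        rw [this]
        have h7 : 0 ≤ (w : ℝ) ^ 4 := by positivity
        have h8 := mul_le_mul_of_nonneg_right hA2 h7
        linarith
      have e4 : A * (w : ℝ) ^ 3 / 24 * (5.16 * w) = 0.215 * (A * (w : ℝ) ^ 4) := by ring
      have e5 : 0 ≤ A * (w : ℝ) ^ 4 := by positivity
      have e6 := mul_le_mul_of_nonneg_left hl2.le e5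
      push_cast at e1 e2
      linarith)
    (by
      -- hK
      push_cast
      rw [ha]
      have h6 : 48 * (B : ℝ) ≤ ε * A := by
        have h7 : 120000 * (B : ℝ) * (1 + c) ≤ ε ^ 3 * κ * A := by
          have h8 : D0 * (ε ^ 3 * κ) = 20000 * B * (1 + c) := by
            rw [hD0]
            field_simp
          have h81 := mul_le_mul_of_nonneg_right hA2 (by positivity : 0 ≤ ε ^ 3 * κ)
          linarith
        have h9 : ε ^ 3 * κ * A ≤ ε * A := by
          have : ε ^ 3 * κ ≤ ε := by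
            have h10 : ε ^ 3 ≤ ε := by
              calc ε ^ 3 = ε * (ε * ε) := by ring
                _ ≤ ε * 1 := mul_le_mul_of_nonneg_left (mul_le_one₀ hε1 hε0.le hε1) hε0.le
                _ = ε := mul_one _
            exact (mul_le_of_le_one_right hε3.le hκ1).trans h10
          exact mul_le_mul_of_nonneg_right this hA0.le
        have h10 : 0 ≤ (B : ℝ) * c := by positivity
        linarith
      have h11 : (B : ℝ) * w ≤ B * (w : ℝ) ^ 3 := mul_le_mul_of_nonneg_left hww3 hB0.le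
      have h12 : 0 ≤ (w : ℝ) ^ 3 := by positivity
      have h13 := mul_le_mul_of_nonneg_right h6 h12
      linarith)
    (by
      -- hKd
      rw [hTc]
      push_cast
      have h13 : D0 * (w : ℝ) ^ 3 ≤ D0 * (w : ℝ) ^ 4 :=
        mul_le_mul_of_nonneg_left hw4 (by positivity)
      have h14 : (B : ℝ) * w ≤ B * (w : ℝ) ^ 4 :=
        mul_le_mul_of_nonneg_left (hww3.trans hw4) hB0.le
      have h15 : 0 ≤ (w : ℝ) ^ 4 := by positivity
      have h16 := mul_le_mul_of_nonneg_right hA2 h15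
      have h17 := mul_le_mul_of_nonneg_right hD0B h15
      have h18 : 0 ≤ (A : ℝ) * (w : ℝ) ^ 4 := by positivity
      linarith)
    (by
      rw [hT]
      have : 0 < A := by exact_mod_cast hA0
      positivity)
    (by
      -- hδa
      rw [hTc, ha]
      have h15 : 0 ≤ A * (w : ℝ) ^ 3 := by positivity
      have h16 : A * (w : ℝ) ^ 3 ≤ A * (w : ℝ) ^ 4 := mul_le_mul_of_nonneg_left hw4 hA0.le
      have h17 := mul_le_mul_of_nonneg_right hε1 h15
      linarith)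
    hκ0 hκ1 (by positivity)
  refine ⟨D, hD, R, hR, hRc, ?_, ?_⟩
  · refine h1.trans ?_
    rw [hβ, hρ]
    have h3 : (1 - κ * ε / (4608 * w)) ^ (B * w) ≤ ε := by
      have h4 : 1 - κ * ε / (4608 * w) ≤ Real.exp (-(κ * ε / (4608 * w))) := by
        have := Real.add_one_le_exp (-(κ * ε / (4608 * w)))
        linarith
      have h5 : 0 ≤ 1 - κ * ε / (4608 * w) := by
        have : κ * ε / (4608 * w) ≤ 1 := by
          rw [div_le_one (by positivity)]
          have h51 : κ * ε ≤ 1 := mul_le_one₀ hκ1 hε0.le hε1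
          linarith
        linarith
      refine (pow_le_pow_left₀ h5 h4 _).trans ?_
      rw [← Real.exp_nat_mul]
      have h6 : ((B * w : ℕ) : ℝ) * -(κ * ε / (4608 * w)) = -c := by
        rw [← hβK]
        ring
      rw [h6]
      have h7 : Real.exp (-c) ≤ Real.exp (-Real.log (1 / ε)) := Real.exp_le_exp.2 (by linarith)
      refine h7.trans (le_of_eq ?_)
      rw [Real.exp_neg, Real.exp_log (by positivity)]
      simp
    have h8 : ε * (κ * ε / (4608 * w)) / (1 + c) / (κ * ε / (4608 * w)) ≤ ε := by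
      have h9 : ε * (κ * ε / (4608 * w)) / (1 + c) / (κ * ε / (4608 * w)) = ε / (1 + c) := by
        field_simp
      rw [h9, div_le_iff₀ (by positivity)]
      have h91 := mul_pos hε0 hc0
      linarith
    have h10 : (T.card : ℝ) / ((2 ^ (3 * w) : ℕ) : ℝ) ≤ ε := by
      rw [hT]
      push_cast
      push_cast at hw2
      exact hw2
    have h11 : Real.exp (-((A * w ^ 4 : ℕ) / 8 : ℝ)) ≤ ε := hw1
    linarith
  · refine h2.trans ?_
    rw [hρ]
    have h3 : ((B * w : ℕ) : ℝ) * (ε * (κ * ε / (4608 * w)) / (1 + c)) = ε * c / (1 + c) := by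
      rw [← hβK]
      ring
    rw [h3]
    have h4 : ε * c / (1 + c) ≤ 1 := by
      rw [div_le_one (by positivity)]
      have h41 := mul_le_mul_of_nonneg_right hε1 hc0.le
      linarith
    rw [div_le_iff₀ (by positivity)]
    have h5 : 2 * ε * (1 / ε) = 2 := by field_simp
    rw [h5]
    linarith

end Furst96.Sps
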