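import Pool.Agent.H.MP_96e181_an.sps.PhiStep

/-! # Module Phi: a random product of primes of `P` makes every small angle macroscopic

PROOF. Two lemmas.

(L) Suppose `(J, σ)` is a finite nonempty family, `η ≥ 0`, `r > 0`, and
`#{a | ‖σ a • θ‖ < δ₀} ≤ η #J` for all `θ` with `r ≤ ‖θ‖`.  Let `S` be a nonempty finite set of
primes, `lo ≤ s ≤ hi` on `S`, `2 hi r < 1`.  Then the family `J × S`, `σ' (a, s) = σ a * s`
satisfies `#{(a, s) | ‖σ' (a,s) • θ‖ < δ₀} ≤ (η + 1/#S) #(J × S)` for all `θ` with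
`r / lo ≤ ‖θ‖`: `σ' (a,s) • θ = σ a • (s • θ)`.  For the `s` with `‖s • θ‖ ≥ r` there are at most
`η #J` bad `a`; there is at most one other `s` (`phi_step`), with at most `#J` bad `a`.
Total `≤ #S η #J + #J = (η + 1/#S) #J #S`.

(M) Induction on `d`.  `d = 0`: `J = Unit`, `σ = 1`, the count is `0` as
`‖1 • θ‖ ≥ 1/2^(4*2^j₀)`.  Step `d → d+1`, `i = j₀ + d`: apply (L) four times with
`S = win P (2^2^i)` (primes in `(2^2^i, 2^(2*2^i)]`: `lo = 2^2^i`, `hi = 2^(2*2^i)`) and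
`r = 1/2^(4*2^i)`, `1/2^(5*2^i)`, `1/2^(6*2^i)`, `1/2^(7*2^i)`; the final one is
`1/2^(8*2^i) = 1/2^(4*2^(i+1))`; `2 * 2^(2*2^i) / 2^(4*2^i) < 1` since `i ≥ 1`.
The bound for `σ`: strengthen the induction to `σ a * 2^(8*2^j₀) ≤ 2^(8*2^(j₀+d))`: four factors
`≤ 2^(2*2^i)` multiply `σ` by at most `2^(8*2^i)` and `8*2^i + 8*2^i = 8*2^(i+1)`.
The sum: `∑_{range (d+1)} = ∑_{range d} + 4/#S`. -/

set_option autoImplicit false

open MeasureTheory

namespace Furst96.Sps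

open Classical in
/-- the property which is improved step by step -/
def PhiG (P : Set ℕ) (δ r : ℝ) (B : ℕ) (η : ℝ) : Prop :=
  ∃ (J : Type) (_ : Fintype J) (_ : Nonempty J) (σ : J → ℕ),
    (∀ a, σ a ∈ Submonoid.closure P) ∧ (∀ a, σ a ≤ B) ∧
    ∀ θ : UnitAddCircle, r ≤ ‖θ‖ →
      ((Finset.univ.filter (fun a => ‖σ a • θ‖ < δ)).card : ℝ) ≤ η * Fintype.card J

open Classical in
theorem phi_L {P : Set ℕ} {δ r η : ℝ} {B : ℕ} (h : PhiG P δ r B η) (hη : 0 ≤ η) (hr : 0 < r)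
    (S : Finset ℕ) (hS : 0 < S.card) (hP : ∀ s ∈ S, s ∈ P) (hp : ∀ s ∈ S, s.Prime) (lo hi : ℕ)
    (hlo1 : 1 ≤ lo) (hlo : ∀ s ∈ S, lo ≤ s) (hhi : ∀ s ∈ S, s ≤ hi)
    (h2 : 2 * (hi : ℝ) * r < 1) : PhiG P δ (r / lo) (B * hi) (η + 1 / S.card) := by
  obtain ⟨J, _, _, σ, h3, h4, h5⟩ := h
  have hSne : Nonempty S := by
    obtain ⟨s, hs⟩ := Finset.card_pos.1 hS
    exact ⟨⟨s, hs⟩⟩
  refine ⟨J × S, inferInstance, inferInstance, fun a => σ a.1 * (a.2 : ℕ), ?_, ?_, ?_⟩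
  · intro a
    exact Submonoid.mul_mem _ (h3 a.1) (Submonoid.subset_closure (hP _ a.2.2))
  · intro a
    exact Nat.mul_le_mul (h4 a.1) (hhi _ a.2.2)
  · intro θ hθ
    have hJ : (0 : ℝ) ≤ Fintype.card J := Nat.cast_nonneg _
    have e1 : ((Finset.univ.filter (fun a : J × S => ‖(σ a.1 * (a.2 : ℕ)) • θ‖ < δ)).card : ℝ) =
        ∑ s : S, ((Finset.univ.filter (fun a : J => ‖σ a • ((s : ℕ) • θ)‖ < δ)).card : ℝ) := by
      simp only [Finset.card_filter]
      push_cast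
      rw [Fintype.sum_prod_type_right]
      simp only [mul_smul]
    have e2 : ∀ s : S, ((Finset.univ.filter (fun a : J => ‖σ a • ((s : ℕ) • θ)‖ < δ)).card : ℝ) ≤
        η * Fintype.card J + (if ‖(s : ℕ) • θ‖ < r then (Fintype.card J : ℝ) else 0) := by
      intro s
      by_cases hs : ‖(s : ℕ) • θ‖ < r
      · rw [if_pos hs]
        have h6 : ((Finset.univ.filter (fun a : J => ‖σ a • ((s : ℕ) • θ)‖ < δ)).card : ℝ) ≤
            Fintype.card J := by
          exact_mod_cast Finset.card_le_univ _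
        have h7 : 0 ≤ η * Fintype.card J := mul_nonneg hη hJ
        linarith
      · rw [if_neg hs]
        have := h5 ((s : ℕ) • θ) (not_lt.1 hs)
        linarith
    have e3 : ∑ s : S, (if ‖(s : ℕ) • θ‖ < r then (Fintype.card J : ℝ) else 0) ≤
        Fintype.card J := by
      rw [Finset.sum_coe_sort S (fun s => if ‖s • θ‖ < r then (Fintype.card J : ℝ) else 0),
        ← Finset.sum_filter, Finset.sum_const, nsmul_eq_mul]
      have h6 := phi_step θ r hr S hp lo hi hlo1 hlo hhi h2 hθ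
      have h7 : ((S.filter (fun s => ‖s • θ‖ < r)).card : ℝ) ≤ 1 := by exact_mod_cast h6
      nlinarith
    rw [e1]
    have hSc : (0 : ℝ) < S.card := by exact_mod_cast hS
    calc _ ≤ ∑ s : S, (η * Fintype.card J +
          (if ‖(s : ℕ) • θ‖ < r then (Fintype.card J : ℝ) else 0)) :=
          Finset.sum_le_sum fun s _ => e2 s
      _ = S.card * (η * Fintype.card J) +
          ∑ s : S, (if ‖(s : ℕ) • θ‖ < r then (Fintype.card J : ℝ) else 0) := by
          rw [Finset.sum_add_distrib, Finset.sum_const, nsmul_eq_mul, Finset.card_univ,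
            Fintype.card_coe]
      _ ≤ S.card * (η * Fintype.card J) + Fintype.card J := by linarith
      _ = (η + 1 / S.card) * Fintype.card (J × S) := by
          rw [Fintype.card_prod, Fintype.card_coe]
          push_cast
          field_simp

open Classical in
theorem phi_win {P : Set ℕ} (hP : ∀ p ∈ P, p.Prime) {δ η : ℝ} {B m : ℕ} (hm : 1 ≤ m)
    (hη : 0 ≤ η) (h : PhiG P δ (1 / 2 ^ (4 * m)) B η) (hS : 0 < (win P (2 ^ m)).card) :
    PhiG P δ (1 / 2 ^ (8 * m)) (B * 2 ^ (8 * m)) (η + 4 / (win P (2 ^ m)).card) := by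
  have hmem : ∀ s ∈ win P (2 ^ m), s ∈ P ∧ 2 ^ m ≤ s ∧ s ≤ 2 ^ (2 * m) := by
    intro s hs
    unfold win at hs
    rw [Finset.mem_filter, Finset.mem_Ioc] at hs
    refine ⟨hs.2, hs.1.1.le, hs.1.2.trans (le_of_eq ?_)⟩
    rw [← pow_mul, mul_comm]
  have hSc : (0 : ℝ) < (win P (2 ^ m)).card := by exact_mod_cast hS
  have hstep : ∀ (k : ℕ) (B' : ℕ) (η' : ℝ), 4 ≤ k → 0 ≤ η' → PhiG P δ (1 / 2 ^ (k * m)) B' η' →
      PhiG P δ (1 / 2 ^ ((k + 1) * m)) (B' * 2 ^ (2 * m)) (η' + 1 / (win P (2 ^ m)).card) := by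
    intro k B' η' hk hη' h'
    have h1 := phi_L h' hη' (by positivity) (win P (2 ^ m)) hS (fun s hs => (hmem s hs).1)
      (fun s hs => hP s (hmem s hs).1) (2 ^ m) (2 ^ (2 * m)) Nat.one_le_two_pow
      (fun s hs => (hmem s hs).2.1) (fun s hs => (hmem s hs).2.2) (by
        push_cast
        rw [mul_one_div, div_lt_one (by positivity), ← pow_succ']
        exact pow_lt_pow_right₀ (by norm_num) (by nlinarith))
    have e : (1 / 2 ^ (k * m) / ((2 ^ m : ℕ) : ℝ) : ℝ) = 1 / 2 ^ ((k + 1) * m) := by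
      push_cast
      rw [div_div, ← pow_add]
      congr 2
      ring
    rwa [e] at h1
  have s1 := hstep 4 B η (by norm_num) hη h
  have s2 := hstep 5 _ _ (by norm_num) (by positivity) s1
  have s3 := hstep 6 _ _ (by norm_num) (by positivity) s2
  have s4 := hstep 7 _ _ (by norm_num) (by positivity) s3
  have e1 : B * 2 ^ (2 * m) * 2 ^ (2 * m) * 2 ^ (2 * m) * 2 ^ (2 * m) = B * 2 ^ (8 * m) := by
    rw [mul_assoc, mul_assoc, mul_assoc, ← pow_add, ← pow_add, ← pow_add]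
    congr 2
    ring
  have e2 : η + 1 / ((win P (2 ^ m)).card : ℝ) + 1 / (win P (2 ^ m)).card +
      1 / (win P (2 ^ m)).card + 1 / (win P (2 ^ m)).card = η + 4 / (win P (2 ^ m)).card := by
    ring
  rw [e1, e2] at s4
  exact s4

open Classical in
theorem phi (P : Set ℕ) (hP : ∀ p ∈ P, p.Prime) (j₀ d : ℕ) (hj₀ : 1 ≤ j₀)
    (hpos : ∀ i, j₀ ≤ i → i < j₀ + d → 0 < (win P (2 ^ 2 ^ i)).card) :
    ∃ (J : Type) (_ : Fintype J) (_ : Nonempty J) (σ : J → ℕ),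
      (∀ a, σ a ∈ Submonoid.closure P) ∧ (∀ a, σ a ≤ 2 ^ (8 * 2 ^ (j₀ + d))) ∧
      ∀ θ : UnitAddCircle, 1 / (2 : ℝ) ^ (4 * 2 ^ (j₀ + d)) ≤ ‖θ‖ →
        ((Finset.univ.filter (fun a => ‖σ a • θ‖ < 1 / (2 : ℝ) ^ (4 * 2 ^ j₀))).card : ℝ) ≤
          (∑ i ∈ Finset.range d, 4 / ((win P (2 ^ 2 ^ (j₀ + i))).card : ℝ)) *
            Fintype.card J := by
  obtain ⟨J, i1, i2, σ, h1, h2, h3⟩ : PhiG P (1 / (2 : ℝ) ^ (4 * 2 ^ j₀))
      (1 / (2 : ℝ) ^ (4 * 2 ^ (j₀ + d))) (2 ^ (8 * 2 ^ (j₀ + d) - 8 * 2 ^ j₀))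
      (∑ i ∈ Finset.range d, 4 / ((win P (2 ^ 2 ^ (j₀ + i))).card : ℝ)) := by
    induction d with
    | zero =>
      refine ⟨Unit, inferInstance, inferInstance, fun _ => 1, ?_, ?_, ?_⟩
      · intro a
        exact Submonoid.one_mem _
      · intro a
        exact Nat.one_le_two_pow
      · intro θ hθ
        have h0 : (Finset.univ.filter (fun a : Unit => ‖(1 : ℕ) • θ‖ <
            1 / (2 : ℝ) ^ (4 * 2 ^ j₀))) = ∅ := by
          rw [Finset.filter_eq_empty_iff]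
          intro a _
          rw [one_smul, not_lt]
          exact hθ
        rw [h0]
        simp
    | succ d ih =>
      have h1 := phi_win hP (m := 2 ^ (j₀ + d)) Nat.one_le_two_pow (by positivity)
        (ih (fun i hi hi' => hpos i hi (by omega))) (hpos (j₀ + d) (by omega) (by omega))
      have e1 : 4 * 2 ^ (j₀ + (d + 1)) = 8 * 2 ^ (j₀ + d) := by
        rw [← add_assoc, pow_succ]; ring
      have e2 : 2 ^ (8 * 2 ^ (j₀ + (d + 1)) - 8 * 2 ^ j₀) =
          2 ^ (8 * 2 ^ (j₀ + d) - 8 * 2 ^ j₀) * 2 ^ (8 * 2 ^ (j₀ + d)) := by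
        rw [← pow_add]
        congr 1
        have h5 : 2 ^ j₀ ≤ 2 ^ (j₀ + d) := Nat.pow_le_pow_right (by norm_num) (by omega)
        have h6 : 2 ^ (j₀ + (d + 1)) = 2 * 2 ^ (j₀ + d) := by
          rw [← add_assoc, pow_succ]; ring
        omega
      rw [e1, e2, Finset.sum_range_succ]
      exact h1
  refine ⟨J, i1, i2, σ, h1, ?_, ?_⟩
  · intro a
    exact (h2 a).trans (Nat.pow_le_pow_right (by norm_num) (Nat.sub_le _ _))
  · intro θ hθ
    exact h3 θ hθ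

end Furst96.Sps
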