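import Pool.Agent.H.MP_96e181_an.sps.CircleLib

/-! # Module Window: from `(y, y²]` to `(2^w, 2^(3w)]` -/

set_option autoImplicit false

open Filter

namespace Furst96.Sps

theorem mem_win {P : Set ℕ} {y s : ℕ} : s ∈ win P y ↔ (y < s ∧ s ≤ y ^ 2) ∧ s ∈ P := by
  classical
  unfold win
  rw [Finset.mem_filter, Finset.mem_Ioc]

/-- the hypothesis on windows `(y, y²]` gives windows `(2^w, 2^(3w)]`. -/
theorem frequently_window (P : Set ℕ)
    (h2 : ∀ C : ℝ, ∃ᶠ y : ℕ in atTop, C * Real.log y ^ 4 ≤ ((win P y).card : ℝ)) (C : ℕ) :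
    ∃ᶠ w : ℕ in atTop, ∃ T : Finset ℕ, (∀ s ∈ T, s ∈ P ∧ 2 ^ w < s ∧ s ≤ 2 ^ (3 * w)) ∧
      T.card = C * w ^ 4 := by
  rw [frequently_atTop]
  intro w0
  have h3 := (h2 (5 * C)).and_eventually (eventually_ge_atTop (2 ^ (w0 + 2)))
  obtain ⟨y, hy1, hy2⟩ := h3.exists
  set w := Nat.log 2 y with hw
  have hy0 : y ≠ 0 := by
    have : 0 < 2 ^ (w0 + 2) := by positivity
    omega
  have hwy : 2 ^ w ≤ y := Nat.pow_log_le_self 2 hy0
  have hwy2 : y < 2 ^ (w + 1) := Nat.lt_pow_succ_log_self (by norm_num) y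
  have hw0 : w0 + 2 ≤ w := by
    rw [hw]
    exact (Nat.le_log_iff_pow_le (by norm_num) hy0).2 hy2
  refine ⟨w, by omega, ?_⟩
  have hlog : (w : ℝ) * Real.log 2 ≤ Real.log y := by
    have h4 : ((2 ^ w : ℕ) : ℝ) ≤ y := by exact_mod_cast hwy
    have h5 := Real.log_le_log (by positivity) h4
    push_cast at h5
    rwa [Real.log_pow] at h5
  have hl2 : 0.69 < Real.log 2 := by
    have := Real.log_two_gt_d9
    linarith
  have h6 : (0.69 * (w : ℝ)) ^ 4 ≤ Real.log y ^ 4 := by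
    refine pow_le_pow_left₀ (by positivity) ?_ 4
    have : (0 : ℝ) ≤ w := by positivity
    nlinarith
  have h7 : C * w ^ 4 ≤ (win P y).card := by
    have h8 : (C : ℝ) * (w : ℝ) ^ 4 ≤ ((win P y).card : ℝ) := by
      refine le_trans ?_ hy1
      have h9 : (0.69 * (w : ℝ)) ^ 4 = 0.22667121 * (w : ℝ) ^ 4 := by ring
      rw [h9] at h6
      have h10 : 0 ≤ (w : ℝ) ^ 4 := by positivity
      have h11 : (w : ℝ) ^ 4 ≤ 5 * Real.log y ^ 4 := by linarith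
      calc (C : ℝ) * (w : ℝ) ^ 4 ≤ C * (5 * Real.log y ^ 4) :=
            mul_le_mul_of_nonneg_left h11 (by positivity)
        _ = 5 * C * Real.log y ^ 4 := by ring
    exact_mod_cast h8
  obtain ⟨T, hT, hTc⟩ := Finset.exists_subset_card_eq h7
  refine ⟨T, fun s hs => ?_, hTc⟩
  have h12 := mem_win.1 (hT hs)
  refine ⟨h12.2, lt_of_le_of_lt hwy h12.1.1, h12.1.2.trans ?_⟩
  calc y ^ 2 ≤ (2 ^ (w + 1)) ^ 2 := Nat.pow_le_pow_left hwy2.le 2
    _ = 2 ^ ((w + 1) * 2) := by rw [← pow_mul]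
    _ ≤ 2 ^ (3 * w) := Nat.pow_le_pow_right (by norm_num) (by omega)

end Furst96.Sps
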