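import Pool.Agent.H.MP_96e181_an.sps.NearScales
import Pool.Agent.H.MP_96e181_an.sps.Phi
import Pool.Agent.H.MP_96e181_an.sps.LowMass
import Pool.Agent.H.MP_96e181_an.sps.MassFull
import Pool.Agent.H.MP_96e181_an.sps.Core
import Pool.Agent.H.MP_96e181_an.sps.Numeric
import Pool.Agent.H.MP_96e181_an.sps.FourierUnique
import Pool.Agent.H.MP_96e181_an.sps.Window
import Pool.Agent.H.MP_96e181_an.sps.Growth

/-! # Module Final: measures invariant under a sparse set of primes -/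

set_option autoImplicit false

open MeasureTheory Filter Topology

namespace Furst96.Sps

theorem coef_bound (P : Set ℕ) (hP : ∀ p ∈ P, p.Prime)
    (h0 : ∀ᶠ j : ℕ in atTop, 0 < (win P (2 ^ 2 ^ j)).card)
    (h1 : Summable fun j : ℕ => 1 / ((win P (2 ^ 2 ^ j)).card : ℝ))
    (h2 : ∀ C : ℝ, ∃ᶠ y : ℕ in atTop, C * Real.log y ^ 4 ≤ ((win P y).card : ℝ))
    (μ : Measure UnitAddCircle) [IsProbabilityMeasure μ] (hat : ∀ x, μ {x} = 0)
    (hinv : ∀ p ∈ P, Inv μ p) (k : ℤ) (hk : k ≠ 0) (ε : ℝ) (hε0 : 0 < ε) (hε1 : ε ≤ 1) :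
    ‖coef μ k‖ ≤ 9 * ε + 2 * Real.sqrt (2 * ε) := by
  classical
  -- the tail sums
  have htail : ∀ η : ℝ, 0 < η → ∃ j₀ : ℕ, 1 ≤ j₀ ∧ (∀ i, j₀ ≤ i → 0 < (win P (2 ^ 2 ^ i)).card) ∧
      ∀ j, j₀ ≤ j → ∑' i : ℕ, 4 / ((win P (2 ^ 2 ^ (j + i))).card : ℝ) < η := by
    intro η hη
    obtain ⟨j1, hj1⟩ := eventually_atTop.1 h0
    have hsum4 : Summable fun j : ℕ => 4 / ((win P (2 ^ 2 ^ j)).card : ℝ) := by
      exact (h1.mul_left 4).congr fun j => by ring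
    have h3 := tendsto_sum_nat_add fun j : ℕ => 4 / ((win P (2 ^ 2 ^ j)).card : ℝ)
    obtain ⟨j2, hj2⟩ := eventually_atTop.1 (h3.eventually (gt_mem_nhds hη))
    refine ⟨max 1 (max j1 j2), le_max_left _ _, fun i hi => hj1 i ?_, fun j hj => ?_⟩
    · exact (le_trans (le_max_left _ _) (le_max_right _ _)).trans hi
    · have h4 := hj2 j (((le_max_right _ _).trans (le_max_right _ _)).trans hj)
      have h5 : (fun i : ℕ => 4 / ((win P (2 ^ 2 ^ (j + i))).card : ℝ)) =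
          fun i : ℕ => 4 / ((win P (2 ^ 2 ^ (i + j))).card : ℝ) := by
        funext i
        rw [add_comm]
      rw [h5]
      exact h4
  have hsum4 : ∀ j : ℕ, Summable fun i : ℕ => 4 / ((win P (2 ^ 2 ^ (j + i))).card : ℝ) := by
    intro j
    have h3 : Summable fun j : ℕ => 4 / ((win P (2 ^ 2 ^ j)).card : ℝ) := by
      exact (h1.mul_left 4).congr fun j => by ring
    have h4 := (summable_nat_add_iff j).2 h3
    refine h4.congr fun i => ?_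
    rw [add_comm]
  obtain ⟨j₀, hj₀, hpos₀, htail₀⟩ := htail ε hε0
  set δ₀ : ℝ := 1 / (2 : ℝ) ^ (4 * 2 ^ j₀) with hδ₀
  have hδ₀0 : 0 < δ₀ := by positivity
  have hδ₀1 : δ₀ ≤ 1 / 2 := by
    rw [hδ₀]
    refine one_div_le_one_div_of_le (by norm_num) ?_
    calc (2 : ℝ) = 2 ^ 1 := (pow_one _).symm
      _ ≤ 2 ^ (4 * 2 ^ j₀) := pow_le_pow_right₀ (by norm_num) (by
        have : 0 < 2 ^ j₀ := by positivity
        omega)
  set κ : ℝ := 2 * δ₀ ^ 2 with hκ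
  have hκ0 : 0 < κ := by positivity
  have hκ1 : κ ≤ 1 := by nlinarith
  obtain ⟨A, B, hA, hB, hsel⟩ := select_numeric ε κ hε0 hε1 hκ0 hκ1
  obtain ⟨j1, hj1, hpos1, htail1⟩ := htail (ε / 2) (by positivity)
  -- choose w
  have hev : ∀ᶠ w : ℕ in atTop, 1 ≤ w ∧ 2 ^ j₀ ≤ w ∧ 2 ^ j1 ≤ w ∧
      Real.exp (-((A * w ^ 4 : ℕ) / 8 : ℝ)) ≤ ε ∧
      (48 * (A * w ^ 4 : ℕ) : ℝ) / (2 : ℝ) ^ (3 * w) ≤ ε ∧
      2 / ε < (2 : ℝ) ^ (A * w ^ 4) ∧ |k| < 2 ^ w ∧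
      (2 * Real.pi * |(k : ℝ)|) * (2 : ℝ) ^ (16 * w) / (2 : ℝ) ^ (w * (B * w)) ≤ ε := by
    filter_upwards [eventually_ge_atTop 1, eventually_ge_atTop (2 ^ j₀),
      eventually_ge_atTop (2 ^ j1), growth1 A hA ε hε0, growth2 A ε hε0, growth3 A hA (2 / ε),
      growth4 k, growth5 B hB (2 * Real.pi * |(k : ℝ)|) (by positivity) ε hε0]
      with w g1 g2 g3 g4 g5 g6 g7 g8
    exact ⟨g1, g2, g3, g4, g5, g6, g7, g8⟩
  obtain ⟨w, ⟨T, hT, hTc⟩, hw1, hwj₀, hwj1, g1, g2, g3, g4, g5⟩ :=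
    ((frequently_window P h2 (48 * A)).and_eventually hev).exists
  have hTc' : T.card = 48 * (A * w ^ 4) := by rw [hTc]; ring
  set G : ℕ := A * w ^ 4 with hGdef
  have hTP : ∀ s ∈ T, s ∈ P := fun s hs => (hT s hs).1
  have hTprime : ∀ s ∈ T, s.Prime := fun s hs => hP s (hTP s hs)
  have hG1 : 1 ≤ G := by
    rw [hGdef]
    exact Nat.mul_pos hA (by positivity)
  -- the scale j for low_mass
  obtain ⟨j, hja, hjb⟩ := exists_pow_two (6 * w * G) (by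
    have : 0 < w * G := Nat.mul_pos hw1 hG1
    nlinarith)
  have hjj1 : j1 ≤ j := by
    have h3 : 2 ^ j1 ≤ 2 ^ j := by
      refine le_trans ?_ hja
      calc 2 ^ j1 ≤ w := hwj1
        _ = w * 1 := (mul_one w).symm
        _ ≤ 6 * w * G := Nat.mul_le_mul (by omega) hG1
    exact (Nat.pow_le_pow_iff_right (by norm_num)).1 h3
  have hX : μ.real (Near (2 ^ 2 ^ j) (1 / (2 : ℝ) ^ (4 * 2 ^ j))) < ε / 2 :=
    lt_of_le_of_lt (near_scales μ hat P hP hinv j (hj1.trans hjj1)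
      (fun i hi => hpos1 i (hjj1.trans hi)) h1) (htail1 j hjj1)
  have hlow := low_mass μ P hP hinv w G j ε hε0 T hTP (fun s hs => (hT s hs).2) hTc'
    hja (by
      calc 2 ^ j ≤ 2 * (6 * w * G) := hjb
        _ = 12 * w * G := by ring) hX g3
  -- select
  set N : ℕ := ∏ s ∈ T, s with hN
  have hN0 : 0 < N := Finset.prod_pos fun s hs => (hTprime s hs).pos
  have hmass : ∀ i : Fin N, mass (cm μ N) (fun s i => res s i) T i = cm μ N i := fun i =>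
    mass_full T hTprime (cm μ N) i
  obtain ⟨D, hD, R, hR, hRc, hs1, hs2⟩ := hsel w hw1 g1 g2 (cm μ N) (cm_nonneg μ N)
    (sum_cm μ hN0) (fun s i => res s i) T hTc'
    (by
      intro s hs i
      exact lt_of_lt_of_le (Nat.mod_lt _ (hTprime s hs).pos) (hT s hs).2.2)
    (by
      refine le_trans (le_of_eq ?_) hlow
      refine Finset.sum_congr rfl fun i _ => ?_
      rw [hmass i]
      have h4 : Real.exp (-((G : ℝ) * Real.log 2)) = 1 / (2 : ℝ) ^ G := by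
        rw [Real.exp_neg, mul_comm, Real.exp_mul, Real.exp_log (by norm_num), Real.rpow_natCast,
          one_div]
      rw [h4])
  -- phi
  obtain ⟨j2, hj2a, hj2b⟩ := exists_pow_two w hw1
  have hj02 : j₀ ≤ j2 := by
    have h3 : 2 ^ j₀ ≤ 2 ^ j2 := hwj₀.trans hj2a
    exact (Nat.pow_le_pow_iff_right (by norm_num)).1 h3
  obtain ⟨d, hd⟩ := Nat.exists_eq_add_of_le hj02
  obtain ⟨J, hJ1, hJ2, σ, hσP, hσM, hσ⟩ := phi P hP j₀ d hj₀ (fun i hi _ => hpos₀ i hi)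
  rw [← hd] at hσM hσ
  have hη : ∑ i ∈ Finset.range d, 4 / ((win P (2 ^ 2 ^ (j₀ + i))).card : ℝ) ≤ ε := by
    refine le_trans ?_ (htail₀ j₀ le_rfl).le
    exact (hsum4 j₀).sum_le_tsum _ fun i _ => by positivity
  have hcore := core μ P hP hinv T hTP k
    (by
      intro s hs hdvd
      have h3 : (s : ℤ) ≤ |k| := by
        have := Int.le_of_dvd (abs_pos.2 hk) ((dvd_abs _ _).2 hdvd)
        exact this
      have h4 : (2 : ℤ) ^ w < s := by exact_mod_cast (hT s hs).2.1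
      linarith)
    D R hD hR σ hσP ((2 : ℝ) ^ (16 * w))
    (by
      intro a
      have h3 : σ a ≤ 2 ^ (16 * w) := (hσM a).trans
        (Nat.pow_le_pow_right (by norm_num) (by omega))
      exact_mod_cast h3)
    δ₀ ε hδ₀0.le hε0.le (2 ^ (3 * w)) (fun s hs => (hT s hs).2.2)
    (by
      intro θ hθ
      refine (hσ θ (le_trans ?_ hθ)).trans (mul_le_mul_of_nonneg_right hη (by positivity))
      push_cast
      refine one_div_le_one_div_of_le (by positivity) ?_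
      exact pow_le_pow_right₀ (by norm_num) (by omega))
  rw [← hN] at hcore
  -- the product Q is large
  have hQ : (2 : ℝ) ^ (w * (B * w)) ≤ ((∏ s ∈ D ∪ R, s : ℕ) : ℝ) := by
    have hRT : R ⊆ T := hR.trans Finset.sdiff_subset
    have h3 : (2 ^ w) ^ R.card ≤ ∏ s ∈ R, s :=
      Finset.pow_card_le_prod R (fun s => s) (2 ^ w) fun s hs => (hT s (hRT hs)).2.1.le
    have h4 : ∏ s ∈ R, s ≤ ∏ s ∈ D ∪ R, s := by
      refine Finset.prod_le_prod_of_subset_of_one_le' Finset.subset_union_right fun s hs _ => ?_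
      exact (hTprime s ((Finset.union_subset hD hRT) hs)).one_lt.le
    have h5 : 2 ^ (w * (B * w)) ≤ ∏ s ∈ D ∪ R, s := by
      rw [pow_mul, ← hRc]
      exact h3.trans h4
    exact_mod_cast h5
  have hfirst : 2 * Real.pi * |(k : ℝ)| * (2 : ℝ) ^ (16 * w) / ((∏ s ∈ D ∪ R, s : ℕ) : ℝ) ≤ ε := by
    refine le_trans ?_ g5
    exact div_le_div_of_nonneg_left (by positivity) (by positivity) hQ
  have hsqrt : Real.sqrt (tc (cm μ N) (fun s i => res s i) D R) ≤ Real.sqrt (2 * ε) :=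
    Real.sqrt_le_sqrt hs2
  rw [← hκ] at hcore
  linarith

theorem coef_zero_of_sparse (P : Set ℕ) (hP : ∀ p ∈ P, p.Prime)
    (h0 : ∀ᶠ j : ℕ in atTop, 0 < (win P (2 ^ 2 ^ j)).card)
    (h1 : Summable fun j : ℕ => 1 / ((win P (2 ^ 2 ^ j)).card : ℝ))
    (h2 : ∀ C : ℝ, ∃ᶠ y : ℕ in atTop, C * Real.log y ^ 4 ≤ ((win P y).card : ℝ))
    (μ : Measure UnitAddCircle) [IsProbabilityMeasure μ] (hat : ∀ x, μ {x} = 0)
    (hinv : ∀ p ∈ P, Inv μ p) (k : ℤ) (hk : k ≠ 0) : coef μ k = 0 := by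
  have h3 : ∀ᶠ ε : ℝ in 𝓝[>] 0, ‖coef μ k‖ ≤ 9 * ε + 2 * Real.sqrt (2 * ε) := by
    have h4 : ∀ᶠ ε : ℝ in 𝓝[>] 0, ε ≤ 1 := by
      have : ∀ᶠ ε : ℝ in 𝓝 0, ε ≤ 1 := eventually_le_nhds (by norm_num)
      exact this.filter_mono nhdsWithin_le_nhds
    filter_upwards [self_mem_nhdsWithin, h4] with ε h5 h6
    exact coef_bound P hP h0 h1 h2 μ hat hinv k hk ε h5 h6
  have h5 : Tendsto (fun ε : ℝ => 9 * ε + 2 * Real.sqrt (2 * ε)) (𝓝[>] 0) (𝓝 0) := by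
    have : Continuous fun ε : ℝ => 9 * ε + 2 * Real.sqrt (2 * ε) := by fun_prop
    have h6 := (this.tendsto 0).mono_left (nhdsWithin_le_nhds (s := Set.Ioi 0))
    simpa using h6
  have h6 : ‖coef μ k‖ ≤ 0 := ge_of_tendsto h5 h3
  exact norm_le_zero_iff.1 h6

theorem sparse_primes (P : Set ℕ) (hP : ∀ p ∈ P, p.Prime)
    (h0 : ∀ᶠ j : ℕ in atTop, 0 < (win P (2 ^ 2 ^ j)).card)
    (h1 : Summable fun j : ℕ => 1 / ((win P (2 ^ 2 ^ j)).card : ℝ))
    (h2 : ∀ C : ℝ, ∃ᶠ y : ℕ in atTop, C * Real.log y ^ 4 ≤ ((win P y).card : ℝ))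
    (μ : Measure UnitAddCircle) [IsProbabilityMeasure μ] (hat : ∀ x, μ {x} = 0)
    (hinv : ∀ p ∈ P, Inv μ p) : μ = volume :=
  eq_volume_of_coef fun k hk => coef_zero_of_sparse P hP h0 h1 h2 μ hat hinv k hk

end Furst96.Sps
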