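import Pool.Agent.H.MP_96e181_an.sps.OneStep

/-! # Module FourSteps: `OneStep` four times

PROOF. Apply `one_step` four times with `S = win P y`, `n = lo = y`, `hi = y ^ 2` and
`ρ = 1 / y^(4+i)`, `i = 0,1,2,3` (`ρ / lo = 1 / y^(5+i)`); the hypothesis is
`2 * y * y^2 / y^(4+i) ≤ 2 / y < 1` since `y ≥ 3`.  Elements of `win P y` are in `P`, `> y` and
`≤ y^2` (`Finset.mem_filter`, `Finset.mem_Ioc`).  Add the four inequalities. -/

set_option autoImplicit false

open MeasureTheory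

namespace Furst96.Sps

private theorem fourSteps_one (μ : Measure UnitAddCircle) [IsProbabilityMeasure μ] (P : Set ℕ)
    (hP : ∀ p ∈ P, p.Prime) (hinv : ∀ p ∈ P, Inv μ p) (y : ℕ) (hy : 3 ≤ y)
    (hpos : 0 < (win P y).card) (m : ℕ) (hm : 4 ≤ m) :
    μ.real (Near y (1 / (y : ℝ) ^ m)) ≤
      μ.real (Near y (1 / (y : ℝ) ^ (m + 1))) + 1 / ((win P y).card : ℝ) := by
  have hy0 : (0 : ℝ) < (y : ℝ) := by exact_mod_cast (by omega : 0 < y)
  have hy3 : (3 : ℝ) ≤ (y : ℝ) := by exact_mod_cast hy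
  have hmem : ∀ s ∈ win P y, s ∈ P ∧ y < s ∧ s ≤ y ^ 2 := by
    intro s hs
    simp only [win, Finset.mem_filter, Finset.mem_Ioc] at hs
    exact ⟨hs.2, hs.1.1, hs.1.2⟩
  have h := one_step μ (win P y) y y (y ^ 2) (by omega) (Finset.card_pos.1 hpos)
    (fun s hs => hP s (hmem s hs).1) (fun s hs => hinv s (hmem s hs).1)
    (fun s hs => (hmem s hs).2.1) (fun s hs => (hmem s hs).2.1.le)
    (fun s hs => (hmem s hs).2.2) (1 / (y : ℝ) ^ m) (by positivity) (by
      push_cast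
      have h1 : (y : ℝ) ^ m = (y : ℝ) ^ 4 * (y : ℝ) ^ (m - 4) := by
        rw [← pow_add]
        congr 1
        omega
      have h2 : (1 : ℝ) ≤ (y : ℝ) ^ (m - 4) := one_le_pow₀ (by linarith)
      rw [mul_one_div, div_lt_one (by positivity), h1]
      have h3 : (0 : ℝ) < (y : ℝ) ^ 3 := by positivity
      calc 2 * ((y : ℝ) * (y : ℝ) ^ 2) = 2 * (y : ℝ) ^ 3 := by ring
        _ < (y : ℝ) * (y : ℝ) ^ 3 := by
          apply mul_lt_mul_of_pos_right _ h3
          linarith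
        _ = (y : ℝ) ^ 4 * 1 := by ring
        _ ≤ (y : ℝ) ^ 4 * (y : ℝ) ^ (m - 4) := by
          apply mul_le_mul_of_nonneg_left h2
          positivity)
  have e : 1 / (y : ℝ) ^ m / (y : ℝ) = 1 / (y : ℝ) ^ (m + 1) := by
    rw [div_div, ← pow_succ]
  rwa [e] at h

theorem four_steps (μ : Measure UnitAddCircle) [IsProbabilityMeasure μ] (P : Set ℕ)
    (hP : ∀ p ∈ P, p.Prime) (hinv : ∀ p ∈ P, Inv μ p) (y : ℕ) (hy : 3 ≤ y)
    (hpos : 0 < (win P y).card) :
    μ.real (Near y (1 / (y : ℝ) ^ 4)) ≤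
      μ.real (Near y (1 / (y : ℝ) ^ 8)) + 4 / ((win P y).card : ℝ) := by
  have h4 := fourSteps_one μ P hP hinv y hy hpos 4 le_rfl
  have h5 := fourSteps_one μ P hP hinv y hy hpos 5 (by norm_num)
  have h6 := fourSteps_one μ P hP hinv y hy hpos 6 (by norm_num)
  have h7 := fourSteps_one μ P hP hinv y hy hpos 7 (by norm_num)
  have e : 4 / ((win P y).card : ℝ) = 1 / ((win P y).card : ℝ) + 1 / ((win P y).card : ℝ) +
      1 / ((win P y).card : ℝ) + 1 / ((win P y).card : ℝ) := by ring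
  rw [e]
  norm_num only at h4 h5 h6 h7 ⊢
  linarith

end Furst96.Sps
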