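import Mathlib

/-! # Module Greedy: choosing `R` (independent of all other modules)

PROOF. Write `n = T.card`, `U = T \ D`, `β = κ A / (4 n)`, `ρ = 2 μ₀ lam K / n`,
`E(R) = ∑ ω, p ω * b ω * exp(-κ ∑_{r ∈ R} g r ω)`.  (`n > 0`: from `hA`... if `T.card = 0` then
`U = ∅`, `K = 0` by `hn`-type bounds and the statement holds with `R = ∅`: `E ≤ 1 ≤ (1-β)^0`.)

Claim, by induction on `i ≤ K`: there is `R ⊆ U`, `#R = i`, with
`E(R) ≤ (1-β)^i + ρ/β (1 - (1-β)^i)` and `E(R) + μ₀ F(R) ≤ 1 + i ρ`.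
(`0 < β ≤ 1`; alternatively use `∑_{j<i} (1-β)^j` instead of `(1-(1-β)^i)/β`.)
`i = 0`: `R = ∅`, `E(∅) ≤ ∑ p = 1`, `F ∅ = 0`.
Step: `R`, `#R = i < K`.  Let `n' = #(U \ R) ≥ #U - K ≥ n/2 > 0` and `n' ≤ n`.  For `0 ≤ x ≤ 1`,
`exp(-κ x) ≤ 1 - κ x / 2` (`κ ≤ 1`; `exp(-y) ≤ 1 - y/2` for `0 ≤ y ≤ 1`, e.g. from
`exp(-y) ≤ 1/(1+y)` [`Real.add_one_le_exp`] and `1/(1+y) ≤ 1 - y/2`).  So
`∑_{s ∈ U \ R} E(R ∪ {s}) ≤ n' E(R) - (κ/2) ∑ p b exp(..) ∑_{s ∈ U \ R} g s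
 ≤ n' E(R) - (κ/2)(A - K) E(R) ≤ (n' - κ A/4) E(R)`, since where `b > 0`,
`∑_{s ∈ U \ R} g s ≥ A - #R ≥ A - K ≥ A/2`.  Also
`∑_{s ∈ U \ R} (F(R ∪ s) - F(R)) ≤ lam K`.
Averaging over `s ∈ U \ R` (`Finset.exists_le_of_sum_le`): there is `s` with
`E(R ∪ s) + μ₀ (F(R ∪ s) - F(R)) ≤ (1 - κA/(4n')) E(R) + μ₀ lam K / n' ≤ (1-β) E(R) + ρ`.
As `F(R ∪ s) ≥ F(R)`: `E(R ∪ s) ≤ (1-β) E(R) + ρ`, which gives the first bound; the second:
`E(R∪s) + μ₀ F(R∪s) ≤ (1-β)E(R) + ρ + μ₀ F(R) ≤ 1 + iρ + ρ`.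
At `i = K`: `E(R) ≤ (1-β)^K + ρ/β`, `μ₀ F(R) ≤ 1 + K ρ`.
Note `β ≤ 1`: `A ≤ #U ≤ n` if some `b ω > 0`, using `hA` and `g ≤ 1`; if `b = 0` everywhere then
`E = 0` and only the bound for `F` is needed: the argument is the same with the first inequality
trivial.  To avoid this case distinction `β ≤ 1` is given as hypothesis `hβ`. -/

set_option autoImplicit false

namespace Furst96.Sps

variable {Ω ι : Type*} [Fintype Ω] [DecidableEq ι]

private theorem greedy_exp {κ x : ℝ} (hκ0 : 0 < κ) (hκ1 : κ ≤ 1) (hx0 : 0 ≤ x) (hx1 : x ≤ 1) :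
    Real.exp (-κ * x) ≤ 1 - κ * x / 2 := by
  have hy0 : 0 ≤ κ * x := by positivity
  have hy1 : κ * x ≤ 1 := by nlinarith
  have h1 : Real.exp (-κ * x) = (Real.exp (κ * x))⁻¹ := by
    rw [← Real.exp_neg]
    congr 1
    ring
  have h2 := Real.add_one_le_exp (κ * x)
  rw [h1, inv_le_comm₀ (Real.exp_pos _) (by linarith)]
  refine le_trans ?_ h2
  rw [inv_le_iff_one_le_mul₀ (by linarith)]
  nlinarith

theorem greedy (p : Ω → ℝ) (hp : ∀ ω, 0 ≤ p ω) (hs : ∑ ω, p ω = 1) (T D : Finset ι)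
    (hDT : D ⊆ T) (K : ℕ) (g : ι → Ω → ℝ) (hg0 : ∀ s ω, 0 ≤ g s ω) (hg1 : ∀ s ω, g s ω ≤ 1)
    (b : Ω → ℝ) (hb0 : ∀ ω, 0 ≤ b ω) (hb1 : ∀ ω, b ω ≤ 1) (A : ℝ) (hA0 : 0 < A)
    (hA : ∀ ω, 0 < b ω → A ≤ ∑ s ∈ T \ D, g s ω) (hK : (K : ℝ) ≤ A / 2)
    (F : Finset ι → ℝ) (hF0 : F ∅ = 0)
    (hFm : ∀ R ⊆ T \ D, ∀ s ∈ (T \ D) \ R, F R ≤ F (insert s R)) (lam : ℝ) (hlam : 0 ≤ lam)
    (hFs : ∀ R ⊆ T \ D, R.card ≤ K → ∑ s ∈ (T \ D) \ R, (F (insert s R) - F R) ≤ lam * K)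
    (κ μ₀ : ℝ) (hκ0 : 0 < κ) (hκ1 : κ ≤ 1) (hμ₀ : 0 < μ₀) (hT : 0 < T.card)
    (hn : (T.card : ℝ) / 2 + K ≤ (T \ D).card) (hβ : κ * A / (4 * T.card) ≤ 1) :
    ∃ R ⊆ T \ D, R.card = K ∧
      ∑ ω, p ω * (b ω * Real.exp (-κ * ∑ r ∈ R, g r ω)) ≤
        (1 - κ * A / (4 * T.card)) ^ K + (2 * μ₀ * lam * K / T.card) / (κ * A / (4 * T.card)) ∧
      F R ≤ (1 + K * (2 * μ₀ * lam * K / T.card)) / μ₀ := by
  classical
  obtain ⟨n, hnn⟩ : ∃ n : ℝ, n = T.card := ⟨_, rfl⟩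
  have hn0 : 0 < n := by
    rw [hnn]
    exact_mod_cast hT
  obtain ⟨U, hU⟩ : ∃ U : Finset ι, U = T \ D := ⟨_, rfl⟩
  rw [← hU] at hA hFm hFs hn ⊢
  rw [← hnn] at hn hβ ⊢
  have hUn : (U.card : ℝ) ≤ n := by
    rw [hnn, hU]
    exact_mod_cast Finset.card_le_card Finset.sdiff_subset
  obtain ⟨β, hβd⟩ : ∃ β : ℝ, β = κ * A / (4 * n) := ⟨_, rfl⟩
  obtain ⟨ρ, hρd⟩ : ∃ ρ : ℝ, ρ = 2 * μ₀ * lam * K / n := ⟨_, rfl⟩
  rw [← hβd] at hβ ⊢
  rw [← hρd]
  have hβ0 : 0 < β := by rw [hβd]; positivity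
  have hρ0 : 0 ≤ ρ := by rw [hρd]; positivity
  let E : Finset ι → ℝ := fun R => ∑ ω, p ω * (b ω * Real.exp (-κ * ∑ r ∈ R, g r ω))
  have hE0 : ∀ R, 0 ≤ E R := fun R => Finset.sum_nonneg fun ω _ =>
    mul_nonneg (hp ω) (mul_nonneg (hb0 ω) (Real.exp_pos _).le)
  have hclaim : ∀ i : ℕ, i ≤ K → ∃ R ⊆ U, R.card = i ∧
      E R ≤ (1 - β) ^ i + ρ / β * (1 - (1 - β) ^ i) ∧ E R + μ₀ * F R ≤ 1 + i * ρ := by
    intro i
    induction i with
    | zero =>
      intro _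
      have hE1 : E ∅ ≤ 1 := by
        rw [← hs]
        refine Finset.sum_le_sum fun ω _ => ?_
        simp only [Finset.sum_empty, mul_zero, Real.exp_zero, mul_one]
        nlinarith [hp ω, hb1 ω, hb0 ω]
      refine ⟨∅, Finset.empty_subset _, Finset.card_empty, ?_, ?_⟩
      · simpa using hE1
      · rw [hF0]
        simpa using hE1
    | succ i ih =>
      intro hi
      obtain ⟨R, hRU, hRc, hR1, hR2⟩ := ih (by omega)
      have hVc : ((U \ R).card : ℝ) = U.card - i := by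
        rw [Finset.card_sdiff_of_subset hRU, Nat.cast_sub (Finset.card_le_card hRU), hRc]
      have hiK : (i : ℝ) ≤ K := by
        exact_mod_cast (by omega : i ≤ K)
      obtain ⟨m, hm⟩ : ∃ m : ℝ, m = (U \ R).card := ⟨_, rfl⟩
      rw [← hm] at hVc
      have hm1 : n / 2 ≤ m := by linarith
      have hm2 : m ≤ n := by
        have : (0 : ℝ) ≤ i := Nat.cast_nonneg i
        linarith
      have hm0 : 0 < m := by linarith
      have hVne : (U \ R).Nonempty := by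
        rw [← Finset.card_pos]
        have : (0 : ℝ) < (U \ R).card := by rw [← hm]; exact hm0
        exact_mod_cast this
      have hsum1 : ∑ s ∈ U \ R, E (insert s R) ≤ (m - κ * A / 4) * E R := by
        have h1 : ∀ s ∈ U \ R, E (insert s R) ≤
            ∑ ω, p ω * (b ω * Real.exp (-κ * ∑ r ∈ R, g r ω)) * (1 - κ * g s ω / 2) := by
          intro s hs'
          refine Finset.sum_le_sum fun ω _ => ?_
          have hsR : s ∉ R := (Finset.mem_sdiff.1 hs').2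
          rw [Finset.sum_insert hsR, mul_add, Real.exp_add]
          have h2 := greedy_exp hκ0 hκ1 (hg0 s ω) (hg1 s ω)
          have h3 : 0 ≤ p ω * (b ω * Real.exp (-κ * ∑ r ∈ R, g r ω)) :=
            mul_nonneg (hp ω) (mul_nonneg (hb0 ω) (Real.exp_pos _).le)
          calc p ω * (b ω * (Real.exp (-κ * g s ω) * Real.exp (-κ * ∑ r ∈ R, g r ω)))
              = p ω * (b ω * Real.exp (-κ * ∑ r ∈ R, g r ω)) * Real.exp (-κ * g s ω) := by ring
            _ ≤ _ := mul_le_mul_of_nonneg_left h2 h3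
        refine (Finset.sum_le_sum h1).trans ?_
        rw [Finset.sum_comm]
        change _ ≤ (m - κ * A / 4) * ∑ ω, p ω * (b ω * Real.exp (-κ * ∑ r ∈ R, g r ω))
        rw [Finset.mul_sum]
        refine Finset.sum_le_sum fun ω _ => ?_
        rw [← Finset.mul_sum, Finset.sum_sub_distrib, Finset.sum_const, nsmul_eq_mul, mul_one,
          ← hm, mul_comm (m - κ * A / 4)]
        have h4 : ∑ s ∈ U \ R, κ * g s ω / 2 = κ / 2 * ∑ s ∈ U \ R, g s ω := by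
          rw [Finset.mul_sum]
          exact Finset.sum_congr rfl fun s _ => by ring
        rw [h4]
        rcases eq_or_lt_of_le (hb0 ω) with hb | hb
        · rw [← hb]
          simp
        · have h3 : 0 ≤ p ω * (b ω * Real.exp (-κ * ∑ r ∈ R, g r ω)) :=
            mul_nonneg (hp ω) (mul_nonneg (hb0 ω) (Real.exp_pos _).le)
          apply mul_le_mul_of_nonneg_left _ h3
          have h5 := hA ω hb
          have h6 : ∑ s ∈ U \ R, g s ω + ∑ s ∈ R, g s ω = ∑ s ∈ U, g s ω :=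
            Finset.sum_sdiff hRU
          have h7 : ∑ s ∈ R, g s ω ≤ i := by
            calc ∑ s ∈ R, g s ω ≤ ∑ s ∈ R, (1 : ℝ) := Finset.sum_le_sum fun s _ => hg1 s ω
              _ = i := by rw [Finset.sum_const, nsmul_eq_mul, mul_one, hRc]
          have h8 : A / 2 ≤ ∑ s ∈ U \ R, g s ω := by linarith
          nlinarith
      have hsum2 := hFs R hRU (by omega)
      have hsum : ∑ s ∈ U \ R, (E (insert s R) + μ₀ * (F (insert s R) - F R)) ≤
          ∑ s ∈ U \ R, ((1 - κ * A / (4 * m)) * E R + μ₀ * lam * K / m) := by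
        rw [Finset.sum_add_distrib, ← Finset.mul_sum, Finset.sum_const, nsmul_eq_mul, ← hm]
        have h1 : m * ((1 - κ * A / (4 * m)) * E R + μ₀ * lam * K / m) =
            (m - κ * A / 4) * E R + μ₀ * (lam * K) := by
          field_simp
        rw [h1]
        exact add_le_add hsum1 (mul_le_mul_of_nonneg_left hsum2 hμ₀.le)
      obtain ⟨s, hs', hs1⟩ := Finset.exists_le_of_sum_le hVne hsum
      have hsU := (Finset.mem_sdiff.1 hs').1
      have hsR := (Finset.mem_sdiff.1 hs').2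
      have h1 : (1 - κ * A / (4 * m)) * E R ≤ (1 - β) * E R := by
        apply mul_le_mul_of_nonneg_right _ (hE0 R)
        have : β ≤ κ * A / (4 * m) := by
          rw [hβd]
          apply div_le_div_of_nonneg_left (by positivity) (by positivity)
          linarith
        linarith
      have h2 : μ₀ * lam * K / m ≤ ρ := by
        rw [hρd, div_le_div_iff₀ hm0 hn0]
        have : 0 ≤ μ₀ * lam * K := by positivity
        nlinarith
      have h3 := hFm R hRU s hs'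
      have h4 : E (insert s R) + μ₀ * (F (insert s R) - F R) ≤ (1 - β) * E R + ρ := by linarith
      have h5 : 0 ≤ μ₀ * (F (insert s R) - F R) := mul_nonneg hμ₀.le (by linarith)
      refine ⟨insert s R, Finset.insert_subset hsU hRU, ?_, ?_, ?_⟩
      · rw [Finset.card_insert_of_notMem hsR, hRc]
      · have h6 : (1 - β) * E R ≤ (1 - β) * ((1 - β) ^ i + ρ / β * (1 - (1 - β) ^ i)) :=
          mul_le_mul_of_nonneg_left hR1 (by linarith)
        have h7 : (1 - β) * ((1 - β) ^ i + ρ / β * (1 - (1 - β) ^ i)) + ρ =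
            (1 - β) ^ (i + 1) + ρ / β * (1 - (1 - β) ^ (i + 1)) := by
          rw [pow_succ]
          field_simp
          ring
        linarith
      · have h6 : 0 ≤ β * E R := mul_nonneg hβ0.le (hE0 R)
        push_cast
        nlinarith
  obtain ⟨R, hRU, hRc, hR1, hR2⟩ := hclaim K le_rfl
  refine ⟨R, hRU, hRc, ?_, ?_⟩
  · have h1 : 0 ≤ ρ / β * (1 - β) ^ K := by
      have : 0 ≤ 1 - β := by linarith
      positivity
    have h2 : E R ≤ (1 - β) ^ K + ρ / β := by linarith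
    exact h2
  · rw [le_div_iff₀ hμ₀]
    have := hE0 R
    linarith

end Furst96.Sps
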