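import Pool.Agent.H.MP_96e181_an.sps.CellLib

/-! # Module Heavy: heavy cells carry little mass

PROOF. Let `H = {i : Fin N | t ≤ cm μ N i}`; `#H * t ≤ ∑ cm = 1`, so `#H ≤ 1/t` (`sum_cm`).
Let `A = {x | idx N x ∈ H}` (measurable; `H` mapped to `ℕ`), `θ = μ.real A = ∑_{i ∈ H} cm μ N i`,
which is the left side.  Suppose `θ > δ`.  For `σ ∈ Sg`: `μ.real {x | σ • x ∈ A} = θ`
(`Inv.real_preimage`).  Let `f(x) = #{σ ∈ Sg | σ • x ∈ A}`; then `∫ f = θ #Sg`, `0 ≤ f ≤ #Sg`.
Every `x` with `f(x) > #H` lies in `Near U (1/N)`: by the pigeonhole principle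
(`Finset.exists_ne_map_eq_of_card_lt_of_maps_to`) there are `σ < σ'` in `Sg` with
`idx N (σ • x) = idx N (σ' • x)`, so `‖(σ' - σ) • x‖ = ‖σ' • x - σ • x‖ < 1/N`
(`norm_sub_lt_of_idx_eq`, `sub_nsmul`/`Nat.sub` with `σ ≤ σ'`), and `1 ≤ σ' - σ ≤ U`.
So `f ≤ #Sg 1_{Near} + #H` pointwise, and `θ #Sg ≤ #Sg μ(Near) + #H < #Sg δ/2 + #Sg δ/2 = #Sg δ`
because `#H ≤ 1/t < δ #Sg / 2`.  So `θ < δ`, contradiction. -/

set_option autoImplicit false

open MeasureTheory

namespace Furst96.Sps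

private theorem heavy_real (μ : Measure UnitAddCircle) [IsProbabilityMeasure μ] (N : ℕ)
    (H : Finset (Fin N)) :
    μ.real {x | ∃ i ∈ H, idx N x = (i : ℕ)} = ∑ i ∈ H, cm μ N i := by
  have h1 : {x : UnitAddCircle | ∃ i ∈ H, idx N x = (i : ℕ)} = ⋃ i ∈ H, cell N (i : ℕ) := by
    ext x
    simp only [Set.mem_ofPred_eq, Set.mem_iUnion, cell, exists_prop]
  rw [h1, measureReal_biUnion_finset]
  · rfl
  · intro i _ j _ hij
    rw [Function.onFun, Set.disjoint_left]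
    intro x hx hx'
    have h2 : idx N x = (i : ℕ) := hx
    have h3 : idx N x = (j : ℕ) := hx'
    exact hij (Fin.ext (h2.symm.trans h3))
  · intro i _
    exact measurableSet_cell N i

private theorem heavy_point (N U : ℕ) (hN : 0 < N) (Sg : Finset ℕ) (hU : ∀ σ ∈ Sg, σ ≤ U)
    (H : Finset (Fin N)) (x : UnitAddCircle) (hx : x ∉ Near U (1 / (N : ℝ))) :
    (Sg.filter fun σ => ∃ i ∈ H, idx N (σ • x) = (i : ℕ)).card ≤ H.card := by
  classical
  by_contra hcon
  rw [not_le] at hcon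
  have hmaps : ∀ σ ∈ Sg.filter fun σ => ∃ i ∈ H, idx N (σ • x) = (i : ℕ),
      (⟨idx N (σ • x), idx_lt hN _⟩ : Fin N) ∈ H := by
    intro σ hσ
    rw [Finset.mem_filter] at hσ
    obtain ⟨-, i, hi, hi'⟩ := hσ
    have h1 : (⟨idx N (σ • x), idx_lt hN _⟩ : Fin N) = i := Fin.ext hi'
    rw [h1]
    exact hi
  obtain ⟨σ, hσ, σ', hσ', hne, heq⟩ := Finset.exists_ne_map_eq_of_card_lt_of_maps_to
    (f := fun σ => (⟨idx N (σ • x), idx_lt hN _⟩ : Fin N)) hcon hmaps
  have heq' : idx N (σ • x) = idx N (σ' • x) := congrArg Fin.val heq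
  have key : ∀ a b : ℕ, a ∈ Sg → b ∈ Sg → a < b → idx N (b • x) = idx N (a • x) → False := by
    intro a b ha hb hab hidx
    refine hx ⟨b - a, by omega, (Nat.sub_le b a).trans (hU b hb), ?_⟩
    have h1 : (b - a) • x = b • x - a • x := by
      rw [sub_nsmul x hab.le, sub_eq_add_neg]
    rw [h1]
    exact (norm_sub_lt_of_idx_eq hN hidx).le
  have hσS := (Finset.mem_filter.1 hσ).1
  have hσS' := (Finset.mem_filter.1 hσ').1
  rcases lt_or_gt_of_ne hne with h | h
  · exact key σ σ' hσS hσS' h heq'.symm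
  · exact key σ' σ hσS' hσS h heq'

theorem heavy (μ : Measure UnitAddCircle) [IsProbabilityMeasure μ] (N U : ℕ) (hN : 0 < N)
    (Sg : Finset ℕ) (hU : ∀ σ ∈ Sg, σ ≤ U) (hinv : ∀ σ ∈ Sg, Inv μ σ) (t δ : ℝ) (ht : 0 < t)
    (hδ : 0 < δ) (hX : μ.real (Near U (1 / (N : ℝ))) < δ / 2)
    (hcard : 1 / t < δ * (Sg.card : ℝ) / 2) :
    ∑ i : Fin N, (if t ≤ cm μ N i then cm μ N i else 0) ≤ δ := by
  classical
  set H : Finset (Fin N) := Finset.univ.filter fun i => t ≤ cm μ N i with hH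
  set A : Set UnitAddCircle := {x | ∃ i ∈ H, idx N x = (i : ℕ)} with hA
  have hsum : ∑ i : Fin N, (if t ≤ cm μ N i then cm μ N i else 0) = ∑ i ∈ H, cm μ N i := by
    rw [hH, Finset.sum_filter]
  have hAr : μ.real A = ∑ i ∈ H, cm μ N i := heavy_real μ N H
  have hAm : MeasurableSet A := by
    have h1 : A = ⋃ i ∈ H, cell N (i : ℕ) := by
      ext x
      simp only [hA, Set.mem_ofPred_eq, Set.mem_iUnion, cell, exists_prop]
    rw [h1]
    exact Finset.measurableSet_biUnion _ fun i _ => measurableSet_cell N i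
  have hHc : (H.card : ℝ) ≤ 1 / t := by
    rw [le_div_iff₀ ht]
    calc (H.card : ℝ) * t = ∑ _i ∈ H, t := by rw [Finset.sum_const, nsmul_eq_mul]
      _ ≤ ∑ i ∈ H, cm μ N i := Finset.sum_le_sum fun i hi => (Finset.mem_filter.1 hi).2
      _ ≤ ∑ i : Fin N, cm μ N i :=
        Finset.sum_le_sum_of_subset_of_nonneg (Finset.subset_univ _)
          fun i _ _ => cm_nonneg μ N i
      _ = 1 := sum_cm μ hN
  rw [hsum, ← hAr]
  by_contra hcon
  rw [not_le] at hcon
  have hSpos : (0 : ℝ) < Sg.card := by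
    have h1 : 0 < 1 / t := by positivity
    have h2 : 0 < δ * (Sg.card : ℝ) / 2 := h1.trans hcard
    by_contra h3
    have h4 : (Sg.card : ℝ) = 0 := le_antisymm (not_lt.1 h3) (Nat.cast_nonneg _)
    rw [h4] at h2
    simp at h2
  have hpm : ∀ σ ∈ Sg, MeasurableSet ((fun x : UnitAddCircle => σ • x) ⁻¹' A) := fun σ _ =>
    (continuous_nsmul_circle σ).measurable hAm
  have hint : ∀ σ ∈ Sg, Integrable
      (((fun x : UnitAddCircle => σ • x) ⁻¹' A).indicator fun _ => (1 : ℝ)) μ := fun σ hσ =>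
    (integrable_const 1).indicator (hpm σ hσ)
  have hI1 : ∫ x, (∑ σ ∈ Sg,
      ((fun x : UnitAddCircle => σ • x) ⁻¹' A).indicator (fun _ => (1 : ℝ)) x) ∂μ =
      (Sg.card : ℝ) * μ.real A := by
    rw [integral_finsetSum _ hint]
    have h1 : ∀ σ ∈ Sg, ∫ x, ((fun x : UnitAddCircle => σ • x) ⁻¹' A).indicator
        (fun _ => (1 : ℝ)) x ∂μ = μ.real A := by
      intro σ hσ
      rw [integral_indicator_const _ (hpm σ hσ), smul_eq_mul, mul_one]
      exact (hinv σ hσ).real_preimage hAm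
    rw [Finset.sum_congr rfl h1, Finset.sum_const, nsmul_eq_mul]
  have hNm : MeasurableSet (Near U (1 / (N : ℝ))) := measurableSet_near _ _
  have hI2 : ∫ x, ((Sg.card : ℝ) * (Near U (1 / (N : ℝ))).indicator (fun _ => (1 : ℝ)) x +
      (H.card : ℝ)) ∂μ = (Sg.card : ℝ) * μ.real (Near U (1 / (N : ℝ))) + H.card := by
    rw [integral_add (((integrable_const 1).indicator hNm).const_mul _) (integrable_const _),
      integral_const_mul, integral_indicator_const _ hNm, smul_eq_mul, mul_one, integral_const]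
    simp
  have hmono : ∫ x, (∑ σ ∈ Sg,
      ((fun x : UnitAddCircle => σ • x) ⁻¹' A).indicator (fun _ => (1 : ℝ)) x) ∂μ ≤
      ∫ x, ((Sg.card : ℝ) * (Near U (1 / (N : ℝ))).indicator (fun _ => (1 : ℝ)) x +
      (H.card : ℝ)) ∂μ := by
    refine integral_mono (integrable_finsetSum _ hint)
      ((((integrable_const 1).indicator hNm).const_mul _).add (integrable_const _)) fun x => ?_
    change (∑ σ ∈ Sg, ((fun x : UnitAddCircle => σ • x) ⁻¹' A).indicator (fun _ => (1 : ℝ)) x) ≤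
      (Sg.card : ℝ) * (Near U (1 / (N : ℝ))).indicator (fun _ => (1 : ℝ)) x + (H.card : ℝ)
    have hcardsum : (∑ σ ∈ Sg, ((fun x : UnitAddCircle => σ • x) ⁻¹' A).indicator
        (fun _ => (1 : ℝ)) x) =
        ((Sg.filter fun σ => ∃ i ∈ H, idx N (σ • x) = (i : ℕ)).card : ℝ) := by
      rw [Finset.card_filter, Nat.cast_sum]
      refine Finset.sum_congr rfl fun σ _ => ?_
      by_cases hc : ∃ i ∈ H, idx N (σ • x) = (i : ℕ)
      · rw [if_pos hc, Set.indicator_of_mem (show x ∈ (fun x : UnitAddCircle => σ • x) ⁻¹' A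
          from hc), Nat.cast_one]
      · rw [if_neg hc, Set.indicator_of_notMem (show x ∉ (fun x : UnitAddCircle => σ • x) ⁻¹' A
          from hc), Nat.cast_zero]
    rw [hcardsum]
    by_cases hxN : x ∈ Near U (1 / (N : ℝ))
    · rw [Set.indicator_of_mem hxN, mul_one]
      have h1 : ((Sg.filter fun σ => ∃ i ∈ H, idx N (σ • x) = (i : ℕ)).card : ℝ) ≤ Sg.card := by
        exact_mod_cast Finset.card_filter_le _ _
      have h2 : (0 : ℝ) ≤ H.card := Nat.cast_nonneg _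
      linarith
    · rw [Set.indicator_of_notMem hxN, mul_zero, zero_add]
      exact_mod_cast heavy_point N U hN Sg hU H x hxN
  rw [hI1, hI2] at hmono
  have h1 : (Sg.card : ℝ) * δ < (Sg.card : ℝ) * μ.real A := mul_lt_mul_of_pos_left hcon hSpos
  have h2 : (Sg.card : ℝ) * μ.real (Near U (1 / (N : ℝ))) < (Sg.card : ℝ) * (δ / 2) :=
    mul_lt_mul_of_pos_left hX hSpos
  nlinarith [h1, h2, hmono, hHc, hcard]

end Furst96.Sps
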