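import Pool.Agent.H.MP_96e181_an.sps.Basics

/-! # Module Jensen: conditioning on more variables decreases the Gini index

PROOF. By `gini_integral` (Basics) the right side is
`∑ p (b (1 - mass (insert s D) / mass D))`, so we must show
`∑ p b mass(insert s D)/mass D ≤ ∑ p b mass(insert s E)/mass E`.

For a value `v : ℕ` let `F_v ω = if X s ω = v then 1 else 0` and
`u_v ω = (∑_{ω' ~_E ω} p ω' F_v ω') / mass E ω`, `w_v ω` the same with `D` (conditional
probabilities of `X_s = v` given `E`, `D`).  `u_v` is `E`-measurable, `w_v` is `D`-measurable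
(hence `E`-measurable).  `mass (insert s E) ω / mass E ω = u_{X s ω} ω` (`same_insert`), so by
`tower_real` (with `F = F_v`, `ψ = b u_v`):
`∑ p b mass(insert s E)/mass E = ∑_v ∑ p F_v b u_v = ∑_v ∑ p b u_v²`
where `v` ranges over the finite set `Finset.univ.image (X s)`; likewise
`∑ p b mass(insert s D)/mass D = ∑_v ∑ p b w_v²`.
Finally `∑ p b u_v w_v = ∑ p F_v b w_v = ∑ p b w_v²` (`tower_real` for `E` with `ψ = b w_v`, and for
`D` with `ψ = b w_v`), so
`∑ p b u_v² - ∑ p b w_v² = ∑ p b (u_v - w_v)² ≥ 0`. -/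

set_option autoImplicit false

namespace Furst96.Sps

variable {Ω ι : Type*} [Fintype Ω] [DecidableEq ι]

open Classical in
/-- the conditional probability that `X_s = v`. -/
noncomputable def jensen_cp (p : Ω → ℝ) (X : ι → Ω → ℕ) (D : Finset ι) (s : ι) (v : ℕ) (ω : Ω) : ℝ :=
  (∑ ω', if Same X D ω ω' then p ω' * (if X s ω' = v then 1 else 0) else 0) / mass p X D ω

theorem jensen_cp_congr (p : Ω → ℝ) (X : ι → Ω → ℕ) (D : Finset ι) (s : ι) (v : ℕ) {ω ω' : Ω}
    (h : Same X D ω ω') : jensen_cp p X D s v ω = jensen_cp p X D s v ω' := by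
  classical
  unfold jensen_cp
  rw [mass_congr h]
  congr 1
  refine Finset.sum_congr rfl fun ω'' _ => ?_
  simp only [same_iff h]

theorem jensen_mass (p : Ω → ℝ) (X : ι → Ω → ℕ) (D : Finset ι) (s : ι) (ω : Ω) :
    mass p X (insert s D) ω / mass p X D ω =
      ∑ v ∈ Finset.univ.image (X s), (if X s ω = v then 1 else 0) * jensen_cp p X D s v ω := by
  classical
  rw [Finset.sum_eq_single (X s ω)]
  · rw [if_pos rfl, one_mul]
    unfold jensen_cp
    congr 1
    unfold mass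
    refine Finset.sum_congr rfl fun ω' _ => ?_
    by_cases h : Same X D ω ω'
    · rw [if_pos h]
      by_cases h2 : X s ω = X s ω'
      · rw [if_pos (same_insert.2 ⟨h2, h⟩), if_pos h2.symm, mul_one]
      · rw [if_neg (fun h3 => h2 (same_insert.1 h3).1), if_neg (fun h3 => h2 h3.symm), mul_zero]
    · rw [if_neg h, if_neg (fun h3 => h (same_insert.1 h3).2)]
  · intro v _ hv
    rw [if_neg (fun h => hv h.symm), zero_mul]
  · intro h
    exact absurd (Finset.mem_image_of_mem _ (Finset.mem_univ ω)) h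

theorem jensen_tower (p : Ω → ℝ) (hp : ∀ ω, 0 ≤ p ω) (X : ι → Ω → ℕ) (D : Finset ι) (s : ι)
    (v : ℕ) (ψ : Ω → ℝ) (hψ : ∀ ω ω', Same X D ω ω' → ψ ω = ψ ω') :
    ∑ ω, p ω * (jensen_cp p X D s v ω * ψ ω) =
      ∑ ω, p ω * ((if X s ω = v then 1 else 0) * ψ ω) := by
  classical
  have h := tower_real hp X D (fun ω => if X s ω = v then (1 : ℝ) else 0) ψ hψ
  rw [← h]
  refine Finset.sum_congr rfl fun ω _ => ?_
  unfold jensen_cp
  congr

theorem jensen_sum (p : Ω → ℝ) (hp : ∀ ω, 0 ≤ p ω) (X : ι → Ω → ℕ) (D : Finset ι) (s : ι)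
    (b : Ω → ℝ) (hb : ∀ ω ω', Same X D ω ω' → b ω = b ω') :
    ∑ ω, p ω * (b ω * (mass p X (insert s D) ω / mass p X D ω)) =
      ∑ v ∈ Finset.univ.image (X s), ∑ ω, p ω * (jensen_cp p X D s v ω *
        (b ω * jensen_cp p X D s v ω)) := by
  have h1 : ∀ ω, p ω * (b ω * (mass p X (insert s D) ω / mass p X D ω)) =
      ∑ v ∈ Finset.univ.image (X s), p ω * ((if X s ω = v then 1 else 0) *
        (b ω * jensen_cp p X D s v ω)) := by
    intro ω
    rw [jensen_mass, Finset.mul_sum, Finset.mul_sum]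
    refine Finset.sum_congr rfl fun v _ => ?_
    ring
  rw [Finset.sum_congr rfl fun ω _ => h1 ω, Finset.sum_comm]
  refine Finset.sum_congr rfl fun v _ => ?_
  refine (jensen_tower p hp X D s v (fun ω => b ω * jensen_cp p X D s v ω) ?_).symm
  intro ω ω' h
  rw [hb ω ω' h, jensen_cp_congr p X D s v h]

theorem gini_jensen (p : Ω → ℝ) (hp : ∀ ω, 0 ≤ p ω) (X : ι → Ω → ℕ) (D E : Finset ι)
    (hDE : D ⊆ E) (s : ι) (b : Ω → ℝ) (hb0 : ∀ ω, 0 ≤ b ω)
    (hb : ∀ ω ω', Same X D ω ω' → b ω = b ω') :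
    ∑ ω, p ω * (b ω * (1 - mass p X (insert s E) ω / mass p X E ω)) ≤
      ∑ ω, p ω * (b ω * gini p X D s ω) := by
  rw [gini_integral hp X D s b hb]
  have hbE : ∀ ω ω', Same X E ω ω' → b ω = b ω' := fun ω ω' h => hb ω ω' (h.mono hDE)
  have h1 : ∑ ω, p ω * (b ω * (mass p X (insert s D) ω / mass p X D ω)) ≤
      ∑ ω, p ω * (b ω * (mass p X (insert s E) ω / mass p X E ω)) := by
    rw [jensen_sum p hp X D s b hb, jensen_sum p hp X E s b hbE]
    refine Finset.sum_le_sum fun v _ => ?_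
    have e1 := jensen_tower p hp X E s v (fun ω => b ω * jensen_cp p X D s v ω) (by
      intro ω ω' h
      rw [hbE ω ω' h, jensen_cp_congr p X D s v (h.mono hDE)])
    have e2 := jensen_tower p hp X D s v (fun ω => b ω * jensen_cp p X D s v ω) (by
      intro ω ω' h
      rw [hb ω ω' h, jensen_cp_congr p X D s v h])
    have e3 : 0 ≤ ∑ ω, p ω * (b ω * (jensen_cp p X E s v ω - jensen_cp p X D s v ω) ^ 2) :=
      Finset.sum_nonneg fun ω _ => mul_nonneg (hp ω) (mul_nonneg (hb0 ω) (sq_nonneg _))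
    have e4 : ∑ ω, p ω * (b ω * (jensen_cp p X E s v ω - jensen_cp p X D s v ω) ^ 2) =
        ∑ ω, p ω * (jensen_cp p X E s v ω * (b ω * jensen_cp p X E s v ω)) -
          2 * ∑ ω, p ω * (jensen_cp p X E s v ω * (b ω * jensen_cp p X D s v ω)) +
          ∑ ω, p ω * (jensen_cp p X D s v ω * (b ω * jensen_cp p X D s v ω)) := by
      rw [Finset.mul_sum, ← Finset.sum_sub_distrib, ← Finset.sum_add_distrib]
      refine Finset.sum_congr rfl fun ω _ => ?_
      ring
    have e5 : ∑ ω, p ω * (jensen_cp p X E s v ω * (b ω * jensen_cp p X D s v ω)) =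
        ∑ ω, p ω * (jensen_cp p X D s v ω * (b ω * jensen_cp p X D s v ω)) := e1.trans e2.symm
    rw [e4, e5] at e3
    linarith
  have h2 : ∀ q : Ω → ℝ, ∑ ω, p ω * (b ω * (1 - q ω)) =
      ∑ ω, p ω * b ω - ∑ ω, p ω * (b ω * q ω) := by
    intro q
    rw [← Finset.sum_sub_distrib]
    refine Finset.sum_congr rfl fun ω _ => ?_
    ring
  rw [h2 (fun ω => mass p X (insert s E) ω / mass p X E ω),
    h2 (fun ω => mass p X (insert s D) ω / mass p X D ω)]
  linarith

end Furst96.Sps
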