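import Pool.Agent.H.MP_96e181_an.sps.Basics

/-! # Module Submod: strong subadditivity of the entropy

PROOF. Write `mD = mass D`, `mE`, `mDs = mass (insert s D)`, `mEs = mass (insert s E)` (all positive
where `p ω > 0`).  `inc s D - inc s E = ∑ p [ -log (mDs/mD) + log (mEs/mE) ]
= ∑ p log( (mEs mD) / (mE mDs) ) ≥ ∑_{p ω > 0} p (1 - (mE mDs)/(mEs mD))` by
`log x ≥ 1 - 1/x` (`Real.one_sub_inv_le_log_of_pos`).  So it suffices that
`∑_ω p ω (mE mDs)/(mEs mD) ≤ 1`.

The sum is `∑_{ω'} p ω' / mD ω' ∑_{ω ~ ω' (D, s)} p ω mE ω / mEs ω`, and the inner sum is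
`∑_{ω''} p ω'' ∑_{ω ~ ω' (D, s), ω ~ ω'' (E)} p ω / mEs ω`, where the innermost sum is at most
one, and zero if `ω''` is not in the `D`-atom of `ω'`. -/

set_option autoImplicit false

namespace Furst96.Sps

variable {Ω ι : Type*} [Fintype Ω] [DecidableEq ι]

open Classical in
private theorem submod_one (p : Ω → ℝ) (X : ι → Ω → ℕ) (s : ι)
    (E : Finset ι) (ω'' : Ω) (v : ℕ) :
    ∑ ω, (if Same X E ω'' ω ∧ X s ω = v then p ω / mass p X (insert s E) ω else 0) ≤ 1 := by
  by_cases h : ∃ ω₀, Same X E ω'' ω₀ ∧ X s ω₀ = v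
  · obtain ⟨ω₀, h1, h2⟩ := h
    have h3 : ∀ ω, (if Same X E ω'' ω ∧ X s ω = v then p ω / mass p X (insert s E) ω else 0) =
        (if Same X (insert s E) ω₀ ω then p ω else 0) / mass p X (insert s E) ω₀ := by
      intro ω
      by_cases h4 : Same X E ω'' ω ∧ X s ω = v
      · have h5 : Same X (insert s E) ω₀ ω := same_insert.2 ⟨h2.trans h4.2.symm,
          h1.symm.trans h4.1⟩
        rw [if_pos h4, if_pos h5, mass_congr h5]
      · have h5 : ¬ Same X (insert s E) ω₀ ω := by
          intro h6
          obtain ⟨h7, h8⟩ := same_insert.1 h6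
          exact h4 ⟨h1.trans h8, h7.symm.trans h2⟩
        rw [if_neg h4, if_neg h5, zero_div]
    rw [Finset.sum_congr rfl fun ω _ => h3 ω, ← Finset.sum_div]
    exact div_self_le_one (mass p X (insert s E) ω₀)
  · have h3 : ∀ ω, (if Same X E ω'' ω ∧ X s ω = v then p ω / mass p X (insert s E) ω else 0)
        = 0 := fun ω => if_neg fun h4 => h ⟨ω, h4⟩
    rw [Finset.sum_congr rfl fun ω _ => h3 ω, Finset.sum_const_zero]
    exact zero_le_one

open Classical in
private theorem submod_two (p : Ω → ℝ) (hp : ∀ ω, 0 ≤ p ω) (X : ι → Ω → ℕ) (s : ι)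
    (D E : Finset ι) (hDE : D ⊆ E) (ω' : Ω) :
    ∑ ω, (if Same X (insert s D) ω' ω then
      p ω * (mass p X E ω / mass p X (insert s E) ω) else 0) ≤ mass p X D ω' := by
  have h1 : ∀ ω, (if Same X (insert s D) ω' ω then
      p ω * (mass p X E ω / mass p X (insert s E) ω) else 0) =
      ∑ ω'', (if Same X (insert s D) ω' ω ∧ Same X E ω ω'' then
        p ω'' * (p ω / mass p X (insert s E) ω) else 0) := by
    intro ω
    by_cases h : Same X (insert s D) ω' ω
    · rw [if_pos h]
      have h2 : p ω * (mass p X E ω / mass p X (insert s E) ω) =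
          mass p X E ω * (p ω / mass p X (insert s E) ω) := by ring
      rw [h2]
      conv_lhs => rw [mass]
      rw [Finset.sum_mul]
      refine Finset.sum_congr rfl fun ω'' _ => ?_
      by_cases h3 : Same X E ω ω''
      · rw [if_pos h3, if_pos ⟨h, h3⟩]
      · rw [if_neg h3, if_neg fun h4 => h3 h4.2, zero_mul]
    · rw [if_neg h]
      symm
      refine Finset.sum_eq_zero fun ω'' _ => ?_
      rw [if_neg fun h4 => h h4.1]
  rw [Finset.sum_congr rfl fun ω _ => h1 ω, Finset.sum_comm]
  unfold mass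
  refine Finset.sum_le_sum fun ω'' _ => ?_
  by_cases h : Same X D ω' ω''
  · rw [if_pos h]
    have h2 : ∑ ω, (if Same X (insert s D) ω' ω ∧ Same X E ω ω'' then
        p ω'' * (p ω / mass p X (insert s E) ω) else 0) ≤
        ∑ ω, p ω'' * (if Same X E ω'' ω ∧ X s ω = X s ω' then
          p ω / mass p X (insert s E) ω else 0) := by
      refine Finset.sum_le_sum fun ω _ => ?_
      by_cases h3 : Same X (insert s D) ω' ω ∧ Same X E ω ω''
      · have h4 : Same X E ω'' ω ∧ X s ω = X s ω' :=
          ⟨h3.2.symm, (same_insert.1 h3.1).1.symm⟩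
        rw [if_pos h3, if_pos h4]
      · rw [if_neg h3]
        refine mul_nonneg (hp ω'') ?_
        split_ifs
        · exact div_nonneg (hp ω) (mass_nonneg hp X _ ω)
        · exact le_rfl
    refine h2.trans ?_
    rw [← Finset.mul_sum]
    exact mul_le_of_le_one_right (hp ω'') (submod_one p X s E ω'' (X s ω'))
  · rw [if_neg h]
    refine (Finset.sum_eq_zero fun ω _ => ?_).le
    rw [if_neg]
    rintro ⟨h3, h4⟩
    exact h ((same_insert.1 h3).2.trans (h4.mono hDE))

open Classical in
private theorem submod_three (p : Ω → ℝ) (hp : ∀ ω, 0 ≤ p ω) (hs : ∑ ω, p ω = 1)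
    (X : ι → Ω → ℕ) (s : ι) (D E : Finset ι) (hDE : D ⊆ E) :
    ∑ ω, p ω * ((mass p X E ω / mass p X (insert s E) ω) *
      (mass p X (insert s D) ω / mass p X D ω)) ≤ 1 := by
  have h1 : ∀ ω, p ω * ((mass p X E ω / mass p X (insert s E) ω) *
      (mass p X (insert s D) ω / mass p X D ω)) =
      ∑ ω', (p ω' / mass p X D ω') * (if Same X (insert s D) ω' ω then
        p ω * (mass p X E ω / mass p X (insert s E) ω) else 0) := by
    intro ω
    have h2 : p ω * ((mass p X E ω / mass p X (insert s E) ω) *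
        (mass p X (insert s D) ω / mass p X D ω)) =
        mass p X (insert s D) ω * (p ω * (mass p X E ω / mass p X (insert s E) ω) /
          mass p X D ω) := by ring
    rw [h2]
    conv_lhs => rw [mass]
    rw [Finset.sum_mul]
    refine Finset.sum_congr rfl fun ω' _ => ?_
    by_cases h3 : Same X (insert s D) ω ω'
    · have h4 : Same X D ω ω' := (same_insert.1 h3).2
      rw [if_pos h3, if_pos h3.symm, mass_congr h4]
      ring
    · rw [if_neg h3, if_neg fun h4 => h3 (Same.symm h4), zero_mul, mul_zero]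
  rw [Finset.sum_congr rfl fun ω _ => h1 ω, Finset.sum_comm, ← hs]
  refine Finset.sum_le_sum fun ω' _ => ?_
  rw [← Finset.mul_sum]
  have h5 := submod_two p hp X s D E hDE ω'
  have h6 : 0 ≤ p ω' / mass p X D ω' := div_nonneg (hp ω') (mass_nonneg hp X D ω')
  refine (mul_le_mul_of_nonneg_left h5 h6).trans ?_
  rcases eq_or_ne (mass p X D ω') 0 with h0 | h0
  · rw [h0, mul_zero]
    exact hp ω'
  · rw [div_mul_cancel₀ _ h0]

theorem inc_anti (p : Ω → ℝ) (hp : ∀ ω, 0 ≤ p ω) (hs : ∑ ω, p ω = 1) (X : ι → Ω → ℕ) (s : ι)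
    (D E : Finset ι) (hDE : D ⊆ E) : inc p X s E ≤ inc p X s D := by
  classical
  rw [← sub_nonneg]
  have h1 : inc p X s D - inc p X s E = ∑ ω, p ω * (Real.log (mass p X D ω) -
      Real.log (mass p X (insert s D) ω) + Real.log (mass p X (insert s E) ω) -
      Real.log (mass p X E ω)) := by
    unfold inc ent
    simp only [mul_sub, mul_add, Finset.sum_sub_distrib, Finset.sum_add_distrib]
    ring
  rw [h1]
  have h2 := submod_three p hp hs X s D E hDE
  have h3 : ∑ ω, p ω * (1 - (mass p X E ω / mass p X (insert s E) ω) *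
      (mass p X (insert s D) ω / mass p X D ω)) ≤
      ∑ ω, p ω * (Real.log (mass p X D ω) -
      Real.log (mass p X (insert s D) ω) + Real.log (mass p X (insert s E) ω) -
      Real.log (mass p X E ω)) := by
    refine Finset.sum_le_sum fun ω _ => ?_
    rcases eq_or_ne (p ω) 0 with h0 | h0
    · rw [h0, zero_mul, zero_mul]
    · have hpos : 0 < p ω := lt_of_le_of_ne (hp ω) (Ne.symm h0)
      refine mul_le_mul_of_nonneg_left ?_ (hp ω)
      have a1 := mass_pos hp X D hpos
      have a2 := mass_pos hp X (insert s D) hpos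
      have a3 := mass_pos hp X E hpos
      have a4 := mass_pos hp X (insert s E) hpos
      have h4 : 0 < (mass p X E ω / mass p X (insert s E) ω) *
          (mass p X (insert s D) ω / mass p X D ω) := by positivity
      have h5 := Real.log_le_sub_one_of_pos h4
      rw [Real.log_mul (by positivity) (by positivity), Real.log_div a3.ne' a4.ne',
        Real.log_div a2.ne' a1.ne'] at h5
      linarith
  refine le_trans ?_ h3
  simp only [mul_sub, mul_one, Finset.sum_sub_distrib, hs]
  linarith

end Furst96.Sps
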