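import Pool.Agent.H.MP_96e181_an.sps.Entropy
import Pool.Agent.H.MP_96e181_an.sps.Submod

/-! # Module Minimizer: a set `D` for which the conditional entropies are stable

PROOF. Let `Γ(D) = ∑ s ∈ T, inc s D ≥ 0` (`inc_nonneg`).  Let `D` minimise `Γ(D) + lam #D` over
`T.powerset` (`Finset.exists_min_image`).  Comparing with `∅`:
`lam #D ≤ Γ(D) + lam #D ≤ Γ(∅) ≤ #T ℓ`.  Comparing with `D ∪ R` (`⊆ T`, `#(D ∪ R) ≤ #D + #R`):
`Γ(D) - Γ(D ∪ R) ≤ lam #R`. -/

set_option autoImplicit false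

namespace Furst96.Sps

variable {Ω ι : Type*} [Fintype Ω] [DecidableEq ι]

theorem exists_stable (p : Ω → ℝ) (hp : ∀ ω, 0 ≤ p ω) (X : ι → Ω → ℕ) (T : Finset ι) (ℓ : ℝ)
    (hℓ : ∀ s ∈ T, inc p X s ∅ ≤ ℓ) (lam : ℝ) (hlam : 0 < lam) :
    ∃ D ⊆ T, D.card * lam ≤ T.card * ℓ ∧
      ∀ R ⊆ T, ∑ s ∈ T, (inc p X s D - inc p X s (D ∪ R)) ≤ lam * R.card := by
  obtain ⟨D, hD, hmin⟩ := Finset.exists_min_image T.powerset
    (fun D => ∑ s ∈ T, inc p X s D + lam * (D.card : ℝ)) ⟨∅, Finset.empty_mem_powerset T⟩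
  rw [Finset.mem_powerset] at hD
  refine ⟨D, hD, ?_, ?_⟩
  · have h0 := hmin ∅ (Finset.empty_mem_powerset T)
    simp only [Finset.card_empty, Nat.cast_zero, mul_zero, add_zero] at h0
    have h1 : 0 ≤ ∑ s ∈ T, inc p X s D := Finset.sum_nonneg fun s _ => inc_nonneg p hp X s D
    have h2 : ∑ s ∈ T, inc p X s ∅ ≤ T.card * ℓ := by
      have := Finset.sum_le_card_nsmul T (fun s => inc p X s ∅) ℓ hℓ
      simpa [nsmul_eq_mul] using this
    linarith [mul_comm lam (D.card : ℝ)]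
  · intro R hR
    have h0 := hmin (D ∪ R) (Finset.mem_powerset.2 (Finset.union_subset hD hR))
    have h1 : ((D ∪ R).card : ℝ) ≤ D.card + R.card := by
      exact_mod_cast Finset.card_union_le D R
    have h2 : lam * ((D ∪ R).card : ℝ) ≤ lam * (D.card + R.card) :=
      mul_le_mul_of_nonneg_left h1 hlam.le
    rw [Finset.sum_sub_distrib]
    linarith

end Furst96.Sps
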