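import Pool.Agent.H.MP_96e181_an.sps.FourSteps

/-! # Module NearScales: invariant atomless measures are uniformly Diophantine

PROOF. Put `y_i = 2 ^ 2 ^ i`, so `y_{i+1} = y_i ^ 2`, `ρ_i = 1 / y_i ^ 4`, so `ρ_{i+1} = 1 / y_i ^ 8`.
For `i ≥ j ≥ 1` we have `y_i ≥ 4`, and `four_steps` says `μ(Y_i) ≤ 4 / #(win P y_i)`, where
`Y_i = Near y_i ρ_i \ Near y_i ρ_{i+1}` (`Near y_i ρ_{i+1} ⊆ Near y_i ρ_i` by `near_mono`,
`measureReal_sdiff`/`measure_sdiff`, `measurableSet_near`).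

Claim: `Near y_j ρ_j ⊆ Z ∪ ⋃_{i ≥ j} Y_i`, where `Z = {x | ∃ b ≥ 1, b • x = 0}`.
Let `x ∈ Near y_j ρ_j`, `x ∉ Z`, and let `b₀ ≥ 1` be the least `c ≥ 1` with `‖c • x‖ ≤ ρ_j`
(`Nat.find`), so `b₀ ≤ y_j`.  `‖b₀ • x‖ > 0` and `ρ_i → 0`, so there is a largest `i ≥ j` with
`‖b₀ • x‖ ≤ ρ_i` (take the least `m > j` with `ρ_m < ‖b₀ • x‖`, `i = m - 1`).  Then `b₀ ≤ y_j ≤ y_i`,
so `x ∈ Near y_i ρ_i`.  If `x ∈ Near y_i ρ_{i+1}`: some `1 ≤ b ≤ y_i` with `‖b • x‖ ≤ ρ_{i+1}`.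
Apply `base_dvd` with `ρ = ρ_i`, `Q = y_i` (`2 y_i ρ_i < 1`), `b₀` (minimal for `ρ_i` because
`c < b₀` gives `‖c • x‖ > ρ_j ≥ ρ_i`): `‖b • x‖ = (b / b₀) ‖b₀ • x‖ ≥ ‖b₀ • x‖ > ρ_{i+1}`,
contradiction.  So `x ∈ Y_i`.

`Z` is countable: it is the union over `b ≥ 1` of the finite sets `{x | b • x = 0}`
(e.g. `x = (a / b : ℝ)`, `0 ≤ a < b`; or: Z is contained in the image of `ℚ`), so `μ Z = 0`
(`measure_iUnion_null`/`measure_biUnion_null_iff` over the points, using `hat`).  Hence `μ(Near y_j ρ_j) ≤ ∑' i, 4 / #(win P y_{j+i})`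
(countable subadditivity, in `ℝ≥0∞` or for reals via `measureReal`; the sum is finite by `hsum`,
shifted: `summable_nat_add_iff`).  Note `1 / 2 ^ (4 * 2 ^ j) = ρ_j`. -/

set_option autoImplicit false

open MeasureTheory

namespace Furst96.Sps

private theorem nearScales_rho (j : ℕ) :
    1 / (2 : ℝ) ^ (4 * 2 ^ j) = 1 / (((2 ^ 2 ^ j : ℕ) : ℝ)) ^ 4 := by
  push_cast
  rw [← pow_mul, mul_comm]

private theorem nearScales_succ (i : ℕ) :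
    1 / (((2 ^ 2 ^ (i + 1) : ℕ) : ℝ)) ^ 4 = 1 / (((2 ^ 2 ^ i : ℕ) : ℝ)) ^ 8 := by
  push_cast
  rw [← pow_mul, ← pow_mul, pow_succ]
  congr 2
  ring

private theorem nearScales_anti {i k : ℕ} (h : i ≤ k) :
    1 / (((2 ^ 2 ^ k : ℕ) : ℝ)) ^ 4 ≤ 1 / (((2 ^ 2 ^ i : ℕ) : ℝ)) ^ 4 := by
  have h1 : (2 ^ 2 ^ i : ℕ) ≤ 2 ^ 2 ^ k :=
    Nat.pow_le_pow_right (by norm_num) (Nat.pow_le_pow_right (by norm_num) h)
  have h2 : ((2 ^ 2 ^ i : ℕ) : ℝ) ≤ ((2 ^ 2 ^ k : ℕ) : ℝ) := by exact_mod_cast h1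
  have h3 : (0 : ℝ) < ((2 ^ 2 ^ i : ℕ) : ℝ) := by positivity
  gcongr

private theorem nearScales_null (μ : Measure UnitAddCircle) (hat : ∀ x, μ {x} = 0) :
    μ {x : UnitAddCircle | ∃ b : ℕ, 1 ≤ b ∧ b • x = 0} = 0 := by
  have hsub : {x : UnitAddCircle | ∃ b : ℕ, 1 ≤ b ∧ b • x = 0} ⊆
      ⋃ q : ℚ, {((q : ℝ) : UnitAddCircle)} := by
    rintro x ⟨b, hb, hx⟩
    induction x using QuotientAddGroup.induction_on with
    | H t =>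
      have h1 : b • ((t : ℝ) : UnitAddCircle) = ((b * t : ℝ) : UnitAddCircle) := by
        rw [← nsmul_eq_mul]
        exact (AddCircle.coe_nsmul (p := (1 : ℝ))).symm
      have h2 : ((b * t : ℝ) : UnitAddCircle) = 0 := by
        rw [← h1]; exact hx
      rw [AddCircle.coe_eq_zero_iff] at h2
      obtain ⟨n, hn⟩ := h2
      have hb0 : (b : ℝ) ≠ 0 := by
        have : b ≠ 0 := by omega
        exact_mod_cast this
      rw [Set.mem_iUnion]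
      refine ⟨(n : ℚ) / (b : ℚ), ?_⟩
      rw [Set.mem_singleton_iff]
      have h3 : t = (((n : ℚ) / (b : ℚ) : ℚ) : ℝ) := by
        push_cast
        rw [eq_div_iff hb0, mul_comm, ← hn]
        simp
      rw [← h3]
  exact measure_mono_null hsub (measure_iUnion_null fun q => hat _)

private theorem nearScales_cover (j : ℕ) (_hj : 1 ≤ j) :
    Near (2 ^ 2 ^ j) (1 / (((2 ^ 2 ^ j : ℕ) : ℝ)) ^ 4) ⊆
      {x : UnitAddCircle | ∃ b : ℕ, 1 ≤ b ∧ b • x = 0} ∪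
      ⋃ i : ℕ, (Near (2 ^ 2 ^ (j + i)) (1 / (((2 ^ 2 ^ (j + i) : ℕ) : ℝ)) ^ 4) \
        Near (2 ^ 2 ^ (j + i)) (1 / (((2 ^ 2 ^ (j + i) : ℕ) : ℝ)) ^ 8)) := by
  classical
  intro x hx
  by_cases hZ : x ∈ {x : UnitAddCircle | ∃ b : ℕ, 1 ≤ b ∧ b • x = 0}
  · exact Or.inl hZ
  right
  have hex : ∃ c : ℕ, 1 ≤ c ∧ ‖c • x‖ ≤ 1 / (((2 ^ 2 ^ j : ℕ) : ℝ)) ^ 4 := by
    obtain ⟨b, h1, _, h3⟩ := hx
    exact ⟨b, h1, h3⟩
  obtain ⟨h0, hb0⟩ := Nat.find_spec hex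
  have hmin0 := fun c hc => Nat.find_min hex (m := c) hc
  have hle0 : Nat.find hex ≤ 2 ^ 2 ^ j := by
    obtain ⟨b, h1, h2, h3⟩ := hx
    exact (Nat.find_min' hex ⟨h1, h3⟩).trans h2
  generalize Nat.find hex = b0 at h0 hb0 hmin0 hle0
  have hmin : ∀ c : ℕ, 1 ≤ c → c < b0 → 1 / (((2 ^ 2 ^ j : ℕ) : ℝ)) ^ 4 < ‖c • x‖ := by
    intro c hc1 hc2
    by_contra hcon
    exact hmin0 c hc2 ⟨hc1, not_lt.1 hcon⟩
  have hpos : 0 < ‖b0 • x‖ := by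
    rw [norm_pos_iff]
    intro h
    exact hZ ⟨b0, h0, h⟩
  have hex2 : ∃ m : ℕ, 1 / (((2 ^ 2 ^ m : ℕ) : ℝ)) ^ 4 < ‖b0 • x‖ := by
    obtain ⟨n, hn⟩ := exists_nat_gt (1 / ‖b0 • x‖)
    refine ⟨n, ?_⟩
    have hn1 : n ≤ 2 ^ 2 ^ n := (Nat.lt_two_pow_self).le.trans (Nat.lt_two_pow_self).le
    have hn2 : (n : ℝ) ≤ ((2 ^ 2 ^ n : ℕ) : ℝ) := by exact_mod_cast hn1
    have hn3 : (1 : ℝ) ≤ ((2 ^ 2 ^ n : ℕ) : ℝ) := by
      exact_mod_cast (Nat.one_le_two_pow : 1 ≤ 2 ^ 2 ^ n)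
    have hn4 : ((2 ^ 2 ^ n : ℕ) : ℝ) ≤ (((2 ^ 2 ^ n : ℕ) : ℝ)) ^ 4 :=
      le_self_pow₀ hn3 (by norm_num)
    have hn5 : 1 / ‖b0 • x‖ < (((2 ^ 2 ^ n : ℕ) : ℝ)) ^ 4 := by linarith
    rw [div_lt_iff₀ hpos] at hn5
    rw [div_lt_iff₀ (by positivity)]
    linarith
  have hm := Nat.find_spec hex2
  have hmm := fun c hc => Nat.find_min hex2 (m := c) hc
  generalize Nat.find hex2 = m at hm hmm
  have hjm : j < m := by
    by_contra hcon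
    have h1 := nearScales_anti (not_lt.1 hcon)
    linarith
  obtain ⟨i, rfl⟩ : ∃ i, m = j + i + 1 := ⟨m - j - 1, by omega⟩
  have hi : ‖b0 • x‖ ≤ 1 / (((2 ^ 2 ^ (j + i) : ℕ) : ℝ)) ^ 4 :=
    not_lt.1 (hmm (j + i) (by omega))
  have hyle : (2 ^ 2 ^ j : ℕ) ≤ 2 ^ 2 ^ (j + i) :=
    Nat.pow_le_pow_right (by norm_num) (Nat.pow_le_pow_right (by norm_num) (by omega))
  rw [Set.mem_iUnion]
  refine ⟨i, ⟨b0, h0, hle0.trans hyle, hi⟩, ?_⟩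
  rintro ⟨b, hb1, hb2, hb3⟩
  rw [← nearScales_succ] at hb3
  have h2y : (2 : ℝ) ≤ ((2 ^ 2 ^ (j + i) : ℕ) : ℝ) := by
    have : (2 : ℕ) ≤ 2 ^ 2 ^ (j + i) := by
      calc (2 : ℕ) = 2 ^ 1 := by norm_num
        _ ≤ 2 ^ 2 ^ (j + i) := Nat.pow_le_pow_right (by norm_num) Nat.one_le_two_pow
    exact_mod_cast this
  have hQ : 2 * (((2 ^ 2 ^ (j + i) : ℕ)) : ℝ) *
      (1 / (((2 ^ 2 ^ (j + i) : ℕ) : ℝ)) ^ 4) < 1 := by
    generalize (((2 ^ 2 ^ (j + i) : ℕ)) : ℝ) = y at h2y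
    have hy0 : 0 < y := by linarith
    rw [mul_one_div, div_lt_one (by positivity)]
    have h3 : (8 : ℝ) ≤ y ^ 3 := by nlinarith [mul_self_nonneg (y - 2)]
    nlinarith [mul_le_mul_of_nonneg_right h3 hy0.le]
  have hres := base_dvd x (1 / (((2 ^ 2 ^ (j + i) : ℕ) : ℝ)) ^ 4) (2 ^ 2 ^ (j + i)) b0 hQ h0 hi
    (fun c hc1 hc2 => lt_of_le_of_lt (nearScales_anti (by omega)) (hmin c hc1 hc2)) b hb1 hb2
    (hb3.trans (nearScales_anti (by omega)))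
  obtain ⟨⟨c, hc⟩, heq⟩ := hres
  have hc1 : 1 ≤ b / b0 := by
    rw [Nat.one_le_div_iff (by omega)]
    rcases Nat.eq_zero_or_pos c with hc0 | hc0
    · rw [hc0, mul_zero] at hc
      omega
    · rw [hc]
      exact Nat.le_mul_of_pos_right b0 hc0
  have hc2 : (1 : ℝ) ≤ ((b / b0 : ℕ) : ℝ) := by exact_mod_cast hc1
  have : ‖b0 • x‖ ≤ ‖b • x‖ := by
    rw [heq]
    nlinarith
  linarith

theorem near_scales (μ : Measure UnitAddCircle) [IsProbabilityMeasure μ]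
    (hat : ∀ x, μ {x} = 0) (P : Set ℕ)
    (hP : ∀ p ∈ P, p.Prime) (hinv : ∀ p ∈ P, Inv μ p) (j : ℕ) (hj : 1 ≤ j)
    (hpos : ∀ i, j ≤ i → 0 < (win P (2 ^ 2 ^ i)).card)
    (hsum : Summable fun i : ℕ => 1 / ((win P (2 ^ 2 ^ i)).card : ℝ)) :
    μ.real (Near (2 ^ 2 ^ j) (1 / (2 : ℝ) ^ (4 * 2 ^ j))) ≤
      ∑' i : ℕ, 4 / ((win P (2 ^ 2 ^ (j + i))).card : ℝ) := by
  rw [nearScales_rho j]
  have hcov := nearScales_cover j hj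
  have hnull := nearScales_null μ hat
  -- the pieces
  have hpiece : ∀ i : ℕ,
      μ (Near (2 ^ 2 ^ (j + i)) (1 / (((2 ^ 2 ^ (j + i) : ℕ) : ℝ)) ^ 4) \
        Near (2 ^ 2 ^ (j + i)) (1 / (((2 ^ 2 ^ (j + i) : ℕ) : ℝ)) ^ 8)) ≤
      ENNReal.ofReal (4 / ((win P (2 ^ 2 ^ (j + i))).card : ℝ)) := by
    intro i
    have h4 : (3 : ℕ) ≤ 2 ^ 2 ^ (j + i) := by
      have h5 : 2 ≤ 2 ^ (j + i) := by
        calc (2 : ℕ) = 2 ^ 1 := by norm_num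
          _ ≤ 2 ^ (j + i) := Nat.pow_le_pow_right (by norm_num) (by omega)
      calc (3 : ℕ) ≤ 2 ^ 2 := by norm_num
        _ ≤ 2 ^ 2 ^ (j + i) := Nat.pow_le_pow_right (by norm_num) h5
    have h6 := four_steps μ P hP hinv (2 ^ 2 ^ (j + i)) h4 (hpos (j + i) (by omega))
    have hsub : Near (2 ^ 2 ^ (j + i)) (1 / (((2 ^ 2 ^ (j + i) : ℕ) : ℝ)) ^ 8) ⊆
        Near (2 ^ 2 ^ (j + i)) (1 / (((2 ^ 2 ^ (j + i) : ℕ) : ℝ)) ^ 4) := by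
      refine near_mono le_rfl ?_
      rw [← nearScales_succ]
      exact nearScales_anti (by omega)
    rw [measure_sdiff hsub (measurableSet_near _ _).nullMeasurableSet (measure_ne_top _ _)]
    rw [ENNReal.le_ofReal_iff_toReal_le (by finiteness) (by positivity),
      ENNReal.toReal_sub_of_le (measure_mono hsub) (measure_ne_top _ _)]
    unfold Measure.real at h6
    linarith
  have hs : Summable fun i : ℕ => 4 / ((win P (2 ^ 2 ^ (j + i))).card : ℝ) := by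
    have h7 := (summable_nat_add_iff j).2 (hsum.mul_left 4)
    refine h7.congr fun i => ?_
    rw [add_comm i j, mul_one_div]
  have h8 : μ (Near (2 ^ 2 ^ j) (1 / (((2 ^ 2 ^ j : ℕ) : ℝ)) ^ 4)) ≤
      ENNReal.ofReal (∑' i : ℕ, 4 / ((win P (2 ^ 2 ^ (j + i))).card : ℝ)) := by
    calc μ (Near (2 ^ 2 ^ j) (1 / (((2 ^ 2 ^ j : ℕ) : ℝ)) ^ 4))
        ≤ _ := measure_mono hcov
      _ ≤ _ := measure_union_le _ _
      _ = _ := by rw [hnull, zero_add]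
      _ ≤ _ := measure_iUnion_le _
      _ ≤ _ := ENNReal.tsum_le_tsum hpiece
      _ = _ := (ENNReal.ofReal_tsum_of_nonneg (fun i => by positivity) hs).symm
  unfold Measure.real
  exact ENNReal.toReal_le_of_le_ofReal (tsum_nonneg fun i => by positivity) h8

end Furst96.Sps
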