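import Pool.Agent.H.MP_96e181_an.sps.BaseDvd

/-! # Module OneStep: primes improve the approximation

PROOF. Let `X = Near n ρ`, `X' = Near n (ρ / lo)`.  For `s ∈ S` put `A_s = T_s⁻¹ X`, so
`μ(A_s) = μ(X)` (`Inv.real_preimage`, `measurableSet_near`).

Claim: a point `x ∉ X'` lies in `A_s` for at most one `s ∈ S`.  Suppose `x ∈ A_s ∩ A_s'`, `s ≠ s'`,
`x ∉ X'`: there are `1 ≤ b, b' ≤ n` with `‖(b s) • x‖ ≤ ρ`, `‖(b' s') • x‖ ≤ ρ`
(`mul_smul`, `mul_comm`).  Let `b₀` be the least `c ≥ 1` with `‖c • x‖ ≤ ρ` (`Nat.find`; it exists,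
e.g. `c = b s`).  With `Q = n * hi` we have `2 Q ρ < 1`, `b s ≤ Q`, `b' s' ≤ Q`, so by `base_dvd`
`b₀ ∣ b s`, `b₀ ∣ b' s'` and `‖(b s) • x‖ = (b s / b₀) ‖b₀ • x‖`.
If `s ∤ b₀`: `b₀` is coprime to the prime `s`, so `b₀ ∣ b`, `b₀ ≤ b ≤ n`, `b s / b₀ ≥ s ≥ lo`, so
`‖b₀ • x‖ ≤ ρ / lo`, i.e. `x ∈ X'`, contradiction.  So `s ∣ b₀ ∣ b' s'`; `s ≠ s'` are primes, so
`s ∣ b'`, and `s ≤ b' ≤ n < s`, contradiction.

Therefore `∑_{s ∈ S} 1_{A_s}(x) ≤ S.card * 1_{X'}(x) + 1` for every `x`; integrate: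
`S.card * μ(X) ≤ S.card * μ(X') + 1`; divide by `S.card > 0`.
(For the integration: `∑ s, μ.real (A_s) = ∫ ∑ s, indicator`, or use
`μ.real (A_s) ≤ μ.real X' + μ.real (A_s \ X')` and that the sets `A_s \ X'` are pairwise disjoint,
so `∑ s, μ.real (A_s \ X') = μ.real (⋃ ...) ≤ 1` by `measureReal_biUnion_finset`.) -/

set_option autoImplicit false

open MeasureTheory

namespace Furst96.Sps

theorem oneStep_key (S : Finset ℕ) (n lo hi : ℕ) (hlo1 : 1 ≤ lo) (hp : ∀ s ∈ S, s.Prime)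
    (hn : ∀ s ∈ S, n < s) (hlo : ∀ s ∈ S, lo ≤ s) (hhi : ∀ s ∈ S, s ≤ hi) (ρ : ℝ)
    (hρ : 2 * ((n * hi : ℕ) : ℝ) * ρ < 1) (x : UnitAddCircle) {s s' : ℕ} (hs : s ∈ S)
    (hs' : s' ∈ S) (hne : s ≠ s') (h : s • x ∈ Near n ρ) (h' : s' • x ∈ Near n ρ) :
    x ∈ Near n (ρ / lo) := by
  obtain ⟨b, hb1, hbn, hbρ⟩ := h
  obtain ⟨b', hb1', hbn', hbρ'⟩ := h'
  rw [← mul_smul] at hbρ hbρ'
  have hs0 : 1 ≤ s := (hp s hs).one_lt.le
  have hs0' : 1 ≤ s' := (hp s' hs').one_lt.le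
  have hex : ∃ c : ℕ, 1 ≤ c ∧ ‖c • x‖ ≤ ρ := ⟨b * s, Nat.one_le_iff_ne_zero.2 (by positivity), hbρ⟩
  classical
  obtain ⟨b₀, ⟨h0, hb₀⟩, hmin⟩ : ∃ b₀ : ℕ, (1 ≤ b₀ ∧ ‖b₀ • x‖ ≤ ρ) ∧
      ∀ c : ℕ, 1 ≤ c → c < b₀ → ρ < ‖c • x‖ := by
    refine ⟨Nat.find hex, Nat.find_spec hex, fun c hc1 hc2 => ?_⟩
    by_contra hcon
    exact Nat.find_min hex hc2 ⟨hc1, not_lt.1 hcon⟩
  obtain ⟨hd, hnorm⟩ := base_dvd x ρ (n * hi) b₀ hρ h0 hb₀ hmin (b * s)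
    (Nat.one_le_iff_ne_zero.2 (by positivity)) (Nat.mul_le_mul hbn (hhi s hs)) hbρ
  obtain ⟨hd', -⟩ := base_dvd x ρ (n * hi) b₀ hρ h0 hb₀ hmin (b' * s')
    (Nat.one_le_iff_ne_zero.2 (by positivity)) (Nat.mul_le_mul hbn' (hhi s' hs')) hbρ'
  by_cases hsd : s ∣ b₀
  · exfalso
    rcases (Nat.Prime.dvd_mul (hp s hs)).1 (hsd.trans hd') with h1 | h1
    · have h2 := Nat.le_of_dvd (by omega) h1
      have h3 := hn s hs
      omega
    · exact hne ((Nat.prime_dvd_prime_iff_eq (hp s hs) (hp s' hs')).1 h1)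
  · have hcop : Nat.Coprime b₀ s := (((hp s hs).coprime_iff_not_dvd).2 hsd).symm
    have hdb : b₀ ∣ b := hcop.dvd_of_dvd_mul_right hd
    refine ⟨b₀, h0, (Nat.le_of_dvd (by omega) hdb).trans hbn, ?_⟩
    obtain ⟨c, rfl⟩ := hdb
    have hc1 : 1 ≤ c := by
      rcases Nat.eq_zero_or_pos c with h1 | h1
      · rw [h1, mul_zero] at hb1
        omega
      · exact h1
    have hq : b₀ * c * s / b₀ = c * s := by
      rw [mul_assoc, Nat.mul_div_cancel_left _ (by omega)]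
    rw [hq] at hnorm
    have hlos : lo ≤ c * s := (hlo s hs).trans (Nat.le_mul_of_pos_left s (by omega))
    have hlo0 : (0 : ℝ) < lo := by exact_mod_cast hlo1
    rw [le_div_iff₀ hlo0]
    calc ‖b₀ • x‖ * lo ≤ ‖b₀ • x‖ * ((c * s : ℕ) : ℝ) :=
          mul_le_mul_of_nonneg_left (by exact_mod_cast hlos) (norm_nonneg _)
      _ = ‖(b₀ * c * s) • x‖ := by rw [hnorm, mul_comm]
      _ ≤ ρ := hbρ

theorem one_step (μ : Measure UnitAddCircle) [IsProbabilityMeasure μ] (S : Finset ℕ)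
    (n lo hi : ℕ) (hlo1 : 1 ≤ lo) (hS : S.Nonempty) (hp : ∀ s ∈ S, s.Prime)
    (hinv : ∀ s ∈ S, Inv μ s) (hn : ∀ s ∈ S, n < s) (hlo : ∀ s ∈ S, lo ≤ s)
    (hhi : ∀ s ∈ S, s ≤ hi) (ρ : ℝ) (hρ0 : 0 ≤ ρ) (hρ : 2 * ((n * hi : ℕ) : ℝ) * ρ < 1) :
    μ.real (Near n ρ) ≤ μ.real (Near n (ρ / lo)) + 1 / (S.card : ℝ) := by
  have hcard : (0 : ℝ) < S.card := by exact_mod_cast hS.card_pos
  have hmA : ∀ s : ℕ, MeasurableSet ((fun x : UnitAddCircle => s • x) ⁻¹' Near n ρ) := fun s =>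
    (continuous_nsmul_circle s).measurable (measurableSet_near n ρ)
  have hdis : (S : Set ℕ).PairwiseDisjoint
      (fun s => ((fun x : UnitAddCircle => s • x) ⁻¹' Near n ρ) \ Near n (ρ / lo)) := by
    intro s hs s' hs' hne
    rw [Function.onFun, Set.disjoint_left]
    rintro x ⟨h1, h2⟩ ⟨h3, -⟩
    exact h2 (oneStep_key S n lo hi hlo1 hp hn hlo hhi ρ hρ x hs hs' hne h1 h3)
  have h1 : ∑ s ∈ S, μ.real (((fun x : UnitAddCircle => s • x) ⁻¹' Near n ρ) \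
      Near n (ρ / lo)) ≤ 1 := by
    rw [← measureReal_biUnion_finset hdis (fun s _ => (hmA s).diff (measurableSet_near _ _))]
    exact measureReal_le_one
  have h2 : ∀ s ∈ S, μ.real (Near n ρ) ≤ μ.real (Near n (ρ / lo)) +
      μ.real (((fun x : UnitAddCircle => s • x) ⁻¹' Near n ρ) \ Near n (ρ / lo)) := by
    intro s hs
    rw [← (hinv s hs).real_preimage (measurableSet_near n ρ)]
    refine (measureReal_mono ?_).trans (measureReal_union_le _ _)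
    intro x hx
    by_cases hx' : x ∈ Near n (ρ / lo)
    · exact Or.inl hx'
    · exact Or.inr ⟨hx, hx'⟩
  have h3 := Finset.sum_le_sum h2
  rw [Finset.sum_const, Finset.sum_add_distrib, Finset.sum_const, nsmul_eq_mul, nsmul_eq_mul] at h3
  have h4 : (S.card : ℝ) * μ.real (Near n ρ) ≤ S.card * (μ.real (Near n (ρ / lo)) +
      1 / (S.card : ℝ)) := by
    rw [mul_add, mul_one_div_cancel hcard.ne']
    linarith
  exact le_of_mul_le_mul_left h4 hcard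

end Furst96.Sps
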