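import Pool.Agent.H.MP_96e181_an.sps.Basics
import Pool.Agent.H.MP_96e181_an.sps.CircleLib

/-! # Module PhaseBound: the conditional expectation of a phase

PROOF of `cos_bound`. With `y = ‖(t : UnitAddCircle)‖ = |t - round t| ∈ [0, 1/2]`:
`1 - cos 2πt = 1 - cos 2πy = 2 sin²(πy) ≥ 2 (2y)² = 8y²` (Jordan: `sin(πy) ≥ 2y` for
`0 ≤ y ≤ 1/2`, `Real.mul_le_sin`; `Real.cos_two_mul`, periodicity `Real.cos_sub_int_mul_two_pi`).

PROOF of `phase_bound`. Let `m = mass D ω > 0`, `A(ω') = 1` if `ω' ~_D ω`, and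
`S = ∑_{ω'} A(ω') p ω' ee(σ t ω')`, so `cexp = S/m`.  `‖S‖² = ∑∑ A A' p' p'' Re ee(σ (t ω' - t ω''))
= ∑∑ A A' p' p'' cos(2π σ (t ω' - t ω''))`
`≤ ∑∑ A A' p' p'' (1 - 8 ‖σ • (t ω' - t ω'')‖²)` by `cos_bound`
`≤ m² - 8 δ₀² ∑∑_{‖σ • ..‖ ≥ δ₀} A A' p' p''`, and
`∑∑_{‖σ•..‖ ≥ δ₀} A A' p' p'' ≥ m² (gini - badp)` (pairs with `X r ω' ≠ X r ω''` and
`‖σ • ..‖ ≥ δ₀`: `gini m²` minus `badp m²`).  So
`‖cexp‖² ≤ 1 - 8δ₀² (gini - badp) ≤ exp(-8 δ₀² (gini - badp))`; take square roots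
(`exp(-8x) = exp(-4x)²`, `abs_le_of_sq_le_sq`/`pow_le_pow_left`). -/

set_option autoImplicit false

open MeasureTheory

namespace Furst96.Sps

variable {Ω ι : Type*} [Fintype Ω] [DecidableEq ι]

theorem cos_bound (t : ℝ) :
    8 * ‖(t : UnitAddCircle)‖ ^ 2 ≤ 1 - Real.cos (2 * Real.pi * t) := by
  rw [UnitAddCircle.norm_eq]
  set y : ℝ := |t - round t| with hy
  have hy0 : 0 ≤ y := abs_nonneg _
  have hy1 : y ≤ 1 / 2 := abs_sub_round t
  have h1 : Real.cos (2 * Real.pi * t) = Real.cos (2 * Real.pi * y) := by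
    have h2 : Real.cos (2 * Real.pi * y) = Real.cos (2 * Real.pi * (t - round t)) := by
      rw [hy, ← Real.cos_abs (2 * Real.pi * (t - round t)), abs_mul,
        abs_of_pos Real.two_pi_pos]
    rw [h2, show 2 * Real.pi * (t - round t) = 2 * Real.pi * t - (round t : ℤ) * (2 * Real.pi) by
      ring, Real.cos_sub_int_mul_two_pi]
  have h3 : Real.cos (2 * Real.pi * y) = 1 - 2 * Real.sin (Real.pi * y) ^ 2 := by
    rw [show 2 * Real.pi * y = 2 * (Real.pi * y) by ring, Real.cos_two_mul]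
    have := Real.sin_sq_add_cos_sq (Real.pi * y)
    linarith
  have h4 : 2 * y ≤ Real.sin (Real.pi * y) := by
    have h5 := Real.mul_le_sin (x := Real.pi * y) (by positivity)
      (by nlinarith [Real.pi_pos])
    have h6 : 2 / Real.pi * (Real.pi * y) = 2 * y := by
      field_simp
    rwa [h6] at h5
  rw [h1, h3]
  have h7 : (2 * y) ^ 2 ≤ Real.sin (Real.pi * y) ^ 2 := pow_le_pow_left₀ (by positivity) h4 2
  nlinarith

theorem badp_le_gini (p : Ω → ℝ) (hp : ∀ ω, 0 ≤ p ω) (X : ι → Ω → ℕ) (D : Finset ι) (r : ι)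
    (t : Ω → ℝ) (σ : ℕ) (δ₀ : ℝ) (ω : Ω) : badp p X D r t σ δ₀ ω ≤ gini p X D r ω := by
  classical
  unfold badp gini
  refine div_le_div_of_nonneg_right ?_ (sq_nonneg _)
  refine Finset.sum_le_sum fun ω' _ => Finset.sum_le_sum fun ω'' _ => ?_
  by_cases h : Same X D ω ω' ∧ Same X D ω ω'' ∧ X r ω' ≠ X r ω''
  · rw [if_pos h]
    split_ifs
    · exact le_rfl
    · exact mul_nonneg (hp ω') (hp ω'')
  · rw [if_neg h, if_neg (fun h' => h h'.1)]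

theorem badp_nonneg (p : Ω → ℝ) (hp : ∀ ω, 0 ≤ p ω) (X : ι → Ω → ℕ) (D : Finset ι) (r : ι)
    (t : Ω → ℝ) (σ : ℕ) (δ₀ : ℝ) (ω : Ω) : 0 ≤ badp p X D r t σ δ₀ ω := by
  classical
  unfold badp
  refine div_nonneg (Finset.sum_nonneg fun ω' _ => Finset.sum_nonneg fun ω'' _ => ?_) (sq_nonneg _)
  split_ifs
  · exact mul_nonneg (hp ω') (hp ω'')
  · exact le_rfl

private theorem phaseBound_re (s t : ℝ) :
    (ee s * (starRingEnd ℂ) (ee t)).re = Real.cos (2 * Real.pi * (s - t)) := by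
  have h1 : (starRingEnd ℂ) (ee t) = ee (-t) := by
    unfold ee
    rw [← Complex.exp_conj]
    congr 1
    simp only [map_mul, Complex.conj_I, Complex.conj_ofReal]
    rw [show (starRingEnd ℂ) 2 = 2 from Complex.conj_ofNat 2]
    push_cast
    ring
  rw [h1, ← ee_add]
  unfold ee
  rw [show (2 * Real.pi * Complex.I * ((s + -t : ℝ) : ℂ) : ℂ) =
    ((2 * Real.pi * (s - t) : ℝ) : ℂ) * Complex.I by push_cast; ring]
  rw [Complex.exp_ofReal_mul_I_re]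

theorem phase_bound (p : Ω → ℝ) (hp : ∀ ω, 0 ≤ p ω) (X : ι → Ω → ℕ) (D : Finset ι) (r : ι)
    (t : Ω → ℝ) (σ : ℕ) (δ₀ : ℝ) (hδ₀ : 0 ≤ δ₀) (ω : Ω) (hω : 0 < mass p X D ω) :
    ‖cexp p X D (fun ω' => ee ((σ : ℝ) * t ω')) ω‖ ≤
      Real.exp (-(4 * δ₀ ^ 2) * (gini p X D r ω - badp p X D r t σ δ₀ ω)) := by
  classical
  set m : ℝ := mass p X D ω with hm
  set q : Ω → ℝ := fun ω' => if Same X D ω ω' then p ω' else 0 with hq
  have hq0 : ∀ ω', 0 ≤ q ω' := by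
    intro ω'
    rw [hq]
    dsimp only
    split_ifs
    · exact hp ω'
    · exact le_rfl
  have hmq : m = ∑ ω', q ω' := by
    rw [hm]
    unfold mass
    refine Finset.sum_congr rfl fun ω' _ => ?_
    rw [hq]
  have hm2 : m ^ 2 = ∑ ω', ∑ ω'', q ω' * q ω'' := by
    rw [sq, hmq, Finset.sum_mul_sum]
  set S : ℂ := ∑ ω', (q ω' : ℂ) * ee ((σ : ℝ) * t ω') with hS
  have hcexp : cexp p X D (fun ω' => ee ((σ : ℝ) * t ω')) ω = S / (m : ℂ) := by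
    unfold cexp
    rw [← hm, hS]
    congr 1
    refine Finset.sum_congr rfl fun ω' _ => ?_
    rw [hq]
    dsimp only
    by_cases h : Same X D ω ω'
    · rw [if_pos h, if_pos h]
    · rw [if_neg h, if_neg h]
      simp
  have hSS : ‖S‖ ^ 2 = ∑ ω', ∑ ω'', q ω' * q ω'' *
      Real.cos (2 * Real.pi * ((σ : ℝ) * t ω' - (σ : ℝ) * t ω'')) := by
    have h1 : ((‖S‖ ^ 2 : ℝ) : ℂ) = S * (starRingEnd ℂ) S := by
      rw [Complex.mul_conj, Complex.normSq_eq_norm_sq]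
    have h2 : S * (starRingEnd ℂ) S = ∑ ω', ∑ ω'', ((q ω' * q ω'' : ℝ) : ℂ) *
        (ee ((σ : ℝ) * t ω') * (starRingEnd ℂ) (ee ((σ : ℝ) * t ω''))) := by
      rw [hS, map_sum, Finset.sum_mul_sum]
      refine Finset.sum_congr rfl fun ω' _ => Finset.sum_congr rfl fun ω'' _ => ?_
      rw [map_mul, Complex.conj_ofReal]
      push_cast
      ring
    have h3 : ‖S‖ ^ 2 = (S * (starRingEnd ℂ) S).re := by
      rw [← h1, Complex.ofReal_re]
    rw [h3, h2, Complex.re_sum]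
    refine Finset.sum_congr rfl fun ω' _ => ?_
    rw [Complex.re_sum]
    refine Finset.sum_congr rfl fun ω'' _ => ?_
    rw [Complex.re_ofReal_mul, phaseBound_re]
  set G : ℝ := gini p X D r ω with hG
  set B : ℝ := badp p X D r t σ δ₀ ω with hB
  have hkey : 8 * δ₀ ^ 2 * (G * m ^ 2 - B * m ^ 2) ≤ m ^ 2 - ‖S‖ ^ 2 := by
    have hGm : G * m ^ 2 = ∑ ω' : Ω, ∑ ω'' : Ω,
        if Same X D ω ω' ∧ Same X D ω ω'' ∧ X r ω' ≠ X r ω'' then p ω' * p ω'' else 0 := by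
      rw [hG]
      unfold gini
      rw [← hm, div_mul_cancel₀ _ (pow_ne_zero 2 hω.ne')]
    have hBm : B * m ^ 2 = ∑ ω' : Ω, ∑ ω'' : Ω,
        if (Same X D ω ω' ∧ Same X D ω ω'' ∧ X r ω' ≠ X r ω'') ∧
          ‖σ • ((t ω' - t ω'' : ℝ) : UnitAddCircle)‖ < δ₀ then p ω' * p ω'' else 0 := by
      rw [hB]
      unfold badp
      rw [← hm, div_mul_cancel₀ _ (pow_ne_zero 2 hω.ne')]
    rw [hGm, hBm, hm2, hSS, ← Finset.sum_sub_distrib, ← Finset.sum_sub_distrib, Finset.mul_sum]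
    refine Finset.sum_le_sum fun ω' _ => ?_
    rw [← Finset.sum_sub_distrib, ← Finset.sum_sub_distrib, Finset.mul_sum]
    refine Finset.sum_le_sum fun ω'' _ => ?_
    have hc := cos_bound ((σ : ℝ) * t ω' - (σ : ℝ) * t ω'')
    have hnorm : ‖σ • ((t ω' - t ω'' : ℝ) : UnitAddCircle)‖ =
        ‖(((σ : ℝ) * t ω' - (σ : ℝ) * t ω'' : ℝ) : UnitAddCircle)‖ := by
      rw [norm_nsmul_coe, UnitAddCircle.norm_eq, mul_sub]
    have hqq : 0 ≤ q ω' * q ω'' := mul_nonneg (hq0 ω') (hq0 ω'')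
    have hrhs : q ω' * q ω'' - q ω' * q ω'' *
        Real.cos (2 * Real.pi * ((σ : ℝ) * t ω' - (σ : ℝ) * t ω'')) =
        q ω' * q ω'' * (1 - Real.cos (2 * Real.pi * ((σ : ℝ) * t ω' - (σ : ℝ) * t ω''))) := by
      ring
    rw [hrhs]
    have hcl := Real.cos_le_one (2 * Real.pi * ((σ : ℝ) * t ω' - (σ : ℝ) * t ω''))
    have hnn : 0 ≤ q ω' * q ω'' *
        (1 - Real.cos (2 * Real.pi * ((σ : ℝ) * t ω' - (σ : ℝ) * t ω''))) :=
      mul_nonneg hqq (by linarith)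
    by_cases h : Same X D ω ω' ∧ Same X D ω ω'' ∧ X r ω' ≠ X r ω''
    · rw [if_pos h]
      by_cases h2 : ‖σ • ((t ω' - t ω'' : ℝ) : UnitAddCircle)‖ < δ₀
      · rw [if_pos ⟨h, h2⟩, sub_self, mul_zero]
        exact hnn
      · rw [if_neg (fun h' => h2 h'.2), sub_zero]
        have hq1 : q ω' = p ω' := if_pos h.1
        have hq2 : q ω'' = p ω'' := if_pos h.2.1
        rw [← hq1, ← hq2]
        rw [not_lt, hnorm] at h2
        have h3 : δ₀ ^ 2 ≤ ‖(((σ : ℝ) * t ω' - (σ : ℝ) * t ω'' : ℝ) : UnitAddCircle)‖ ^ 2 :=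
          pow_le_pow_left₀ hδ₀ h2 2
        calc 8 * δ₀ ^ 2 * (q ω' * q ω'') = q ω' * q ω'' * (8 * δ₀ ^ 2) := by ring
          _ ≤ _ := mul_le_mul_of_nonneg_left (by linarith) hqq
    · rw [if_neg h, if_neg (fun h' => h h'.1), sub_self, mul_zero]
      exact hnn
  have hnormS : ‖S‖ ^ 2 ≤ m ^ 2 * Real.exp (-(8 * δ₀ ^ 2) * (G - B)) := by
    have h1 := Real.add_one_le_exp (-(8 * δ₀ ^ 2) * (G - B))
    have h2 : m ^ 2 * (-(8 * δ₀ ^ 2) * (G - B) + 1) ≤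
        m ^ 2 * Real.exp (-(8 * δ₀ ^ 2) * (G - B)) :=
      mul_le_mul_of_nonneg_left h1 (sq_nonneg m)
    nlinarith
  rw [hcexp, norm_div, Complex.norm_real, Real.norm_of_nonneg hω.le, div_le_iff₀ hω]
  have hexp : Real.exp (-(8 * δ₀ ^ 2) * (G - B)) = Real.exp (-(4 * δ₀ ^ 2) * (G - B)) ^ 2 := by
    rw [← Real.exp_nat_mul]
    congr 1
    push_cast
    ring
  rw [hexp] at hnormS
  have h5 : ‖S‖ ^ 2 ≤ (Real.exp (-(4 * δ₀ ^ 2) * (G - B)) * m) ^ 2 := by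
    rw [mul_pow]
    linarith
  exact (pow_le_pow_iff_left₀ (norm_nonneg S) (by positivity) two_ne_zero).1 h5

end Furst96.Sps
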