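import Pool.Agent.H.MP_96e181_an.sps.BaseDvd

/-! # Module PhiStep: at most one prime of a block makes `θ` small

PROOF. Suppose `s ≠ s'` in `S` with `‖s • θ‖ < r`, `‖s' • θ‖ < r`; put
`ρ = max ‖s • θ‖ ‖s' • θ‖ < r`, and let `b₀` be the least `c ≥ 1` with `‖c • θ‖ ≤ ρ`.
`base_dvd` with `Q = hi` (`2 hi ρ < 1`): `b₀ ∣ s` and `b₀ ∣ s'`, so `b₀ = 1` (distinct primes), and
`‖s • θ‖ = (s / 1) ‖1 • θ‖`, so `‖θ‖ = ‖s • θ‖ / s < r / lo`, contradiction.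
(`Finset.card_le_one`.) -/

set_option autoImplicit false

open MeasureTheory

namespace Furst96.Sps

open Classical in
theorem phi_step (θ : UnitAddCircle) (r : ℝ) (hr : 0 < r) (S : Finset ℕ)
    (hp : ∀ s ∈ S, s.Prime) (lo hi : ℕ) (hlo1 : 1 ≤ lo) (hlo : ∀ s ∈ S, lo ≤ s)
    (hhi : ∀ s ∈ S, s ≤ hi) (h2 : 2 * (hi : ℝ) * r < 1) (hθ : r / lo ≤ ‖θ‖) :
    (S.filter (fun s => ‖s • θ‖ < r)).card ≤ 1 := by
  rw [Finset.card_le_one]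
  intro s hs s' hs'
  by_contra hne
  rw [Finset.mem_filter] at hs hs'
  obtain ⟨hsS, hsr⟩ := hs
  obtain ⟨hsS', hsr'⟩ := hs'
  set ρ : ℝ := max ‖s • θ‖ ‖s' • θ‖ with hρ
  have hρr : ρ < r := max_lt hsr hsr'
  have hex : ∃ c : ℕ, 1 ≤ c ∧ ‖c • θ‖ ≤ ρ := ⟨s, (hp s hsS).one_lt.le, le_max_left _ _⟩
  set b₀ := Nat.find hex with hb₀def
  obtain ⟨hb1, hb2⟩ := Nat.find_spec hex
  have hmin : ∀ c : ℕ, 1 ≤ c → c < b₀ → ρ < ‖c • θ‖ := by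
    intro c hc1 hc2
    by_contra hcon
    exact Nat.find_min hex hc2 ⟨hc1, not_lt.mp hcon⟩
  have hQ : 2 * (hi : ℝ) * ρ < 1 := by
    have h0 : (0 : ℝ) ≤ 2 * (hi : ℝ) := by positivity
    exact lt_of_le_of_lt (mul_le_mul_of_nonneg_left hρr.le h0) h2
  have h1 := base_dvd θ ρ hi b₀ hQ hb1 hb2 hmin s (hp s hsS).one_lt.le (hhi s hsS)
    (le_max_left _ _)
  have h1' := base_dvd θ ρ hi b₀ hQ hb1 hb2 hmin s' (hp s' hsS').one_lt.le (hhi s' hsS')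
    (le_max_right _ _)
  have hb₀1 : b₀ = 1 := by
    have hco : Nat.Coprime s s' := (Nat.coprime_primes (hp s hsS) (hp s' hsS')).mpr hne
    exact Nat.eq_one_of_dvd_coprimes hco h1.1 h1'.1
  have h3 := h1.2
  rw [hb₀1, Nat.div_one, one_smul] at h3
  have hs0 : (0 : ℝ) < (lo : ℝ) := by exact_mod_cast hlo1
  have hslo : (lo : ℝ) ≤ (s : ℝ) := by exact_mod_cast hlo s hsS
  have h4 : r ≤ ‖θ‖ * lo := by rwa [div_le_iff₀ hs0] at hθ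
  have h5 : ‖θ‖ * lo ≤ (s : ℝ) * ‖θ‖ := by
    rw [mul_comm]
    exact mul_le_mul_of_nonneg_right hslo (norm_nonneg _)
  linarith [h3 ▸ hsr]

end Furst96.Sps
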