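import Pool.Agent.H.MP_96e181_an.sps.Typical
import Pool.Agent.H.MP_96e181_an.sps.Minimizer
import Pool.Agent.H.MP_96e181_an.sps.Greedy

/-! # Module Select: the choice of `D` and `R`

PROOF. `exists_stable` with `ℓ = log L` (`inc_empty_le`) gives `D ⊆ T`, `#D lam ≤ n log L`, so
`#D ≤ d`, and `∑_{s ∈ T} (inc s D - inc s (D ∪ R)) ≤ lam #R` for `R ⊆ T`.
`typical` for this `D` (`#D log L ≤ d log L`): `P(∑_{T \ D} gini ≤ δ a) ≤ 2δ + e^{-u} + n/L`.
Let `b = 1` where `∑_{s ∈ T \ D} gini D s > δ a`, else `0`.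
`greedy` with `g s ω = gini D s ω` (`gini_nonneg`, `gini_le_one`), `A = δ a`, `F R = tc D R`
(`tc_empty`; `tc_insert` and `inc_anti` (`D ⊆ D ∪ R`) give `hFm`;
`hFs`: `∑_{s ∈ (T\D)\R} (inc s D - inc s (D ∪ R)) ≤ ∑_{s ∈ T} ... ≤ lam #R ≤ lam K`, all terms
being `≥ 0`).  `#(T \ D) = n - #D ≥ n - d ≥ n/2 + K`.  `A ≤ n` is needed for `β ≤ 1`: if `δ a > n`
then... it is given as hypothesis `hδa`.
Finally `∑ p exp(-κ ∑_R gini) ≤ ∑ p b exp(..) + P(b = 0)` (`exp ≤ 1`, `gini ≥ 0`). -/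

set_option autoImplicit false

namespace Furst96.Sps

variable {Ω ι : Type*} [Fintype Ω] [DecidableEq ι]

theorem select (p : Ω → ℝ) (hp : ∀ ω, 0 ≤ p ω) (hs : ∑ ω, p ω = 1) (X : ι → Ω → ℕ)
    (T : Finset ι) (L : ℕ) (hL2 : 2 ≤ L) (hL : ∀ s ∈ T, ∀ ω, X s ω < L)
    (G u δ a lam d κ μ₀ : ℝ) (K : ℕ) (hδ : 0 < δ) (ha : 0 < a)
    (hG : ∑ ω, (if Real.exp (-G) ≤ mass p X T ω then p ω else 0) ≤ δ)
    (hlam : 0 < lam) (hd : T.card * Real.log L ≤ lam * d)
    (hbud : a * (1 + 2 * Real.log L) ≤ G - d * Real.log L - u)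
    (hK : (K : ℝ) ≤ δ * a / 2) (hKd : d + K ≤ (T.card : ℝ) / 2) (hT : 0 < T.card)
    (hδa : δ * a ≤ T.card) (hκ0 : 0 < κ) (hκ1 : κ ≤ 1) (hμ₀ : 0 < μ₀) :
    ∃ D ⊆ T, ∃ R ⊆ T \ D, R.card = K ∧
      ∑ ω, p ω * Real.exp (-κ * ∑ r ∈ R, gini p X D r ω) ≤
        (2 * δ + Real.exp (-u) + T.card / (L : ℝ)) +
        ((1 - κ * (δ * a) / (4 * T.card)) ^ K +
          (2 * μ₀ * lam * K / T.card) / (κ * (δ * a) / (4 * T.card))) ∧
      tc p X D R ≤ (1 + K * (2 * μ₀ * lam * K / T.card)) / μ₀ := by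
  have hTr : (0 : ℝ) < T.card := by exact_mod_cast hT
  have hL1 : (1 : ℝ) ≤ L := by exact_mod_cast (by omega : 1 ≤ L)
  have hℓ : 0 ≤ Real.log L := Real.log_nonneg hL1
  obtain ⟨D, hDT, hD1, hD2⟩ := exists_stable p hp X T (Real.log L)
    (fun s hs' => inc_empty_le p hp hs X s L (hL s hs')) lam hlam
  have hDd : (D.card : ℝ) ≤ d := by
    have h1 : lam * (D.card : ℝ) ≤ lam * d := by
      rw [mul_comm]
      exact hD1.trans hd
    exact le_of_mul_le_mul_left h1 hlam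
  have htyp := typical p hp hs X T D hDT L hL2 hL G u δ a hδ.le ha hG (by
    have h1 : (D.card : ℝ) * Real.log L ≤ d * Real.log L := mul_le_mul_of_nonneg_right hDd hℓ
    linarith)
  have hδa0 : 0 < δ * a := mul_pos hδ ha
  have hcard : ((T \ D).card : ℝ) = T.card - D.card := by
    rw [Finset.card_sdiff_of_subset hDT, Nat.cast_sub (Finset.card_le_card hDT)]
  obtain ⟨R, hR, hRK, hR1, hR2⟩ := greedy p hp hs T D hDT K (fun s ω => gini p X D s ω)
    (fun s ω => gini_nonneg hp X D s ω) (fun s ω => gini_le_one hp X D s ω)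
    (fun ω => if ∑ s ∈ T \ D, gini p X D s ω ≤ δ * a then 0 else 1)
    (fun ω => by
      show (0 : ℝ) ≤ if ∑ s ∈ T \ D, gini p X D s ω ≤ δ * a then 0 else 1
      split_ifs <;> norm_num)
    (fun ω => by
      show (if ∑ s ∈ T \ D, gini p X D s ω ≤ δ * a then (0 : ℝ) else 1) ≤ 1
      split_ifs <;> norm_num)
    (δ * a) hδa0
    (fun ω hω => by
      by_contra hcon
      push Not at hcon
      have h1 : (0 : ℝ) < if ∑ s ∈ T \ D, gini p X D s ω ≤ δ * a then 0 else 1 := hω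
      rw [if_pos hcon.le] at h1
      exact lt_irrefl _ h1)
    hK (fun R => tc p X D R) (tc_empty p X D)
    (fun R _ s hs' => by
      have h1 := tc_insert p X D R s (Finset.mem_sdiff.1 hs').2
      have h2 := inc_anti p hp hs X s D (D ∪ R) Finset.subset_union_left
      show tc p X D R ≤ tc p X D (insert s R)
      linarith)
    lam hlam.le
    (fun R hR hRK => by
      have h1 : ∑ s ∈ (T \ D) \ R, (tc p X D (insert s R) - tc p X D R) =
          ∑ s ∈ (T \ D) \ R, (inc p X s D - inc p X s (D ∪ R)) :=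
        Finset.sum_congr rfl fun s hs' => tc_insert p X D R s (Finset.mem_sdiff.1 hs').2
      show ∑ s ∈ (T \ D) \ R, (tc p X D (insert s R) - tc p X D R) ≤ lam * K
      rw [h1]
      have hRT : R ⊆ T := hR.trans Finset.sdiff_subset
      have h2 : ∑ s ∈ (T \ D) \ R, (inc p X s D - inc p X s (D ∪ R)) ≤
          ∑ s ∈ T, (inc p X s D - inc p X s (D ∪ R)) := by
        refine Finset.sum_le_sum_of_subset_of_nonneg
          (Finset.sdiff_subset.trans Finset.sdiff_subset) fun s _ _ => ?_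
        have := inc_anti p hp hs X s D (D ∪ R) Finset.subset_union_left
        linarith
      have h3 : lam * (R.card : ℝ) ≤ lam * K :=
        mul_le_mul_of_nonneg_left (by exact_mod_cast hRK) hlam.le
      exact h2.trans ((hD2 R hRT).trans h3))
    κ μ₀ hκ0 hκ1 hμ₀ hT (by rw [hcard]; linarith) (by
      rw [div_le_one (by positivity)]
      have h1 : κ * (δ * a) ≤ 1 * (δ * a) := mul_le_mul_of_nonneg_right hκ1 hδa0.le
      linarith)
  refine ⟨D, hDT, R, hR, hRK, ?_, hR2⟩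
  have hsplit : ∑ ω, p ω * Real.exp (-κ * ∑ r ∈ R, gini p X D r ω) ≤
      ∑ ω, (if ∑ s ∈ T \ D, gini p X D s ω ≤ δ * a then p ω else 0) +
      ∑ ω, p ω * ((if ∑ s ∈ T \ D, gini p X D s ω ≤ δ * a then 0 else 1) *
        Real.exp (-κ * ∑ r ∈ R, gini p X D r ω)) := by
    rw [← Finset.sum_add_distrib]
    refine Finset.sum_le_sum fun ω _ => ?_
    by_cases h : ∑ s ∈ T \ D, gini p X D s ω ≤ δ * a
    · rw [if_pos h, if_pos h, zero_mul, mul_zero, add_zero]
      have h1 : 0 ≤ ∑ r ∈ R, gini p X D r ω :=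
        Finset.sum_nonneg fun r _ => gini_nonneg hp X D r ω
      have h2 : Real.exp (-κ * ∑ r ∈ R, gini p X D r ω) ≤ 1 := by
        rw [Real.exp_le_one_iff]
        have := mul_nonneg hκ0.le h1
        linarith
      calc p ω * Real.exp (-κ * ∑ r ∈ R, gini p X D r ω) ≤ p ω * 1 :=
            mul_le_mul_of_nonneg_left h2 (hp ω)
        _ = p ω := mul_one _
    · rw [if_neg h, if_neg h, one_mul, zero_add]
  exact hsplit.trans (add_le_add htyp hR1)

end Furst96.Sps
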