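import Pool.Agent.H.MP_96e181_an.sps.Basics

/-! # Module StepSmall: one more variable rarely gives an atom which is much smaller

PROOF. For a value `v < L` let `F_v ω = if X s ω = v then 1 else 0` and
`m_v ω = ∑_{ω' ~_E ω} p ω' F_v ω'` (an `E`-measurable function); for `ω` with `X s ω = v` we have
`mass (insert s E) ω = m_v ω` (`same_insert`).  So the left side is
`∑_{v < L} ∑_ω p ω (F_v ω * ψ_v ω)`, `ψ_v ω = if m_v ω < t * mass E ω then 1 else 0`, which is
`E`-measurable; by `tower_real` the inner sum is `∑_ω p ω (m_v ω / mass E ω * ψ_v ω) ≤ ∑ p ω t = t`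
(if `ψ_v ω = 1` then `m_v ω / mass E ω < t`, where `mass E ω > 0` when `p ω > 0`).
Sum over `v < L`: `≤ L t`. -/

set_option autoImplicit false

namespace Furst96.Sps

variable {Ω ι : Type*} [Fintype Ω] [DecidableEq ι]

theorem step_small (p : Ω → ℝ) (hp : ∀ ω, 0 ≤ p ω) (hs : ∑ ω, p ω = 1) (X : ι → Ω → ℕ)
    (E : Finset ι) (s : ι) (L : ℕ) (hL : ∀ ω, X s ω < L) (t : ℝ) (ht : 0 ≤ t) :
    ∑ ω, (if mass p X (insert s E) ω < t * mass p X E ω then p ω else 0) ≤ (L : ℝ) * t := by
  classical
  set F : ℕ → Ω → ℝ := fun v ω => if X s ω = v then 1 else 0 with hF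
  set m : ℕ → Ω → ℝ := fun v ω => ∑ ω', if Same X E ω ω' then p ω' * F v ω' else 0 with hm
  set ψ : ℕ → Ω → ℝ := fun v ω => if m v ω < t * mass p X E ω then 1 else 0 with hψ
  have hmc : ∀ v ω ω', Same X E ω ω' → m v ω = m v ω' := by
    intro v ω ω' h
    simp only [hm]
    refine Finset.sum_congr rfl fun ω'' _ => ?_
    simp only [same_iff h]
  have hψc : ∀ v ω ω', Same X E ω ω' → ψ v ω = ψ v ω' := by
    intro v ω ω' h
    simp only [hψ]
    rw [hmc v ω ω' h, mass_congr h]
  have hv : ∀ v, ∑ ω, p ω * (F v ω * ψ v ω) ≤ t := by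
    intro v
    rw [← tower_real hp X E (F v) (ψ v) (hψc v)]
    calc ∑ ω, p ω * ((∑ ω', if Same X E ω ω' then p ω' * F v ω' else 0) / mass p X E ω * ψ v ω)
        ≤ ∑ ω, p ω * t := by
          refine Finset.sum_le_sum fun ω _ => ?_
          rcases (hp ω).eq_or_lt with h0 | h0
          · rw [← h0, zero_mul, zero_mul]
          · refine mul_le_mul_of_nonneg_left ?_ h0.le
            have hM := mass_pos hp X E h0
            by_cases hlt : m v ω < t * mass p X E ω
            · have h1 : ψ v ω = 1 := by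
                simp only [hψ]
                rw [if_pos hlt]
              rw [h1, mul_one]
              exact ((div_lt_iff₀ hM).2 hlt).le
            · have h1 : ψ v ω = 0 := by
                simp only [hψ]
                rw [if_neg hlt]
              rw [h1, mul_zero]
              exact ht
      _ = t := by rw [← Finset.sum_mul, hs, one_mul]
  have hmass : ∀ ω, mass p X (insert s E) ω = m (X s ω) ω := by
    intro ω
    simp only [hm, hF]
    unfold mass
    refine Finset.sum_congr rfl fun ω' _ => ?_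
    by_cases h1 : Same X E ω ω'
    · by_cases h2 : X s ω' = X s ω
      · rw [if_pos (same_insert.2 ⟨h2.symm, h1⟩), if_pos h1, if_pos h2, mul_one]
      · rw [if_neg (fun h => h2 (same_insert.1 h).1.symm), if_pos h1, if_neg h2, mul_zero]
    · rw [if_neg (fun h => h1 (same_insert.1 h).2), if_neg h1]
  have hterm : ∀ ω, (if mass p X (insert s E) ω < t * mass p X E ω then p ω else 0) =
      ∑ v ∈ Finset.range L, p ω * (F v ω * ψ v ω) := by
    intro ω
    rw [Finset.sum_eq_single (X s ω)]
    · simp only [hF, hψ]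
      rw [hmass ω, if_pos trivial, one_mul]
      split_ifs
      · rw [mul_one]
      · rw [mul_zero]
    · intro v _ hv'
      simp only [hF]
      rw [if_neg (fun h => hv' h.symm), zero_mul, mul_zero]
    · intro h
      exact absurd (Finset.mem_range.2 (hL ω)) h
  calc ∑ ω, (if mass p X (insert s E) ω < t * mass p X E ω then p ω else 0)
      = ∑ ω, ∑ v ∈ Finset.range L, p ω * (F v ω * ψ v ω) :=
        Finset.sum_congr rfl fun ω _ => hterm ω
    _ = ∑ v ∈ Finset.range L, ∑ ω, p ω * (F v ω * ψ v ω) := Finset.sum_comm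
    _ ≤ ∑ v ∈ Finset.range L, t := Finset.sum_le_sum fun v _ => hv v
    _ = (L : ℝ) * t := by simp

end Furst96.Sps
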