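import Pool.Agent.H.MP_96e181_an.sps.CellLib

/-! # Module Transfer: from the Fourier coefficient to the residues

PROOF. `coef μ k = ∫ fourier k x = ∫ fourier k ((σ M) • x)` by invariance (`Inv.mul`,
`Inv.integral`).  Write `x = (t : UnitAddCircle)`, `t = rep x ∈ [0,1)` (`coe_rep`):
`fourier k ((σ M) • x) = ee (k σ M t)` (`fourier_eq_ee`, `AddCircle.coe_nsmul`).  With `i = idx N x`,
`N t = i + e`, `0 ≤ e < 1` (`Nat.floor_le`, `Nat.lt_floor_add_one`), `M t = M (i + e)/N = (i + e)/Q`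
since `N = Q M`.  So `|fourier k ((σM)•x) - ee (k σ i / Q)| = |ee(kσe/Q) - 1| ≤ 2π |k| σ / Q`
(`‖ee s - 1‖ ≤ 2π|s|`: `Complex.norm_exp_I_mul_ofReal_sub_one_le` or `norm_exp_sub_one...`;
prove `‖exp(i s) - 1‖ ≤ |s|`).  Integrate, `∫ ee(kσ idx/Q) = ∑_i cm i ee(kσ i/Q)`
(`integral_idx`), `norm_integral_le_of_norm_le_const`. -/

set_option autoImplicit false

open MeasureTheory

namespace Furst96.Sps

theorem transfer_ee_sub_one (s : ℝ) : ‖ee s - 1‖ ≤ 2 * Real.pi * |s| := by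
  have h := Real.norm_exp_I_mul_ofReal_sub_one_le (x := 2 * Real.pi * s)
  have e : ee s = Complex.exp (Complex.I * ((2 * Real.pi * s : ℝ) : ℂ)) := by
    unfold ee
    congr 1
    push_cast
    ring
  rw [e]
  refine h.trans ?_
  rw [Real.norm_eq_abs, abs_mul, abs_of_nonneg (by positivity : (0 : ℝ) ≤ 2 * Real.pi)]

theorem transfer_point (N Q M σ : ℕ) (hNQ : N = Q * M) (hQ : 0 < Q) (hM : 0 < M) (k : ℤ)
    (x : UnitAddCircle) :
    ‖(fourier k ((σ * M) • x) : ℂ) - ee (((k * σ : ℤ) : ℝ) * (idx N x : ℕ) / (Q : ℝ))‖ ≤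
      2 * Real.pi * |(k : ℝ)| * σ / Q := by
  have hQ' : (0 : ℝ) < Q := by exact_mod_cast hQ
  have hM' : (0 : ℝ) < M := by exact_mod_cast hM
  have hx : ((σ * M) • x : UnitAddCircle) = (((σ * M : ℕ) * rep x : ℝ) : UnitAddCircle) := by
    conv_lhs => rw [← coe_rep x]
    rw [← nsmul_eq_mul]
    exact (AddCircle.coe_nsmul (p := (1 : ℝ))).symm
  have hNr : (N : ℝ) = Q * M := by rw [hNQ]; push_cast; ring
  have h0 : (0 : ℝ) ≤ (N : ℝ) * rep x := mul_nonneg (Nat.cast_nonneg _) (rep_nonneg x)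
  set e : ℝ := (N : ℝ) * rep x - (idx N x : ℕ) with he
  have he0 : 0 ≤ e := by
    rw [he, sub_nonneg]
    exact Nat.floor_le h0
  have he1 : e < 1 := by
    rw [he, sub_lt_iff_lt_add']
    have := Nat.lt_floor_add_one ((N : ℝ) * rep x)
    exact this
  have hrep : (M : ℝ) * rep x = ((idx N x : ℕ) + e) / Q := by
    rw [eq_div_iff hQ'.ne', he, hNr]
    ring
  have h1 : (k : ℝ) * ((σ * M : ℕ) * rep x : ℝ) =
      ((k * σ : ℤ) : ℝ) * (idx N x : ℕ) / (Q : ℝ) + (k : ℝ) * σ * e / Q := by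
    have : (k : ℝ) * ((σ * M : ℕ) * rep x : ℝ) = (k : ℝ) * σ * ((M : ℝ) * rep x) := by
      push_cast
      ring
    rw [this, hrep]
    push_cast
    ring
  rw [hx, fourier_eq_ee, h1, ee_add]
  have h2 : ee (((k * σ : ℤ) : ℝ) * (idx N x : ℕ) / (Q : ℝ)) * ee ((k : ℝ) * σ * e / Q) -
      ee (((k * σ : ℤ) : ℝ) * (idx N x : ℕ) / (Q : ℝ)) =
      ee (((k * σ : ℤ) : ℝ) * (idx N x : ℕ) / (Q : ℝ)) * (ee ((k : ℝ) * σ * e / Q) - 1) := by
    ring
  rw [h2, norm_mul, norm_ee, one_mul]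
  refine (transfer_ee_sub_one _).trans ?_
  rw [abs_div, abs_mul, abs_mul, abs_of_nonneg he0, abs_of_pos hQ',
    abs_of_nonneg (Nat.cast_nonneg σ : (0 : ℝ) ≤ (σ : ℝ)), mul_div_assoc, mul_div_assoc]
  have h3 : |(k : ℝ)| * σ * (e / Q) ≤ |(k : ℝ)| * σ * (1 / Q) := by
    refine mul_le_mul_of_nonneg_left ?_ (mul_nonneg (abs_nonneg _) (Nat.cast_nonneg _))
    exact div_le_div_of_nonneg_right he1.le hQ'.le
  have h4 : 2 * Real.pi * (|(k : ℝ)| * σ * (e / Q)) ≤ 2 * Real.pi * (|(k : ℝ)| * σ * (1 / Q)) :=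
    mul_le_mul_of_nonneg_left h3 (by positivity)
  refine h4.trans (le_of_eq ?_)
  ring

theorem transfer (μ : Measure UnitAddCircle) [IsProbabilityMeasure μ] (N Q M σ : ℕ)
    (hNQ : N = Q * M) (hQ : 0 < Q) (hM : 0 < M) (hinvM : Inv μ M) (hinvσ : Inv μ σ) (k : ℤ) :
    ‖coef μ k - ∑ i : Fin N, (cm μ N i : ℂ) * ee (((k * σ : ℤ) : ℝ) * (i : ℕ) / (Q : ℝ))‖ ≤
      2 * Real.pi * |(k : ℝ)| * σ / Q := by
  have hN : 0 < N := by rw [hNQ]; exact Nat.mul_pos hQ hM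
  have hinv : Inv μ (σ * M) := hinvσ.mul hinvM
  have hcont : Continuous (fun x : UnitAddCircle => (fourier k x : ℂ)) := (fourier k).continuous
  have h1 : coef μ k = ∫ x, (fourier k ((σ * M) • x) : ℂ) ∂μ := by
    unfold coef
    exact (hinv.integral (f := fun x : UnitAddCircle => (fourier k x : ℂ))
      hcont.aestronglyMeasurable).symm
  have h2 := integral_idx μ hN (fun i : ℕ => ee (((k * σ : ℤ) : ℝ) * (i : ℕ) / (Q : ℝ)))
  rw [h1, ← h2]
  have hc2 : Continuous (fun x : UnitAddCircle => (fourier k ((σ * M) • x) : ℂ)) :=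
    hcont.comp (continuous_nsmul_circle (σ * M))
  have hi1 : Integrable (fun x : UnitAddCircle => (fourier k ((σ * M) • x) : ℂ)) μ := by
    refine Integrable.of_bound hc2.aestronglyMeasurable 1 (Filter.Eventually.of_forall fun x => ?_)
    exact le_of_eq (Circle.norm_coe _)
  have hi2 : Integrable (fun x : UnitAddCircle =>
      ee (((k * σ : ℤ) : ℝ) * (idx N x : ℕ) / (Q : ℝ))) μ := by
    refine Integrable.of_bound ?_ 1 (Filter.Eventually.of_forall fun x => le_of_eq (norm_ee _))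
    have hm : Measurable (fun i : ℕ => ee (((k * σ : ℤ) : ℝ) * (i : ℕ) / (Q : ℝ))) :=
      measurable_from_top
    exact (hm.comp (measurable_idx N)).aestronglyMeasurable
  rw [← integral_sub hi1 hi2]
  have h3 := norm_integral_le_of_norm_le_const (μ := μ) (f := fun x : UnitAddCircle =>
    (fourier k ((σ * M) • x) : ℂ) - ee (((k * σ : ℤ) : ℝ) * (idx N x : ℕ) / (Q : ℝ)))
    (C := 2 * Real.pi * |(k : ℝ)| * σ / Q)
    (Filter.Eventually.of_forall fun x => transfer_point N Q M σ hNQ hQ hM k x)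
  simpa using h3

end Furst96.Sps
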