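import Pool.Agent.H.MP_96e181_an.sps.Jensen
import Pool.Agent.H.MP_96e181_an.sps.AtomCount
import Pool.Agent.H.MP_96e181_an.sps.StepSmall

/-! # Module Typical: the total Gini index of a typical atom is large

PROOF. Put `ℓ = Real.log L ≥ 0`.

(A) By induction on the finite set `U` (`Finset.induction_on`), for every `U ⊆ T \ D` there is
`V : Ω → ℝ` with
 (i) `0 ≤ V ω` for every `ω`;
 (ii) for every `b ≥ 0` which is `D`-measurable, `∑ p (b V) ≤ ∑ p (b ∑_{s ∈ U} gini D s)`;
 (iii) `∑_ω (if log (mass D ω) - log (mass (D ∪ U) ω) ≤ (1 + 2ℓ) V ω then 0 else p ω) ≤ #U / L`.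
`U = ∅`: `V = 0`.  Step `insert s U`, `E = D ∪ U`: `V' = V + v`,
`v ω = 1 - mass (insert s E) ω / mass E ω` (`0 ≤ v` when `mass E ω > 0` by `mass_mono`; when
`mass E ω = 0`, `x / 0 = 0` and `v = 1`).  (ii) is `gini_jensen`.  (iii): outside the exceptional
set for `U` and outside the set `mass (insert s E) ω < L⁻² mass E ω` (which has probability `≤ 1/L`
by `step_small` with `t = L⁻²`) and for `p ω > 0` (so both masses are positive):
`Z = log (mass E) - log (mass (insert s E))` satisfies `0 ≤ Z ≤ 2ℓ` and `v = 1 - exp(-Z)`, and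
`1 - exp(-Z) ≥ Z/(1+Z) ≥ Z/(1+2ℓ)` because `exp Z ≥ 1 + Z`.

(B) Apply (A) with `U = T \ D`, `D ∪ U = T`.  Let `b ω = 1` if `∑_{s ∈ T \ D} gini D s ω ≤ δ a`,
else `0` (`D`-measurable by `gini_congr`).  Every `ω` with `b ω = 1`, `p ω > 0` is in one of
 - `E1`: `exp(-G) ≤ mass T ω`  (probability `≤ δ`, `hG`);
 - `E2`: `mass D ω < exp(-u) / L^#D`  (probability `≤ exp(-u)`, `mass_small` with `t = exp(-u)`);
 - `E3`: the exceptional set of (iii)  (probability `≤ #T / L`);
 - `E4`: `a ≤ V ω`:  outside `E1, E2, E3` we have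
   `(1+2ℓ) V ω ≥ log (mass D ω) - log (mass T ω) ≥ -u - #D ℓ + G ≥ a (1+2ℓ)`.
By Markov and (ii), `P(b = 1, V ≥ a) ≤ (1/a) ∑ p b V ≤ (1/a) ∑ p b δ a ≤ δ`.
Total: `≤ 2δ + exp(-u) + #T/L`. -/

set_option autoImplicit false

namespace Furst96.Sps

variable {Ω ι : Type*} [Fintype Ω] [DecidableEq ι]

private theorem typical_log {L : ℕ} (hL2 : 2 ≤ L) {r : ℝ} (hr0 : 0 < r) (hr1 : r ≤ 1)
    (hr : ((L : ℝ) ^ 2)⁻¹ ≤ r) : -Real.log r ≤ (1 + 2 * Real.log L) * (1 - r) := by
  have hL0 : (0 : ℝ) < L := by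
    have : 0 < L := by omega
    exact_mod_cast this
  have h1 : -Real.log r ≤ 2 * Real.log L := by
    have h2 := Real.log_le_log (inv_pos.2 (pow_pos hL0 2)) hr
    rw [Real.log_inv, Real.log_pow] at h2
    push_cast at h2
    linarith
  have h3 : r * (1 + -Real.log r) ≤ 1 := by
    have h4 : -Real.log r + 1 ≤ Real.exp (-Real.log r) := Real.add_one_le_exp _
    rw [Real.exp_neg, Real.exp_log hr0] at h4
    calc r * (1 + -Real.log r) ≤ r * r⁻¹ := by
          apply mul_le_mul_of_nonneg_left _ hr0.le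
          linarith
      _ = 1 := mul_inv_cancel₀ hr0.ne'
  nlinarith [mul_nonneg (sub_nonneg.2 hr1) (sub_nonneg.2 h1)]

private theorem typical_A (p : Ω → ℝ) (hp : ∀ ω, 0 ≤ p ω) (hs : ∑ ω, p ω = 1) (X : ι → Ω → ℕ)
    (T D : Finset ι) (L : ℕ) (hL2 : 2 ≤ L) (hL : ∀ s ∈ T, ∀ ω, X s ω < L) (U : Finset ι)
    (hU : U ⊆ T \ D) :
    ∃ V : Ω → ℝ, (∀ ω, 0 ≤ V ω) ∧
      (∀ b : Ω → ℝ, (∀ ω, 0 ≤ b ω) → (∀ ω ω', Same X D ω ω' → b ω = b ω') →
        ∑ ω, p ω * (b ω * V ω) ≤ ∑ ω, p ω * (b ω * ∑ s ∈ U, gini p X D s ω)) ∧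
      ∑ ω, (if Real.log (mass p X D ω) - Real.log (mass p X (D ∪ U) ω) ≤
        (1 + 2 * Real.log L) * V ω then 0 else p ω) ≤ (U.card : ℝ) / L := by
  have hL0 : (0 : ℝ) < L := by
    have : 0 < L := by omega
    exact_mod_cast this
  induction U using Finset.induction_on with
  | empty =>
    refine ⟨fun _ => 0, fun _ => le_rfl, ?_, ?_⟩
    · intro b _ _
      simp
    · simp
  | insert s U hsU ih =>
    obtain ⟨V, hV0, hV1, hV2⟩ := ih ((Finset.subset_insert s U).trans hU)
    have hsT : s ∈ T := (Finset.mem_sdiff.1 (hU (Finset.mem_insert_self s U))).1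
    have hv0 : ∀ ω, 0 ≤ 1 - mass p X (insert s (D ∪ U)) ω / mass p X (D ∪ U) ω := by
      intro ω
      have h1 := div_le_one_of_le₀ (mass_mono hp X (Finset.subset_insert s (D ∪ U)) ω)
        (mass_nonneg hp X (D ∪ U) ω)
      linarith
    refine ⟨fun ω => V ω + (1 - mass p X (insert s (D ∪ U)) ω / mass p X (D ∪ U) ω),
      fun ω => add_nonneg (hV0 ω) (hv0 ω), ?_, ?_⟩
    · intro b hb0 hb
      have h1 := hV1 b hb0 hb
      have h2 := gini_jensen p hp X D (D ∪ U) Finset.subset_union_left s b hb0 hb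
      calc ∑ ω, p ω * (b ω * (V ω + (1 - mass p X (insert s (D ∪ U)) ω / mass p X (D ∪ U) ω)))
          = ∑ ω, p ω * (b ω * V ω) + ∑ ω, p ω * (b ω *
            (1 - mass p X (insert s (D ∪ U)) ω / mass p X (D ∪ U) ω)) := by
            rw [← Finset.sum_add_distrib]
            exact Finset.sum_congr rfl fun ω _ => by ring
        _ ≤ ∑ ω, p ω * (b ω * ∑ s ∈ U, gini p X D s ω) + ∑ ω, p ω * (b ω * gini p X D s ω) :=
            add_le_add h1 h2
        _ = ∑ ω, p ω * (b ω * ∑ s ∈ insert s U, gini p X D s ω) := by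
            rw [← Finset.sum_add_distrib]
            refine Finset.sum_congr rfl fun ω _ => ?_
            rw [Finset.sum_insert hsU]
            ring
    · have h1 := step_small p hp hs X (D ∪ U) s L (hL s hsT) ((L : ℝ) ^ 2)⁻¹
        (inv_nonneg.2 (sq_nonneg _))
      have h2 : (L : ℝ) * ((L : ℝ) ^ 2)⁻¹ = 1 / L := by
        field_simp
      rw [h2] at h1
      have h3 : ((insert s U).card : ℝ) / L = (U.card : ℝ) / L + 1 / L := by
        rw [Finset.card_insert_of_notMem hsU]
        push_cast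
        ring
      rw [h3, Finset.union_insert]
      refine le_trans (Finset.sum_le_sum fun ω _ => ?_)
        (le_of_eq_of_le (Finset.sum_add_distrib) (add_le_add hV2 h1))
      by_cases hc : Real.log (mass p X D ω) - Real.log (mass p X (insert s (D ∪ U)) ω) ≤
          (1 + 2 * Real.log L) * (V ω +
            (1 - mass p X (insert s (D ∪ U)) ω / mass p X (D ∪ U) ω))
      · rw [if_pos hc]
        apply add_nonneg
        · split_ifs
          · exact le_rfl
          · exact hp ω
        · split_ifs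
          · exact hp ω
          · exact le_rfl
      · rw [if_neg hc]
        by_cases hA : Real.log (mass p X D ω) - Real.log (mass p X (D ∪ U) ω) ≤
            (1 + 2 * Real.log L) * V ω
        · by_cases hB : mass p X (insert s (D ∪ U)) ω < ((L : ℝ) ^ 2)⁻¹ * mass p X (D ∪ U) ω
          · rw [if_pos hA, if_pos hB, zero_add]
          · rw [if_pos hA, if_neg hB, zero_add]
            by_contra hpω
            push Not at hpω
            have hm := mass_pos hp X (D ∪ U) hpω
            have hm' := mass_pos hp X (insert s (D ∪ U)) hpω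
            apply hc
            have h4 := typical_log hL2 (div_pos hm' hm)
              (div_le_one_of_le₀ (mass_mono hp X (Finset.subset_insert s (D ∪ U)) ω) hm.le)
              (by rw [le_div_iff₀ hm]; exact not_lt.1 hB)
            rw [Real.log_div hm'.ne' hm.ne'] at h4
            rw [mul_add]
            linarith
        · rw [if_neg hA]
          have : 0 ≤ if mass p X (insert s (D ∪ U)) ω <
              ((L : ℝ) ^ 2)⁻¹ * mass p X (D ∪ U) ω then p ω else 0 := by
            split_ifs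
            · exact hp ω
            · exact le_rfl
          linarith

theorem typical (p : Ω → ℝ) (hp : ∀ ω, 0 ≤ p ω) (hs : ∑ ω, p ω = 1) (X : ι → Ω → ℕ)
    (T D : Finset ι) (hDT : D ⊆ T) (L : ℕ) (hL2 : 2 ≤ L) (hL : ∀ s ∈ T, ∀ ω, X s ω < L)
    (G u δ a : ℝ) (hδ : 0 ≤ δ) (ha : 0 < a)
    (hG : ∑ ω, (if Real.exp (-G) ≤ mass p X T ω then p ω else 0) ≤ δ)
    (hbud : a * (1 + 2 * Real.log L) ≤ G - D.card * Real.log L - u) :
    ∑ ω, (if ∑ s ∈ T \ D, gini p X D s ω ≤ δ * a then p ω else 0) ≤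
      2 * δ + Real.exp (-u) + T.card / (L : ℝ) := by
  have hL0 : (0 : ℝ) < L := by
    have : 0 < L := by omega
    exact_mod_cast this
  have hlog : 0 ≤ Real.log L := by
    apply Real.log_nonneg
    have : 1 ≤ L := by omega
    exact_mod_cast this
  obtain ⟨V, hV0, hV1, hV2⟩ := typical_A p hp hs X T D L hL2 hL (T \ D) subset_rfl
  rw [Finset.union_sdiff_of_subset hDT] at hV2
  set S : Ω → ℝ := fun ω => ∑ s ∈ T \ D, gini p X D s ω with hS
  set b : Ω → ℝ := fun ω => if S ω ≤ δ * a then 1 else 0 with hb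
  have hb0 : ∀ ω, 0 ≤ b ω := by
    intro ω
    simp only [hb]
    split_ifs
    · exact zero_le_one
    · exact le_rfl
  have hbD : ∀ ω ω', Same X D ω ω' → b ω = b ω' := by
    intro ω ω' h
    have h1 : S ω = S ω' := Finset.sum_congr rfl fun s _ => gini_congr h
    simp only [hb, h1]
  have hbV := hV1 b hb0 hbD
  have hbS : ∑ ω, p ω * (b ω * ∑ s ∈ T \ D, gini p X D s ω) ≤ δ * a := by
    calc ∑ ω, p ω * (b ω * ∑ s ∈ T \ D, gini p X D s ω) ≤ ∑ ω, p ω * (δ * a) := by
          refine Finset.sum_le_sum fun ω _ => mul_le_mul_of_nonneg_left ?_ (hp ω)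
          by_cases h : S ω ≤ δ * a
          · have h1 : b ω = 1 := if_pos h
            rw [h1, one_mul]
            exact h
          · have h1 : b ω = 0 := if_neg h
            rw [h1, zero_mul]
            exact mul_nonneg hδ ha.le
      _ = δ * a := by rw [← Finset.sum_mul, hs, one_mul]
  have hms := mass_small p hp hs X D L (fun s hs' ω => hL s (hDT hs') ω) (Real.exp (-u))
    (Real.exp_pos _).le
  have hcard : ((T \ D).card : ℝ) / L ≤ (T.card : ℝ) / L := by
    apply div_le_div_of_nonneg_right _ hL0.le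
    exact_mod_cast Finset.card_le_card Finset.sdiff_subset
  have hlast : ∑ ω, a⁻¹ * (p ω * (b ω * V ω)) ≤ δ := by
    rw [← Finset.mul_sum, inv_mul_le_iff₀ ha]
    calc ∑ ω, p ω * (b ω * V ω) ≤ _ := hbV
      _ ≤ δ * a := hbS
      _ = a * δ := mul_comm _ _
  have hpt : ∀ ω, (if S ω ≤ δ * a then p ω else 0) ≤
      (if Real.exp (-G) ≤ mass p X T ω then p ω else 0) +
      (if mass p X D ω < Real.exp (-u) / (L : ℝ) ^ D.card then p ω else 0) +
      (if Real.log (mass p X D ω) - Real.log (mass p X T ω) ≤ (1 + 2 * Real.log L) * V ω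
        then 0 else p ω) + a⁻¹ * (p ω * (b ω * V ω)) := by
    intro ω
    have e1 : 0 ≤ if Real.exp (-G) ≤ mass p X T ω then p ω else 0 := by
      split_ifs
      · exact hp ω
      · exact le_rfl
    have e2 : 0 ≤ if mass p X D ω < Real.exp (-u) / (L : ℝ) ^ D.card then p ω else 0 := by
      split_ifs
      · exact hp ω
      · exact le_rfl
    have e3 : 0 ≤ if Real.log (mass p X D ω) - Real.log (mass p X T ω) ≤
        (1 + 2 * Real.log L) * V ω then 0 else p ω := by
      split_ifs
      · exact le_rfl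
      · exact hp ω
    have e4 : 0 ≤ a⁻¹ * (p ω * (b ω * V ω)) :=
      mul_nonneg (inv_nonneg.2 ha.le) (mul_nonneg (hp ω) (mul_nonneg (hb0 ω) (hV0 ω)))
    by_cases hSω : S ω ≤ δ * a
    · rw [if_pos hSω]
      rcases eq_or_lt_of_le (hp ω) with h0 | h0
      · rw [← h0] at e1 e2 e3 e4 ⊢
        linarith
      by_cases h1 : Real.exp (-G) ≤ mass p X T ω
      · rw [if_pos h1] at e1 ⊢
        linarith
      by_cases h2 : mass p X D ω < Real.exp (-u) / (L : ℝ) ^ D.card
      · rw [if_pos h2] at e2 ⊢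
        linarith
      by_cases h3 : Real.log (mass p X D ω) - Real.log (mass p X T ω) ≤
          (1 + 2 * Real.log L) * V ω
      · have hbω : b ω = 1 := if_pos hSω
        have hmT := mass_pos hp X T h0
        have hmD := mass_pos hp X D h0
        have h4 : Real.log (mass p X T ω) ≤ -G := by
          rw [← Real.log_exp (-G)]
          exact Real.log_le_log hmT (not_le.1 h1).le
        have h5 : -u - D.card * Real.log L ≤ Real.log (mass p X D ω) := by
          have h6 := Real.log_le_log (div_pos (Real.exp_pos _) (pow_pos hL0 _)) (not_lt.1 h2)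
          rw [Real.log_div (Real.exp_pos _).ne' (pow_pos hL0 _).ne', Real.log_exp,
            Real.log_pow] at h6
          exact h6
        have h7 : a ≤ V ω := by
          have h8 : a * (1 + 2 * Real.log L) ≤ V ω * (1 + 2 * Real.log L) := by
            linarith
          exact le_of_mul_le_mul_right h8 (by linarith)
        have h9 : p ω ≤ a⁻¹ * (p ω * (b ω * V ω)) := by
          rw [hbω, one_mul, inv_mul_eq_div, le_div_iff₀ ha]
          exact mul_le_mul_of_nonneg_left h7 h0.le
        linarith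
      · rw [if_neg h3] at e3 ⊢
        linarith
    · rw [if_neg hSω]
      linarith
  calc ∑ ω, (if ∑ s ∈ T \ D, gini p X D s ω ≤ δ * a then p ω else 0)
      ≤ ∑ ω, ((if Real.exp (-G) ≤ mass p X T ω then p ω else 0) +
      (if mass p X D ω < Real.exp (-u) / (L : ℝ) ^ D.card then p ω else 0) +
      (if Real.log (mass p X D ω) - Real.log (mass p X T ω) ≤ (1 + 2 * Real.log L) * V ω
        then 0 else p ω) + a⁻¹ * (p ω * (b ω * V ω))) := Finset.sum_le_sum fun ω _ => hpt ω
    _ ≤ 2 * δ + Real.exp (-u) + T.card / (L : ℝ) := by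
        rw [Finset.sum_add_distrib, Finset.sum_add_distrib, Finset.sum_add_distrib]
        linarith

end Furst96.Sps
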